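import Mathlib

/-!
# Jacobi sums in many variables
-/

namespace Pool.Agent.Helper75.Zss

open Finset

section A

variable {F : Type*} [Field F] [Fintype F] [DecidableEq F] {ι : Type*} [Fintype ι]

/-- The sum of `∏ i, c i (u i)` over all `u` with total `s`. -/
noncomputable def A [DecidableEq ι] (c : ι → MulChar F ℂ) (s : F) : ℂ :=
  ∑ u : ι → F with ∑ i, u i = s, ∏ i, c i (u i)

variable [DecidableEq ι]

theorem A_eq_one {c : ι → MulChar F ℂ} (hc : ∏ i, c i = 1) {s : F} (hs : s ≠ 0) :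
    A c s = A c 1 := by
  unfold A
  rw [sum_filter, sum_filter]
  rw [← Equiv.sum_comp (Equiv.piCongrRight (fun _ : ι => Equiv.mulLeft₀ s hs))]
  apply sum_congr rfl
  intro u _
  have h1 : (∑ i, (Equiv.piCongrRight (fun _ : ι => Equiv.mulLeft₀ s hs)) u i = s) ↔
      ∑ i, u i = 1 := by
    have : ∑ i, (Equiv.piCongrRight (fun _ : ι => Equiv.mulLeft₀ s hs)) u i = s * ∑ i, u i := by
      rw [mul_sum]
      rfl
    rw [this]
    constructor
    · intro h
      exact mul_left_cancel₀ hs (by rw [h, mul_one])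
    · intro h
      rw [h, mul_one]
  have h2 : ∏ i, c i ((Equiv.piCongrRight (fun _ : ι => Equiv.mulLeft₀ s hs)) u i) =
      ∏ i, c i (u i) := by
    have : ∀ i, c i ((Equiv.piCongrRight (fun _ : ι => Equiv.mulLeft₀ s hs)) u i) =
        c i s * c i (u i) := fun i => map_mul (c i) s (u i)
    rw [prod_congr rfl (fun i _ => this i), prod_mul_distrib]
    have h3 : ∏ i, c i s = (∏ i, c i) s := by
      have : ∀ t : Finset ι, ∏ i ∈ t, c i s = (∏ i ∈ t, c i) s := by
        intro t
        induction t using Finset.induction_on with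
        | empty => simp [MulChar.one_apply (isUnit_iff_ne_zero.2 hs)]
        | insert i t hi ih => rw [prod_insert hi, prod_insert hi, ih, MulChar.mul_apply]
      exact this univ
    rw [h3, hc, MulChar.one_apply (isUnit_iff_ne_zero.2 hs), one_mul]
  simp only [h1, h2]

theorem sum_A [Nonempty ι] {c : ι → MulChar F ℂ} (hc : ∀ i, c i ≠ 1) : ∑ s, A c s = 0 := by
  unfold A
  rw [sum_fiberwise univ (fun u : ι → F => ∑ i, u i) (fun u => ∏ i, c i (u i))]
  have h1 := Finset.prod_univ_sum (fun _ : ι => (univ : Finset F)) (fun i x => c i x)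
  rw [Fintype.piFinset_univ] at h1
  rw [← h1]
  obtain ⟨i⟩ := ‹Nonempty ι›
  exact prod_eq_zero (mem_univ i) (MulChar.sum_eq_zero_of_ne_one (hc i))

theorem A_zero [Nonempty ι] {c : ι → MulChar F ℂ} (hc : ∀ i, c i ≠ 1) (hc1 : ∏ i, c i = 1) :
    A c 0 = - ((Fintype.card F : ℂ) - 1) * A c 1 := by
  have h1 := sum_A hc
  rw [← add_sum_erase univ (A c) (mem_univ 0)] at h1
  have h2 : ∑ s ∈ univ.erase (0 : F), A c s = ((Fintype.card F : ℂ) - 1) * A c 1 := by
    rw [sum_congr rfl (fun s hs => A_eq_one hc1 (ne_of_mem_erase hs)), sum_const,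
      card_erase_of_mem (mem_univ _), card_univ, nsmul_eq_mul,
      Nat.cast_sub Fintype.card_pos, Nat.cast_one]
  rw [h2] at h1
  linear_combination h1

theorem prod_gaussSum_eq (c : ι → MulChar F ℂ) (ψ : AddChar F ℂ) :
    ∏ i, gaussSum (c i) ψ = ∑ s, ψ s * A c s := by
  unfold gaussSum
  have h1 := Finset.prod_univ_sum (fun _ : ι => (univ : Finset F)) (fun i x => c i x * ψ x)
  rw [Fintype.piFinset_univ] at h1
  rw [h1, ← sum_fiberwise univ (fun u : ι → F => ∑ i, u i)]
  apply sum_congr rfl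
  intro s _
  unfold A
  rw [mul_sum]
  apply sum_congr rfl
  intro u hu
  rw [mem_filter] at hu
  rw [prod_mul_distrib, mul_comm]
  congr 1
  rw [← hu.2]
  have : ∀ t : Finset ι, ∏ i ∈ t, ψ (u i) = ψ (∑ i ∈ t, u i) := by
    intro t
    induction t using Finset.induction_on with
    | empty => simp
    | insert i t hi ih => rw [prod_insert hi, sum_insert hi, ih, AddChar.map_add_eq_mul]
  exact this univ

theorem prod_gaussSum [Nonempty ι] {c : ι → MulChar F ℂ} (hc : ∀ i, c i ≠ 1)
    (hc1 : ∏ i, c i = 1) {ψ : AddChar F ℂ} (hψ : ψ ≠ 1) :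
    ∏ i, gaussSum (c i) ψ = (Fintype.card F : ℂ) * (- A c 1) := by
  rw [prod_gaussSum_eq, ← add_sum_erase univ _ (mem_univ 0), A_zero hc hc1]
  have h2 : ∑ s ∈ univ.erase (0 : F), ψ s * A c s = - A c 1 := by
    rw [sum_congr rfl (fun s hs => by rw [A_eq_one hc1 (ne_of_mem_erase hs)]), ← sum_mul]
    have h3 := AddChar.sum_eq_zero_of_ne_one hψ
    rw [← add_sum_erase univ _ (mem_univ 0), AddChar.map_zero_eq_one] at h3
    have h4 : ∑ s ∈ univ.erase (0 : F), ψ s = -1 := by linear_combination h3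
    rw [h4]
    ring
  rw [h2, AddChar.map_zero_eq_one]
  ring

theorem isIntegral_mulChar (χ : MulChar F ℂ) (x : F) : IsIntegral ℤ (χ x) := by
  by_cases hx : x = 0
  · rw [hx, MulChar.map_zero]
    exact isIntegral_zero
  · have h1 : (χ x) ^ (Fintype.card F - 1) = 1 := by
      rw [← map_pow, FiniteField.pow_card_sub_one_eq_one x hx, map_one]
    have h2 : 0 < Fintype.card F - 1 := by
      have := Fintype.one_lt_card (α := F)
      omega
    refine IsIntegral.of_pow h2 ?_
    rw [h1]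
    exact isIntegral_one

theorem isIntegral_A (c : ι → MulChar F ℂ) (s : F) : IsIntegral ℤ (A c s) := by
  unfold A
  apply IsIntegral.sum
  intro u _
  apply IsIntegral.prod
  intro i _
  exact isIntegral_mulChar _ _

theorem exists_addChar (F : Type*) [Field F] [Fintype F] : ∃ ψ : AddChar F ℂ, ψ ≠ 1 := by
  obtain ⟨ψ, hψ⟩ := (AddChar.exists_apply_ne_zero (α := F) (a := 1)).2 one_ne_zero
  refine ⟨ψ, ?_⟩
  rintro rfl
  exact hψ (AddChar.one_apply 1)

end A

section J

variable {F : Type*} [Field F] [Fintype F] [DecidableEq F] {m n : ℕ}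

/-- The Jacobi sum (Frobenius eigenvalue of the Fermat hypersurface, up to sign). -/
noncomputable def jac (χ : MulChar F ℂ) (a : Fin n → ZMod m) : ℂ :=
  (∑ u : Fin n → F with ∑ i, u i = 0, ∏ i, (χ ^ (a i).val) (u i)) / ((Fintype.card F : ℂ) - 1)

omit [Fintype F] [DecidableEq F] in
theorem pow_val_ne_one [NeZero m] {χ : MulChar F ℂ} (hχ : orderOf χ = m) {x : ZMod m}
    (hx : x ≠ 0) : χ ^ x.val ≠ 1 := by
  intro h
  have h1 := orderOf_dvd_of_pow_eq_one h
  rw [hχ] at h1
  have h2 := ZMod.val_lt x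
  have h3 : x.val ≠ 0 := fun h => hx ((ZMod.val_eq_zero x).1 h)
  exact absurd (Nat.le_of_dvd (by omega) h1) (by omega)

omit [Fintype F] [DecidableEq F] in
theorem prod_pow_val [NeZero m] {χ : MulChar F ℂ} (hχ : orderOf χ = m) {ι : Type*} (s : Finset ι)
    (a : ι → ZMod m) (ha : ∑ i ∈ s, a i = 0) : ∏ i ∈ s, χ ^ (a i).val = 1 := by
  rw [prod_pow_eq_pow_sum]
  apply orderOf_dvd_iff_pow_eq_one.1
  rw [hχ, ← ZMod.natCast_eq_zero_iff]
  push_cast
  simpa using ha

omit [DecidableEq F] in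
theorem card_sub_one_ne_zero : ((Fintype.card F : ℂ) - 1) ≠ 0 := by
  have := Fintype.one_lt_card (α := F)
  rw [sub_ne_zero]
  norm_cast
  omega

omit [DecidableEq F] in
theorem card_ne_zero' : (Fintype.card F : ℂ) ≠ 0 := by
  have := Fintype.one_lt_card (α := F)
  norm_cast
  omega

theorem jac_eq [NeZero m] [NeZero n] {χ : MulChar F ℂ} (hχ : orderOf χ = m) {a : Fin n → ZMod m}
    (ha : ∀ i, a i ≠ 0) (hs : ∑ i, a i = 0) :
    jac χ a = - A (fun i => χ ^ (a i).val) 1 := by
  have h1 := A_zero (F := F) (c := fun i => χ ^ (a i).val) (fun i => pow_val_ne_one hχ (ha i))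
    (prod_pow_val hχ univ a hs)
  have h2 : jac χ a = A (fun i => χ ^ (a i).val) 0 / ((Fintype.card F : ℂ) - 1) := rfl
  have h3 := card_sub_one_ne_zero (F := F)
  rw [h2, h1]
  field_simp

/-- A splitting into `ν + 1` zero-sum parts makes the Jacobi sum divisible by `q ^ ν`. -/
theorem jac_integral [NeZero m] [NeZero n] {χ : MulChar F ℂ} (hχ : orderOf χ = m)
    {a : Fin n → ZMod m} (ha : ∀ i, a i ≠ 0) (hs : ∑ i, a i = 0) {ν : ℕ}
    (P : Fin n → Fin (ν + 1)) (hP : Function.Surjective P)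
    (hPs : ∀ k, ∑ i with P i = k, a i = 0) :
    IsIntegral ℤ (jac χ a / (Fintype.card F : ℂ) ^ ν) := by
  obtain ⟨ψ, hψ⟩ := exists_addChar F
  have h1 := prod_gaussSum (F := F) (c := fun i => χ ^ (a i).val)
    (fun i => pow_val_ne_one hχ (ha i)) (prod_pow_val hχ univ a hs) hψ
  rw [← jac_eq hχ ha hs] at h1
  have h2 : ∏ i, gaussSum (χ ^ (a i).val) ψ =
      ∏ k : Fin (ν + 1), ((Fintype.card F : ℂ) *
        (- A (fun i : {i // P i = k} => χ ^ (a i).val) 1)) := by
    rw [← prod_fiberwise univ P]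
    apply prod_congr rfl
    intro k _
    have hne : Nonempty {i // P i = k} := by
      obtain ⟨i, hi⟩ := hP k
      exact ⟨⟨i, hi⟩⟩
    have h3 : ∏ i : {i // P i = k}, χ ^ (a i).val = 1 := by
      apply prod_pow_val hχ univ (fun i : {i // P i = k} => a i)
      have := hPs k
      rwa [← sum_subtype_eq_sum_filter, subtype_univ] at this
    have h4 := prod_gaussSum (F := F) (c := fun i : {i // P i = k} => χ ^ (a i).val)
      (fun i => pow_val_ne_one hχ (ha i)) h3 hψ
    rw [← h4, ← prod_subtype_eq_prod_filter, subtype_univ]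
  rw [h2, prod_mul_distrib, prod_const, card_univ, Fintype.card_fin] at h1
  have hq := card_ne_zero' (F := F)
  have h5 : jac χ a / (Fintype.card F : ℂ) ^ ν =
      ∏ k : Fin (ν + 1), (- A (fun i : {i // P i = k} => χ ^ (a i).val) 1) := by
    rw [div_eq_iff (pow_ne_zero _ hq)]
    apply mul_left_cancel₀ hq
    rw [← h1]
    ring
  rw [h5]
  apply IsIntegral.prod
  intro k _
  exact (isIntegral_A _ _).neg

end J

end Pool.Agent.Helper75.Zss
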