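import Mathlib

/-!
# Power sums and Teichmuller characters modulo a prime above `p`
-/

namespace Pool.Agent.Helper75.Zss

open Finset

section powers

variable {F : Type*} [Field F] [Fintype F]

theorem sum_pow_field {e : ℕ} (he : 0 < e) (he2 : e < 2 * (Fintype.card F - 1)) :
    ∑ x : F, x ^ e = if e = Fintype.card F - 1 then -1 else 0 := by
  classical
  have h1 : ∑ x : F, x ^ e = ∑ x : Fˣ, ((x : F) ^ e) := by
    let φ : Fˣ ↪ F := ⟨fun x ↦ x, Units.val_injective⟩
    have : univ.map φ = univ \ {0} := by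
      ext x
      simpa only [mem_map, mem_univ, Function.Embedding.coeFn_mk, true_and, mem_sdiff,
        mem_singleton, φ] using! isUnit_iff_ne_zero
    calc
      ∑ x : F, x ^ e = ∑ x ∈ univ \ {(0 : F)}, x ^ e := by
        rw [← sum_sdiff ({0} : Finset F).subset_univ, sum_singleton, zero_pow he.ne', add_zero]
      _ = ∑ x : Fˣ, ((x : F) ^ e) := by simp [φ, ← this, univ.sum_map φ]
  have h2 := FiniteField.sum_pow_units F e
  rw [h1]
  have h3 : ∑ x : Fˣ, ((x : F) ^ e) = if Fintype.card F - 1 ∣ e then -1 else 0 := by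
    rw [← h2]
  rw [h3]
  have h4 : (Fintype.card F - 1 ∣ e) ↔ e = Fintype.card F - 1 := by
    constructor
    · rintro ⟨k, hk⟩
      have h5 : (Fintype.card F - 1) * k < (Fintype.card F - 1) * 2 := by omega
      have h6 := Nat.lt_of_mul_lt_mul_left h5
      have h7 : k ≠ 0 := by
        rintro rfl
        omega
      have h8 : k = 1 := by omega
      rw [hk, h8, mul_one]
    · rintro rfl
      exact dvd_rfl
  simp only [h4]

theorem sum_pow_mul_one_sub {A B : ℕ} (hA : 0 < A) (hA' : A ≤ Fintype.card F - 1)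
    (hB : Fintype.card F - 1 ≤ A + B) (hAB : A + B < 2 * (Fintype.card F - 1)) :
    ∑ x : F, x ^ A * (1 - x) ^ B =
      - ((-1) ^ (Fintype.card F - 1 - A) * (B.choose (Fintype.card F - 1 - A) : F)) := by
  have h1 : ∀ x : F, x ^ A * (1 - x) ^ B =
      ∑ j ∈ range (B + 1), ((-1) ^ j * (B.choose j : F)) * x ^ (A + j) := by
    intro x
    have : (1 - x) ^ B = (-x + 1) ^ B := by ring
    rw [this, add_pow, mul_sum]
    apply sum_congr rfl
    intro j _
    rw [neg_pow, one_pow, pow_add]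
    ring
  rw [sum_congr rfl (fun x _ => h1 x), sum_comm]
  have h2 : ∀ j ∈ range (B + 1),
      ∑ x : F, ((-1) ^ j * (B.choose j : F)) * x ^ (A + j) =
      if j = Fintype.card F - 1 - A then - ((-1) ^ j * (B.choose j : F)) else 0 := by
    intro j hj
    rw [mem_range] at hj
    rw [← mul_sum, sum_pow_field (by omega) (by omega)]
    have h3 : (A + j = Fintype.card F - 1) ↔ j = Fintype.card F - 1 - A := by omega
    simp only [h3]
    split_ifs <;> ring
  rw [sum_congr rfl h2, sum_ite_eq', if_pos (by rw [mem_range]; omega)]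

end powers

section lucas

variable {p : ℕ} [hp : Fact p.Prime]

theorem not_dvd_choose {a c : ℕ} (hac : a ≤ c) (hc : c < p) : ¬ p ∣ c.choose a := by
  intro h
  have h1 : p ∣ c.factorial := by
    rw [← Nat.choose_mul_factorial_mul_factorial hac]
    exact Dvd.dvd.mul_right (Dvd.dvd.mul_right h _) _
  have := (hp.out.dvd_factorial).1 h1
  omega

/-- The repunit `1 + p + ... + p ^ (f - 1)`. -/
def rep (p f : ℕ) : ℕ := ∑ i ∈ range f, p ^ i

theorem rep_succ (p f : ℕ) : rep p (f + 1) = 1 + p * rep p f := by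
  unfold rep
  rw [sum_range_succ', mul_sum, pow_zero, add_comm]
  congr 1
  apply sum_congr rfl
  intro i _
  rw [pow_succ, mul_comm]

theorem rep_mul (p f : ℕ) (hp : 0 < p) : rep p f * (p - 1) + 1 = p ^ f := by
  induction f with
  | zero => simp [rep]
  | succ f ih =>
    obtain ⟨q, rfl⟩ : ∃ q, p = q + 1 := ⟨p - 1, by omega⟩
    rw [rep_succ, pow_succ, ← ih]
    simp only [Nat.add_sub_cancel]
    ring

theorem not_dvd_choose_rep (f : ℕ) {a c : ℕ} (hac : a ≤ c) (hc : c < p) :
    ¬ p ∣ (c * rep p f).choose (a * rep p f) := by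
  induction f with
  | zero =>
    simp only [rep, range_zero, sum_empty, mul_zero, Nat.choose_self]
    exact hp.out.not_dvd_one
  | succ f ih =>
    have h1 := Choose.choose_modEq_choose_mod_mul_choose_div_nat (n := c * rep p (f + 1))
      (k := a * rep p (f + 1)) (p := p)
    have hp0 : 0 < p := hp.out.pos
    have e : ∀ x, x < p → (x * rep p (f + 1)) % p = x ∧ (x * rep p (f + 1)) / p = x * rep p f := by
      intro x hx
      have : x * rep p (f + 1) = x + p * (x * rep p f) := by rw [rep_succ]; ring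
      rw [this]
      refine ⟨?_, ?_⟩
      · rw [Nat.add_mul_mod_self_left, Nat.mod_eq_of_lt hx]
      · rw [Nat.add_mul_div_left _ _ hp0, Nat.div_eq_of_lt hx, zero_add]
    rw [(e c hc).1, (e c hc).2, (e a (by omega)).1, (e a (by omega)).2] at h1
    intro h
    have h2 : p ∣ c.choose a * (c * rep p f).choose (a * rep p f) :=
      (h1.dvd_iff dvd_rfl).1 h
    rcases hp.out.dvd_mul.1 h2 with h3 | h3
    · exact not_dvd_choose hac hc h3
    · exact ih h3

end lucas

section prime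

/-- The ring of algebraic integers. -/
abbrev Alg : Type := integralClosure ℤ ℂ

theorem exists_maximal (p : ℕ) [hp : Fact p.Prime] :
    ∃ 𝔓 : Ideal Alg, 𝔓.IsMaximal ∧ (p : Alg) ∈ 𝔓 := by
  have h : Ideal.span {(p : Alg)} ≠ ⊤ := by
    intro h
    rw [Ideal.eq_top_iff_one, Ideal.mem_span_singleton] at h
    obtain ⟨r, hr⟩ := h
    have h1 : (1 : ℂ) = (p : ℂ) * (r : ℂ) := by
      have := congrArg (fun x : Alg => (x : ℂ)) hr
      simpa using this
    have hp0 : (p : ℂ) ≠ 0 := by exact_mod_cast hp.out.ne_zero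
    have h2 : (r : ℂ) = algebraMap ℚ ℂ (1 / p) := by
      rw [map_div₀, map_one, map_natCast]
      field_simp
      rw [mul_comm]
      exact h1.symm
    have h3 : IsIntegral ℤ (r : ℂ) := r.2
    rw [h2, isIntegral_algebraMap_iff (algebraMap ℚ ℂ).injective] at h3
    obtain ⟨z, hz⟩ := IsIntegrallyClosed.isIntegral_iff.1 h3
    have hp0' : (p : ℚ) ≠ 0 := by exact_mod_cast hp.out.ne_zero
    have h4 : (z : ℚ) * p = 1 := by
      have : (z : ℚ) = 1 / p := by simpa using hz
      rw [this]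
      field_simp
    have h5 : z * (p : ℤ) = 1 := by exact_mod_cast h4
    have h6 : (p : ℤ) ∣ 1 := ⟨z, by rw [mul_comm]; exact h5.symm⟩
    have h7 : p ∣ 1 := by exact_mod_cast h6
    exact hp.out.one_lt.ne' (Nat.dvd_one.1 h7)
  obtain ⟨𝔓, h1, h2⟩ := Ideal.exists_le_maximal _ h
  exact ⟨𝔓, h1, h2 (Ideal.mem_span_singleton_self _)⟩

variable {𝔓 : Ideal Alg}

theorem isAlgClosed_quot (h𝔓 : 𝔓.IsMaximal) :
    letI := Ideal.Quotient.field 𝔓
    IsAlgClosed (Alg ⧸ 𝔓) := by
  let _ := Ideal.Quotient.field 𝔓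
  apply IsAlgClosed.of_exists_root
  intro f hf hirr
  have hlift : f ∈ Polynomial.lifts (Ideal.Quotient.mk 𝔓) := by
    rw [Polynomial.lifts_iff_coeff_lifts]
    intro n
    exact Ideal.Quotient.mk_surjective _
  obtain ⟨g, hg1, hg2, hg3⟩ := Polynomial.lifts_and_degree_eq_and_monic hlift hf
  have hdeg : (g.map (algebraMap Alg ℂ)).degree ≠ 0 := by
    rw [hg3.degree_map, hg2]
    exact hirr.degree_pos.ne'
  obtain ⟨z, hz⟩ := IsAlgClosed.exists_root _ hdeg
  have hz1 : IsIntegral Alg z := ⟨g, hg3, by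
    rw [Polynomial.IsRoot.def, Polynomial.eval_map] at hz
    exact hz⟩
  have hz2 : IsIntegral ℤ z := isIntegral_trans (A := Alg) z hz1
  refine ⟨Ideal.Quotient.mk 𝔓 ⟨z, hz2⟩, ?_⟩
  rw [← hg1, Polynomial.eval_map, Polynomial.eval₂_hom]
  have : Polynomial.eval (⟨z, hz2⟩ : Alg) g = 0 := by
    apply FaithfulSMul.algebraMap_injective Alg ℂ
    rw [Polynomial.IsRoot.def, Polynomial.eval_map] at hz
    rw [map_zero, ← hz, ← Polynomial.eval₂_at_apply]
    rfl
  rw [this, map_zero]

variable {F : Type*} [Field F] [Fintype F]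

theorem exists_hom_aux {p : ℕ} [hp : Fact p.Prime] {F k : Type*} [Field F] [Finite F] [CharP F p]
    [Field k] [CharP k p] [IsAlgClosed k] : Nonempty (F →+* k) := by
  let _ : Algebra (ZMod p) F := ZMod.algebra F p
  let _ : Algebra (ZMod p) k := ZMod.algebra k p
  have : Algebra.IsAlgebraic (ZMod p) F := inferInstance
  exact ⟨(IsAlgClosed.lift (R := ZMod p) (S := F) (M := k)).toRingHom⟩

theorem exists_hom {p : ℕ} [hp : Fact p.Prime] [CharP F p] (h𝔓 : 𝔓.IsMaximal)
    (hp𝔓 : (p : Alg) ∈ 𝔓) : Nonempty (F →+* Alg ⧸ 𝔓) := by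
  let _ := Ideal.Quotient.field 𝔓
  have : CharP (Alg ⧸ 𝔓) p := by
    apply (CharP.charP_iff_prime_eq_zero hp.out).2
    have := Ideal.Quotient.eq_zero_iff_mem.2 hp𝔓
    simpa using this
  have : IsAlgClosed (Alg ⧸ 𝔓) := isAlgClosed_quot h𝔓
  exact exists_hom_aux (p := p)

/-- The Teichmuller character. -/
theorem exists_teich [DecidableEq F] (h𝔓 : 𝔓.IsMaximal) (φ : F →+* Alg ⧸ 𝔓) :
    ∃ ω : MulChar F Alg, ∀ x : F, Ideal.Quotient.mk 𝔓 (ω x) = φ x := by
  have hprime : 𝔓.IsPrime := h𝔓.isPrime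
  obtain ⟨g, hg⟩ := IsCyclic.exists_generator (α := Fˣ)
  have hn : 0 < Fintype.card F - 1 := by
    have := Fintype.one_lt_card (α := F)
    omega
  -- a primitive root of unity in `Alg`
  obtain ⟨z, hz⟩ : ∃ z : Alg, IsPrimitiveRoot z (Fintype.card F - 1) := by
    have h1 := Complex.isPrimitiveRoot_exp (Fintype.card F - 1) hn.ne'
    refine ⟨⟨_, h1.isIntegral hn⟩, ?_⟩
    exact IsPrimitiveRoot.of_map_of_injective (f := algebraMap Alg ℂ) h1
      (FaithfulSMul.algebraMap_injective Alg ℂ)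
  have hprod := Polynomial.X_pow_sub_one_eq_prod hn hz
  have hgn : (g : F) ^ (Fintype.card F - 1) = 1 :=
    FiniteField.pow_card_sub_one_eq_one (g : F) g.ne_zero
  have h0 : ∏ ζ ∈ Polynomial.nthRootsFinset (Fintype.card F - 1) (1 : Alg),
      (φ g - Ideal.Quotient.mk 𝔓 ζ) = 0 := by
    have h1 := congrArg (Polynomial.eval₂ (Ideal.Quotient.mk 𝔓) (φ g)) hprod
    rw [Polynomial.eval₂_finsetProd] at h1
    simp only [Polynomial.eval₂_sub, Polynomial.eval₂_pow, Polynomial.eval₂_X,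
      Polynomial.eval₂_one, Polynomial.eval₂_C] at h1
    rw [← h1, ← map_pow, hgn, map_one, sub_self]
  rw [prod_eq_zero_iff] at h0
  obtain ⟨ζ, hζ, hζg⟩ := h0
  rw [Polynomial.mem_nthRootsFinset hn] at hζ
  have hζg' : Ideal.Quotient.mk 𝔓 ζ = φ g := (sub_eq_zero.1 hζg).symm
  let ζu : Algˣ := Units.ofPowEqOne ζ (Fintype.card F - 1) hζ hn.ne'
  have hζu : (ζu : Alg) = ζ := rfl
  have hmem : ζu ∈ rootsOfUnity (Fintype.card Fˣ) Alg := by
    rw [mem_rootsOfUnity, Fintype.card_units]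
    ext
    rw [Units.val_pow_eq_pow_val, hζu, hζ, Units.val_one]
  refine ⟨MulChar.ofRootOfUnity hmem hg, ?_⟩
  intro x
  by_cases hx : x = 0
  · rw [hx, MulChar.map_zero, map_zero, map_zero]
  · obtain ⟨k, hk⟩ : ∃ k : ℕ, g ^ k = Units.mk0 x hx := by
      have := hg (Units.mk0 x hx)
      rw [← mem_powers_iff_mem_zpowers] at this
      exact this
    have hk' : x = (g : F) ^ k := by
      rw [← Units.val_pow_eq_pow_val, hk, Units.val_mk0]
    rw [hk', map_pow, MulChar.ofRootOfUnity_spec, hζu, map_pow, hζg', map_pow]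

end prime

end Pool.Agent.Helper75.Zss
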