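import Mathlib

/-!
# The group generated by the pair relations
-/

namespace Pool.Agent.Helper75.Poly

open Finset

/-- The indicator function of `x`. -/
def ind {m : ℕ} (x : ZMod m) : ZMod m → ℤ := Pi.single x 1

/-- The pair relations: `x + y - z - w` for nonzero residues with
`⟨tx⟩ + ⟨ty⟩ = ⟨tz⟩ + ⟨tw⟩` for all units `t`. -/
def pairs (m : ℕ) : Set (ZMod m → ℤ) :=
  {v | ∃ x y z w : ZMod m, x ≠ 0 ∧ y ≠ 0 ∧ z ≠ 0 ∧ w ≠ 0 ∧
    (∀ t : ZMod m, IsUnit t → (t * x).val + (t * y).val = (t * z).val + (t * w).val) ∧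
    v = ind x + ind y - ind z - ind w}

/-- A quadruple with a coefficient. -/
structure Quad where
  c : ℤ
  x : ℕ
  y : ℕ
  z : ℕ
  w : ℕ

def dl (i j : ℕ) : ℤ := if Nat.beq i j then 1 else 0

def Quad.val (q : Quad) (i : ℕ) : ℤ := q.c * (dl i q.x + dl i q.y - dl i q.z - dl i q.w)

def Quad.ok (m : ℕ) (q : Quad) : Bool :=
  decide (0 < q.x ∧ q.x < m ∧ 0 < q.y ∧ q.y < m ∧ 0 < q.z ∧ q.z < m ∧ 0 < q.w ∧ q.w < m) &&
  (List.range m).all (fun t => !decide (t.Coprime m) ||
    decide (t * q.x % m + t * q.y % m = t * q.z % m + t * q.w % m))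

/-- Certificates: every residue is a combination of the residues in `B` up to pair relations. -/
structure LinkData where
  B : List ℕ
  rows : List (List ℤ × List Quad)
  G : List (List (ℤ × ℕ))
  D : ℤ

def LinkData.row (A : LinkData) (y : ℕ) : List ℤ × List Quad := A.rows.getD (y - 1) ([], [])

def LinkData.cf (A : LinkData) (y j : ℕ) : ℤ := (A.row y).1.getD j 0

def LinkData.ok (A : LinkData) (m : ℕ) : Bool :=
  decide (0 < A.D) &&
  A.B.all (fun b => decide (b < m)) &&
  (List.range m).all (fun y => decide (y = 0) ||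
    ((A.row y).2.all (fun q => q.ok m) &&
     (List.range m).all (fun i => decide (dl i y = ((List.range A.B.length).map
        (fun j => A.cf y j * dl i (A.B.getD j 0))).sum + ((A.row y).2.map (fun q => q.val i)).sum)) &&
     (List.range A.B.length).all (fun j => decide (A.D * A.cf y j =
        ((A.G.getD j []).map (fun p => p.1 * ((p.2 * y % m : ℕ) : ℤ))).sum)))) &&
  A.G.all (fun g => g.all (fun p => decide (p.2.Coprime m)))

variable {m : ℕ}

theorem ind_apply (x y : ZMod m) : ind x y = if y = x then 1 else 0 := by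
  unfold ind
  rw [Pi.single_apply]

theorem sum_list_map_apply {α : Type} (L : List α) (f : α → ZMod m → ℤ) (y : ZMod m) :
    (L.map f).sum y = (L.map (fun a => f a y)).sum := by
  induction L with
  | nil => rfl
  | cons a L ih => rw [List.map_cons, List.sum_cons, Pi.add_apply, ih, List.map_cons, List.sum_cons]

variable [NeZero m]

theorem ind_natCast {n : ℕ} (hn : n < m) (y : ZMod m) : ind (n : ZMod m) y = dl y.val n := by
  rw [ind_apply]
  unfold dl
  by_cases h : y = (n : ZMod m)
  · rw [if_pos h, h, ZMod.val_natCast, Nat.mod_eq_of_lt hn, if_pos (Nat.beq_refl n)]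
  · rw [if_neg h, if_neg]
    intro h2
    apply h
    rw [← Nat.eq_of_beq_eq_true h2, ZMod.natCast_val, ZMod.cast_id]

theorem quad_mem {q : Quad} (hq : q.ok m = true) :
    ind (q.x : ZMod m) + ind (q.y : ZMod m) - ind (q.z : ZMod m) - ind (q.w : ZMod m) ∈
      pairs m := by
  unfold Quad.ok at hq
  simp only [Bool.and_eq_true, decide_eq_true_eq, List.all_eq_true, List.mem_range,
    Bool.or_eq_true, Bool.not_eq_true', decide_eq_false_iff_not] at hq
  obtain ⟨⟨x0, x1, y0, y1, z0, z1, w0, w1⟩, ht⟩ := hq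
  have hne : ∀ n : ℕ, 0 < n → n < m → (n : ZMod m) ≠ 0 := by
    intro n h0 h1 h
    rw [ZMod.natCast_eq_zero_iff] at h
    exact absurd (Nat.le_of_dvd h0 h) (by omega)
  refine ⟨q.x, q.y, q.z, q.w, hne _ x0 x1, hne _ y0 y1, hne _ z0 z1, hne _ w0 w1, ?_, rfl⟩
  intro t htu
  obtain ⟨u, rfl⟩ := htu
  have h1 := ht (u : ZMod m).val (ZMod.val_lt _)
  have h2 : (u : ZMod m).val.Coprime m := ZMod.val_coe_unit_coprime u
  rcases h1 with h1 | h1
  · exact absurd h2 h1
  · have h3 : ∀ n : ℕ, ((u : ZMod m) * (n : ZMod m)).val = (u : ZMod m).val * n % m := by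
      intro n
      rw [ZMod.val_mul, ZMod.val_natCast, Nat.mul_mod_mod]
    rw [h3, h3, h3, h3]
    exact h1

/-- The relation of the residue `y`. -/
theorem row_mem {A : LinkData} (hA : A.ok m = true) {y : ℕ} (hy0 : y ≠ 0) (hy : y < m) :
    ind (y : ZMod m) - ((List.range A.B.length).map
      (fun j => A.cf y j • ind ((A.B.getD j 0 : ℕ) : ZMod m))).sum ∈
      AddSubgroup.closure (pairs m) := by
  unfold LinkData.ok at hA
  simp only [Bool.and_eq_true, decide_eq_true_eq, List.all_eq_true, List.mem_range,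
    Bool.or_eq_true] at hA
  obtain ⟨⟨⟨hD, hB⟩, hrow⟩, hG⟩ := hA
  rcases hrow y hy with h | h
  · exact absurd h hy0
  obtain ⟨⟨hq, hi⟩, -⟩ := h
  have hm0 : 0 < m := Nat.pos_of_ne_zero (NeZero.ne m)
  have hB' : ∀ j, A.B.getD j 0 < m := by
    intro j
    rw [List.getD_eq_getElem?_getD]
    cases h : A.B[j]? with
    | none => exact hm0
    | some b => exact hB b (List.mem_of_getElem? h)
  have h1 : ind (y : ZMod m) - ((List.range A.B.length).map
      (fun j => A.cf y j • ind ((A.B.getD j 0 : ℕ) : ZMod m))).sum =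
      ((A.row y).2.map (fun q => q.c • (ind (q.x : ZMod m) + ind (q.y : ZMod m) -
        ind (q.z : ZMod m) - ind (q.w : ZMod m)))).sum := by
    funext s
    rw [Pi.sub_apply, sum_list_map_apply, sum_list_map_apply, ind_natCast hy]
    have h2 := hi s.val (ZMod.val_lt s)
    rw [h2]
    have h3 : ∀ j, (A.cf y j • ind ((A.B.getD j 0 : ℕ) : ZMod m)) s =
        A.cf y j * dl s.val (A.B.getD j 0) := by
      intro j
      rw [Pi.smul_apply, smul_eq_mul, ind_natCast (hB' j)]
    simp only [h3]
    rw [add_sub_cancel_left]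
    apply congrArg
    apply List.map_congr_left
    intro q hqr
    have h4 := hq q hqr
    unfold Quad.ok at h4
    simp only [Bool.and_eq_true, decide_eq_true_eq] at h4
    obtain ⟨⟨x0, x1, y0, y1, z0, z1, w0, w1⟩, -⟩ := h4
    rw [Pi.smul_apply, smul_eq_mul, Pi.sub_apply, Pi.sub_apply, Pi.add_apply, ind_natCast x1,
      ind_natCast y1, ind_natCast z1, ind_natCast w1]
    rfl
  rw [h1]
  apply AddSubgroup.list_sum_mem
  intro v hv
  obtain ⟨q, hqr, rfl⟩ := List.mem_map.1 hv
  exact AddSubgroup.zsmul_mem _ (AddSubgroup.subset_closure (quad_mem (hq q hqr))) _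

/-- Under the certificate, the functions with vanishing residue sums are combinations of pair
relations. -/
theorem mem_closure {A : LinkData} (hA : A.ok m = true) {v : ZMod m → ℤ} (h0 : v 0 = 0)
    (ht : ∀ t : ZMod m, IsUnit t → ∑ y, v y * ((t * y).val : ℤ) = 0) :
    v ∈ AddSubgroup.closure (pairs m) := by
  have hA' := hA
  unfold LinkData.ok at hA'
  simp only [Bool.and_eq_true, decide_eq_true_eq, List.all_eq_true, List.mem_range,
    Bool.or_eq_true] at hA'
  obtain ⟨⟨⟨hD, hB⟩, hrow⟩, hG⟩ := hA'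
  -- the coefficients of the elements of `B` vanish
  have hcoef : ∀ j < A.B.length, ∑ y : ZMod m, v y * A.cf y.val j = 0 := by
    intro j hj
    apply mul_left_cancel₀ (ne_of_gt hD)
    rw [mul_zero, mul_sum]
    have h1 : ∀ y : ZMod m, A.D * (v y * A.cf y.val j) =
        v y * ((A.G.getD j []).map (fun p => p.1 * ((p.2 * y.val % m : ℕ) : ℤ))).sum := by
      intro y
      by_cases hy : y = 0
      · rw [hy, h0, zero_mul, zero_mul, mul_zero]
      · have hy' : y.val ≠ 0 := fun h => hy ((ZMod.val_eq_zero y).1 h)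
        rcases hrow y.val (ZMod.val_lt y) with h | h
        · exact absurd h hy'
        · rw [← h.2 j hj]
          ring
    rw [sum_congr rfl (fun y _ => h1 y)]
    have hGj : ∀ p ∈ A.G.getD j [], p.2.Coprime m := by
      intro p hp
      rw [List.getD_eq_getElem?_getD] at hp
      cases h : A.G[j]? with
      | none =>
        rw [h] at hp
        simp at hp
      | some g =>
        rw [h] at hp
        exact hG g (List.mem_of_getElem? h) p hp
    generalize A.G.getD j [] = g at hGj
    induction g with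
    | nil => simp
    | cons p g ih =>
      have h2 : ∀ y : ZMod m, v y * ((p :: g).map (fun p => p.1 * ((p.2 * y.val % m : ℕ) : ℤ))).sum
          = p.1 * (v y * (((p.2 : ZMod m) * y).val : ℤ)) +
            v y * (g.map (fun p => p.1 * ((p.2 * y.val % m : ℕ) : ℤ))).sum := by
        intro y
        rw [List.map_cons, List.sum_cons]
        have h3 : ((p.2 : ZMod m) * y).val = p.2 * y.val % m := by
          rw [ZMod.val_mul, ZMod.val_natCast, Nat.mod_mul_mod]
        rw [h3]
        ring
      rw [sum_congr rfl (fun y _ => h2 y), sum_add_distrib, ← mul_sum,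
        ih (fun p hp => hGj p (List.mem_cons_of_mem _ hp)), add_zero,
        ht _ ((ZMod.isUnit_iff_coprime p.2 m).2 (hGj p List.mem_cons_self)), mul_zero]
  -- split `v`
  have hv : v = ∑ y : ZMod m, v y • ind y := by
    funext s
    rw [Finset.sum_apply]
    simp [ind_apply]
  have hsplit : v = ∑ y : ZMod m, v y • (ind y - ((List.range A.B.length).map
      (fun j => A.cf y.val j • ind ((A.B.getD j 0 : ℕ) : ZMod m))).sum) := by
    have h1 : ∑ y : ZMod m, v y • ((List.range A.B.length).map
        (fun j => A.cf y.val j • ind ((A.B.getD j 0 : ℕ) : ZMod m))).sum = 0 := by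
      have h2 : ∀ y : ZMod m, ((List.range A.B.length).map
          (fun j => A.cf y.val j • ind ((A.B.getD j 0 : ℕ) : ZMod m))).sum =
          ∑ j ∈ range A.B.length, A.cf y.val j • ind ((A.B.getD j 0 : ℕ) : ZMod m) := by
        intro y
        rfl
      simp only [h2]
      simp only [smul_sum, smul_smul]
      rw [sum_comm]
      apply sum_eq_zero
      intro j hj
      rw [← sum_smul, hcoef j (mem_range.1 hj), zero_smul]
    simp only [smul_sub, sum_sub_distrib]
    rw [h1, sub_zero]
    exact hv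
  rw [hsplit]
  apply AddSubgroup.sum_mem
  intro y _
  by_cases hy : y = 0
  · rw [hy, h0, zero_smul]
    exact AddSubgroup.zero_mem _
  · apply AddSubgroup.zsmul_mem
    have h1 := row_mem hA (y := y.val) (fun h => hy ((ZMod.val_eq_zero y).1 h)) (ZMod.val_lt y)
    rwa [ZMod.natCast_val, ZMod.cast_id] at h1

theorem sum_ind_mul {N : ℕ} (a : Fin N → ZMod m) (g : ZMod m → ℤ) :
    ∑ y, (∑ i, ind (a i)) y * g y = ∑ i, g (a i) := by
  have h1 : ∀ y, (∑ i, ind (a i)) y * g y = ∑ i, (if y = a i then g y else 0) := by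
    intro y
    rw [Finset.sum_apply, sum_mul]
    apply sum_congr rfl
    intro i _
    rw [ind_apply]
    split_ifs <;> simp
  rw [sum_congr rfl (fun y _ => h1 y), sum_comm]
  apply sum_congr rfl
  intro i _
  simp

/-- Functions with the same residue sums are linked. -/
theorem linked_of_same {A : LinkData} (hA : A.ok m = true) {N : ℕ} {a b : Fin N → ZMod m}
    (ha : ∀ i, a i ≠ 0) (hb : ∀ i, b i ≠ 0)
    (h : ∀ t : ZMod m, IsUnit t → ∑ i, (t * a i).val = ∑ i, (t * b i).val) :
    ∑ i, ind (a i) - ∑ i, ind (b i) ∈ AddSubgroup.closure (pairs m) := by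
  apply mem_closure hA
  · rw [Pi.sub_apply, Finset.sum_apply, Finset.sum_apply]
    have h1 : ∀ c : Fin N → ZMod m, (∀ i, c i ≠ 0) → ∑ i, ind (c i) 0 = 0 := by
      intro c hc
      apply sum_eq_zero
      intro i _
      rw [ind_apply, if_neg (fun h => hc i h.symm)]
    rw [h1 a ha, h1 b hb, sub_zero]
  · intro t ht
    have h1 : ∀ y : ZMod m, (∑ i, ind (a i) - ∑ i, ind (b i)) y * ((t * y).val : ℤ) =
        (∑ i, ind (a i)) y * ((t * y).val : ℤ) - (∑ i, ind (b i)) y * ((t * y).val : ℤ) := by
      intro y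
      rw [Pi.sub_apply, sub_mul]
    rw [sum_congr rfl (fun y _ => h1 y), sum_sub_distrib,
      sum_ind_mul a (fun y => ((t * y).val : ℤ)), sum_ind_mul b (fun y => ((t * y).val : ℤ)),
      sub_eq_zero]
    exact_mod_cast h t ht

/-- Linked functions have the same residue sums. -/
theorem same_of_linked {N : ℕ} {a b : Fin N → ZMod m}
    (h : ∑ i, ind (a i) - ∑ i, ind (b i) ∈ AddSubgroup.closure (pairs m)) {t : ZMod m}
    (ht : IsUnit t) : ∑ i, (t * a i).val = ∑ i, (t * b i).val := by
  have h1 : ∀ v ∈ AddSubgroup.closure (pairs m), ∑ y, v y * ((t * y).val : ℤ) = 0 := by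
    intro v hv
    induction hv using AddSubgroup.closure_induction with
    | mem v hv =>
      obtain ⟨x, y, z, w, -, -, -, -, hval, rfl⟩ := hv
      have h2 := hval t ht
      have h3 : ∀ x : ZMod m, ∑ y, ind x y * ((t * y).val : ℤ) = ((t * x).val : ℤ) := by
        intro x
        simp [ind_apply]
      simp only [Pi.add_apply, Pi.sub_apply, sub_mul, add_mul, sum_sub_distrib, sum_add_distrib, h3]
      have h4 : ((t * x).val : ℤ) + ((t * y).val : ℤ) = ((t * z).val : ℤ) + ((t * w).val : ℤ) := by
        exact_mod_cast h2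
      linarith
    | zero => simp
    | add v w _ _ hv hw =>
      simp only [Pi.add_apply, add_mul, sum_add_distrib, hv, hw, add_zero]
    | neg v _ hv =>
      simp only [Pi.neg_apply, neg_mul, sum_neg_distrib, hv, neg_zero]
  have h2 := h1 _ h
  have h3 : ∀ y : ZMod m, (∑ i, ind (a i) - ∑ i, ind (b i)) y * ((t * y).val : ℤ) =
      (∑ i, ind (a i)) y * ((t * y).val : ℤ) - (∑ i, ind (b i)) y * ((t * y).val : ℤ) := by
    intro y
    rw [Pi.sub_apply, sub_mul]
  rw [sum_congr rfl (fun y _ => h3 y), sum_sub_distrib,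
    sum_ind_mul a (fun y => ((t * y).val : ℤ)), sum_ind_mul b (fun y => ((t * y).val : ℤ)),
    sub_eq_zero] at h2
  exact_mod_cast h2

end Pool.Agent.Helper75.Poly
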