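import Pool.Agent.Helper75.Zss.Link

/-!
# The pair relations generate all relations for small degrees: certificates
-/

namespace Pool.Agent.Helper75.Poly

def l2 : LinkData where
B := [1]
rows := [([.ofNat 1], [])]
G := [[(.ofNat 1, 1)]]
D := .ofNat 1

theorem l2_ok : l2.ok 2 = true := by decide +kernel

def l3 : LinkData where
B := [1, 2]
rows := [([.ofNat 1, .ofNat 0], []), ([.ofNat 0, .ofNat 1], [])]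
G := [[(.negSucc 0, 1), (.ofNat 2, 2)], [(.ofNat 2, 1), (.negSucc 0, 2)]]
D := .ofNat 3

theorem l3_ok : l3.ok 3 = true := by decide +kernel

def l4 : LinkData where
B := [1, 2]
rows := [([.ofNat 1, .ofNat 0], []), ([.ofNat 0, .ofNat 1], []), ([.negSucc 0, .ofNat 2],
    [⟨.ofNat 1, 1, 3, 2, 2⟩])]
G := [[(.negSucc 1, 1), (.ofNat 2, 3)], [(.ofNat 3, 1), (.negSucc 0, 3)]]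
D := .ofNat 4

theorem l4_ok : l4.ok 4 = true := by decide +kernel

def l5 : LinkData where
B := [1, 2, 3]
rows := [([.ofNat 1, .ofNat 0, .ofNat 0], []), ([.ofNat 0, .ofNat 1, .ofNat 0], []), ([.ofNat
    0, .ofNat 0, .ofNat 1], []), ([.negSucc 0, .ofNat 1, .ofNat 1], [⟨.ofNat 1, 1, 4, 2, 3⟩])]
G := [[(.negSucc 0, 1), (.negSucc 0, 2), (.ofNat 2, 4)], [(.ofNat 2, 2), (.negSucc 0, 4)],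
    [(.ofNat 2, 1), (.negSucc 0, 2)]]
D := .ofNat 5

theorem l5_ok : l5.ok 5 = true := by decide +kernel

def l6 : LinkData where
B := [1, 2]
rows := [([.ofNat 1, .ofNat 0], []), ([.ofNat 0, .ofNat 1], []), ([.negSucc 0, .ofNat 2],
    [⟨.ofNat 1, 1, 3, 2, 2⟩]), ([.negSucc 1, .ofNat 3], [⟨.ofNat 2, 1, 3, 2, 2⟩, ⟨.ofNat 1, 2,
    5, 3, 4⟩, ⟨.negSucc 0, 3, 5, 4, 4⟩]), ([.negSucc 2, .ofNat 4], [⟨.ofNat 3, 1, 3, 2, 2⟩,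
    ⟨.ofNat 2, 2, 5, 3, 4⟩, ⟨.negSucc 0, 3, 5, 4, 4⟩])]
G := [[(.negSucc 3, 1), (.ofNat 2, 5)], [(.ofNat 5, 1), (.negSucc 0, 5)]]
D := .ofNat 6

theorem l6_ok : l6.ok 6 = true := by decide +kernel

def l7 : LinkData where
B := [1, 2, 3, 4]
rows := [([.ofNat 1, .ofNat 0, .ofNat 0, .ofNat 0], []), ([.ofNat 0, .ofNat 1, .ofNat 0, .ofNat
    0], []), ([.ofNat 0, .ofNat 0, .ofNat 1, .ofNat 0], []), ([.ofNat 0, .ofNat 0, .ofNat 0,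
    .ofNat 1], []), ([.ofNat 0, .negSucc 0, .ofNat 1, .ofNat 1], [⟨.ofNat 1, 1, 6, 3, 4⟩,
    ⟨.negSucc 0, 1, 6, 2, 5⟩]), ([.negSucc 0, .ofNat 0, .ofNat 1, .ofNat 1], [⟨.ofNat 1, 1, 6,
    3, 4⟩])]
G := [[(.negSucc 0, 2), (.negSucc 0, 3), (.ofNat 2, 6)], [(.negSucc 1, 1), (.ofNat 1, 2),
    (.ofNat 2, 3), (.negSucc 0, 6)], [(.ofNat 1, 1), (.ofNat 1, 2), (.negSucc 0, 3)], [(.ofNat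
    2, 1), (.negSucc 0, 2)]]
D := .ofNat 7

theorem l7_ok : l7.ok 7 = true := by decide +kernel

def l8 : LinkData where
B := [1, 2, 3]
rows := [([.ofNat 1, .ofNat 0, .ofNat 0], []), ([.ofNat 0, .ofNat 1, .ofNat 0], []), ([.ofNat
    0, .ofNat 0, .ofNat 1], []), ([.negSucc 0, .ofNat 1, .ofNat 1], [⟨.ofNat 1, 1, 4, 2, 3⟩]),
    ([.negSucc 1, .ofNat 2, .ofNat 1], [⟨.ofNat 2, 1, 4, 2, 3⟩, ⟨.ofNat 1, 3, 7, 4, 6⟩,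
    ⟨.negSucc 0, 4, 7, 5, 6⟩]), ([.negSucc 1, .ofNat 1, .ofNat 2], [⟨.ofNat 2, 1, 4, 2, 3⟩,
    ⟨.ofNat 1, 2, 7, 4, 5⟩, ⟨.negSucc 0, 4, 7, 5, 6⟩]), ([.negSucc 2, .ofNat 2, .ofNat 2],
    [⟨.ofNat 3, 1, 4, 2, 3⟩, ⟨.ofNat 1, 2, 7, 4, 5⟩, ⟨.ofNat 1, 3, 7, 4, 6⟩, ⟨.negSucc 0, 4, 7,
    5, 6⟩])]
G := [[(.negSucc 2, 1), (.negSucc 0, 3), (.ofNat 2, 7)], [(.ofNat 1, 1), (.ofNat 2, 3),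
    (.negSucc 0, 7)], [(.ofNat 3, 1), (.negSucc 0, 3)]]
D := .ofNat 8

theorem l8_ok : l8.ok 8 = true := by decide +kernel

def l9 : LinkData where
B := [1, 2, 3, 5]
rows := [([.ofNat 1, .ofNat 0, .ofNat 0, .ofNat 0], []), ([.ofNat 0, .ofNat 1, .ofNat 0, .ofNat
    0], []), ([.ofNat 0, .ofNat 0, .ofNat 1, .ofNat 0], []), ([.negSucc 0, .ofNat 1, .ofNat 1,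
    .ofNat 0], [⟨.ofNat 1, 1, 4, 2, 3⟩]), ([.ofNat 0, .ofNat 0, .ofNat 0, .ofNat 1], []),
    ([.negSucc 0, .ofNat 1, .ofNat 0, .ofNat 1], [⟨.ofNat 1, 1, 4, 2, 3⟩, ⟨.ofNat 1, 3, 8, 4,
    7⟩, ⟨.negSucc 0, 5, 8, 6, 7⟩]), ([.negSucc 0, .ofNat 0, .ofNat 1, .ofNat 1], [⟨.ofNat 1, 1,
    4, 2, 3⟩, ⟨.ofNat 1, 2, 8, 4, 6⟩, ⟨.negSucc 0, 5, 8, 6, 7⟩]), ([.negSucc 1, .ofNat 1,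
    .ofNat 1, .ofNat 1], [⟨.ofNat 2, 1, 4, 2, 3⟩, ⟨.ofNat 1, 2, 8, 4, 6⟩, ⟨.ofNat 1, 3, 8, 4,
    7⟩, ⟨.negSucc 0, 5, 8, 6, 7⟩])]
G := [[(.negSucc 0, 1), (.negSucc 0, 2), (.negSucc 0, 4), (.ofNat 2, 8)], [(.ofNat 2, 4),
    (.negSucc 0, 8)], [(.ofNat 2, 2), (.negSucc 0, 4)], [(.ofNat 2, 1), (.negSucc 0, 2)]]
D := .ofNat 9

theorem l9_ok : l9.ok 9 = true := by decide +kernel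

def l10 : LinkData where
B := [1, 2, 4]
rows := [([.ofNat 1, .ofNat 0, .ofNat 0], []), ([.ofNat 0, .ofNat 1, .ofNat 0], []), ([.negSucc
    0, .ofNat 2, .ofNat 0], [⟨.ofNat 1, 1, 3, 2, 2⟩]), ([.ofNat 0, .ofNat 0, .ofNat 1], []),
    ([.negSucc 0, .ofNat 1, .ofNat 1], [⟨.ofNat 1, 1, 3, 2, 2⟩, ⟨.ofNat 1, 2, 6, 3, 5⟩,
    ⟨.negSucc 0, 4, 8, 5, 7⟩, ⟨.ofNat 1, 5, 9, 6, 8⟩, ⟨.negSucc 0, 7, 9, 8, 8⟩]), ([.negSucc 1,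
    .ofNat 2, .ofNat 1], [⟨.ofNat 2, 1, 3, 2, 2⟩, ⟨.ofNat 2, 2, 6, 3, 5⟩, ⟨.negSucc 0, 4, 8, 5,
    7⟩, ⟨.ofNat 1, 5, 9, 6, 8⟩, ⟨.negSucc 0, 7, 9, 8, 8⟩]), ([.negSucc 0, .ofNat 0, .ofNat 2],
    [⟨.ofNat 1, 1, 3, 2, 2⟩, ⟨.ofNat 2, 2, 6, 3, 5⟩, ⟨.ofNat 1, 3, 9, 6, 6⟩, ⟨.negSucc 1, 4, 8,
    5, 7⟩, ⟨.negSucc 0, 7, 9, 8, 8⟩]), ([.negSucc 1, .ofNat 1, .ofNat 2], [⟨.ofNat 2, 1, 3, 2,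
    2⟩, ⟨.ofNat 3, 2, 6, 3, 5⟩, ⟨.ofNat 1, 3, 9, 6, 6⟩, ⟨.negSucc 1, 4, 8, 5, 7⟩, ⟨.ofNat 1, 5,
    9, 6, 8⟩, ⟨.negSucc 1, 7, 9, 8, 8⟩]), ([.negSucc 2, .ofNat 2, .ofNat 2], [⟨.ofNat 3, 1, 3,
    2, 2⟩, ⟨.ofNat 4, 2, 6, 3, 5⟩, ⟨.ofNat 1, 3, 9, 6, 6⟩, ⟨.negSucc 1, 4, 8, 5, 7⟩, ⟨.ofNat 2,
    5, 9, 6, 8⟩, ⟨.negSucc 1, 7, 9, 8, 8⟩])]
G := [[(.negSucc 1, 1), (.negSucc 1, 3), (.ofNat 2, 9)], [(.ofNat 3, 3), (.negSucc 0, 9)],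
    [(.ofNat 3, 1), (.negSucc 0, 3)]]
D := .ofNat 10

theorem l10_ok : l10.ok 10 = true := by decide +kernel

def l12 : LinkData where
B := [1, 2, 3]
rows := [([.ofNat 1, .ofNat 0, .ofNat 0], []), ([.ofNat 0, .ofNat 1, .ofNat 0], []), ([.ofNat
    0, .ofNat 0, .ofNat 1], []), ([.negSucc 0, .ofNat 1, .ofNat 1], [⟨.ofNat 1, 1, 4, 2, 3⟩]),
    ([.negSucc 0, .ofNat 0, .ofNat 2], [⟨.ofNat 1, 1, 4, 2, 3⟩, ⟨.ofNat 1, 2, 9, 4, 7⟩,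
    ⟨.negSucc 0, 3, 10, 5, 8⟩, ⟨.ofNat 1, 7, 11, 9, 9⟩, ⟨.negSucc 0, 8, 11, 9, 10⟩]),
    ([.negSucc 1, .ofNat 1, .ofNat 2], [⟨.ofNat 2, 1, 4, 2, 3⟩, ⟨.ofNat 1, 2, 9, 4, 7⟩,
    ⟨.negSucc 0, 4, 11, 6, 9⟩, ⟨.ofNat 1, 7, 11, 9, 9⟩]), ([.negSucc 2, .ofNat 2, .ofNat 2],
    [⟨.ofNat 3, 1, 4, 2, 3⟩, ⟨.ofNat 1, 2, 9, 4, 7⟩, ⟨.ofNat 1, 3, 10, 5, 8⟩, ⟨.negSucc 1, 4,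
    11, 6, 9⟩, ⟨.ofNat 1, 5, 11, 6, 10⟩, ⟨.negSucc 0, 6, 11, 7, 10⟩, ⟨.ofNat 1, 7, 11, 9, 9⟩,
    ⟨.ofNat 1, 8, 11, 9, 10⟩]), ([.negSucc 2, .ofNat 1, .ofNat 3], [⟨.ofNat 3, 1, 4, 2, 3⟩,
    ⟨.ofNat 2, 2, 9, 4, 7⟩, ⟨.negSucc 0, 4, 11, 6, 9⟩, ⟨.negSucc 0, 6, 11, 7, 10⟩, ⟨.ofNat 1,
    7, 11, 9, 9⟩, ⟨.ofNat 1, 8, 11, 9, 10⟩]), ([.negSucc 3, .ofNat 2, .ofNat 3], [⟨.ofNat 4, 1,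
    4, 2, 3⟩, ⟨.ofNat 2, 2, 9, 4, 7⟩, ⟨.ofNat 1, 3, 10, 5, 8⟩, ⟨.negSucc 1, 4, 11, 6, 9⟩,
    ⟨.ofNat 1, 5, 11, 6, 10⟩, ⟨.negSucc 0, 6, 11, 7, 10⟩, ⟨.ofNat 1, 7, 11, 9, 9⟩, ⟨.ofNat 1,
    8, 11, 9, 10⟩]), ([.negSucc 3, .ofNat 1, .ofNat 4], [⟨.ofNat 4, 1, 4, 2, 3⟩, ⟨.ofNat 3, 2,
    9, 4, 7⟩, ⟨.negSucc 0, 4, 11, 6, 9⟩, ⟨.negSucc 0, 6, 11, 7, 10⟩, ⟨.ofNat 2, 7, 11, 9, 9⟩]),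
    ([.negSucc 4, .ofNat 2, .ofNat 4], [⟨.ofNat 5, 1, 4, 2, 3⟩, ⟨.ofNat 3, 2, 9, 4, 7⟩, ⟨.ofNat
    1, 3, 10, 5, 8⟩, ⟨.negSucc 1, 4, 11, 6, 9⟩, ⟨.ofNat 1, 5, 11, 6, 10⟩, ⟨.negSucc 0, 6, 11,
    7, 10⟩, ⟨.ofNat 2, 7, 11, 9, 9⟩, ⟨.ofNat 1, 8, 11, 9, 10⟩])]
G := [[(.negSucc 4, 1), (.negSucc 0, 5), (.ofNat 2, 11)], [(.ofNat 1, 1), (.ofNat 2, 5),
    (.negSucc 0, 11)], [(.ofNat 5, 1), (.negSucc 0, 5)]]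
D := .ofNat 12

theorem l12_ok : l12.ok 12 = true := by decide +kernel

def l14 : LinkData where
B := [1, 2, 3, 5]
rows := [([.ofNat 1, .ofNat 0, .ofNat 0, .ofNat 0], []), ([.ofNat 0, .ofNat 1, .ofNat 0, .ofNat
    0], []), ([.ofNat 0, .ofNat 0, .ofNat 1, .ofNat 0], []), ([.negSucc 0, .ofNat 1, .ofNat 1,
    .ofNat 0], [⟨.ofNat 1, 1, 4, 2, 3⟩]), ([.ofNat 0, .ofNat 0, .ofNat 0, .ofNat 1], []),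
    ([.ofNat 0, .negSucc 0, .ofNat 1, .ofNat 1], [⟨.ofNat 1, 2, 9, 3, 8⟩, ⟨.negSucc 0, 5, 12,
    6, 11⟩, ⟨.ofNat 1, 7, 13, 9, 11⟩, ⟨.negSucc 0, 7, 13, 8, 12⟩]), ([.negSucc 0, .ofNat 0,
    .ofNat 1, .ofNat 1], [⟨.ofNat 1, 1, 4, 2, 3⟩, ⟨.ofNat 1, 2, 9, 3, 8⟩, ⟨.ofNat 1, 3, 12, 6,
    9⟩, ⟨.negSucc 0, 4, 13, 8, 9⟩, ⟨.negSucc 0, 5, 12, 6, 11⟩, ⟨.ofNat 1, 7, 13, 9, 11⟩]),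
    ([.negSucc 1, .ofNat 1, .ofNat 1, .ofNat 1], [⟨.ofNat 2, 1, 4, 2, 3⟩, ⟨.ofNat 1, 2, 9, 3,
    8⟩, ⟨.ofNat 2, 3, 12, 6, 9⟩, ⟨.negSucc 1, 4, 13, 8, 9⟩, ⟨.negSucc 0, 5, 12, 6, 11⟩, ⟨.ofNat
    1, 6, 13, 7, 12⟩, ⟨.ofNat 1, 7, 13, 9, 11⟩]), ([.negSucc 1, .ofNat 0, .ofNat 2, .ofNat 1],
    [⟨.ofNat 2, 1, 4, 2, 3⟩, ⟨.ofNat 2, 2, 9, 3, 8⟩, ⟨.ofNat 2, 3, 12, 6, 9⟩, ⟨.negSucc 1, 4,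
    13, 8, 9⟩, ⟨.negSucc 0, 5, 12, 6, 11⟩, ⟨.ofNat 1, 6, 13, 7, 12⟩, ⟨.ofNat 1, 7, 13, 9,
    11⟩]), ([.negSucc 0, .negSucc 0, .ofNat 1, .ofNat 2], [⟨.ofNat 1, 1, 4, 2, 3⟩, ⟨.ofNat 2,
    2, 9, 3, 8⟩, ⟨.ofNat 2, 3, 12, 6, 9⟩, ⟨.negSucc 0, 4, 13, 8, 9⟩, ⟨.negSucc 1, 5, 12, 6,
    11⟩, ⟨.ofNat 1, 7, 13, 9, 11⟩, ⟨.negSucc 0, 7, 13, 8, 12⟩, ⟨.ofNat 1, 10, 13, 11, 12⟩]),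
    ([.negSucc 1, .ofNat 0, .ofNat 1, .ofNat 2], [⟨.ofNat 2, 1, 4, 2, 3⟩, ⟨.ofNat 2, 2, 9, 3,
    8⟩, ⟨.ofNat 3, 3, 12, 6, 9⟩, ⟨.negSucc 1, 4, 13, 8, 9⟩, ⟨.negSucc 1, 5, 12, 6, 11⟩, ⟨.ofNat
    1, 6, 13, 7, 12⟩, ⟨.ofNat 1, 7, 13, 9, 11⟩]), ([.negSucc 1, .negSucc 0, .ofNat 2, .ofNat
    2], [⟨.ofNat 2, 1, 4, 2, 3⟩, ⟨.ofNat 3, 2, 9, 3, 8⟩, ⟨.ofNat 3, 3, 12, 6, 9⟩, ⟨.negSucc 1,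
    4, 13, 8, 9⟩, ⟨.negSucc 1, 5, 12, 6, 11⟩, ⟨.ofNat 1, 6, 13, 7, 12⟩, ⟨.negSucc 0, 7, 13, 8,
    12⟩, ⟨.ofNat 2, 7, 13, 9, 11⟩]), ([.negSucc 2, .ofNat 0, .ofNat 2, .ofNat 2], [⟨.ofNat 3,
    1, 4, 2, 3⟩, ⟨.ofNat 3, 2, 9, 3, 8⟩, ⟨.ofNat 4, 3, 12, 6, 9⟩, ⟨.negSucc 2, 4, 13, 8, 9⟩,
    ⟨.negSucc 1, 5, 12, 6, 11⟩, ⟨.ofNat 2, 6, 13, 7, 12⟩, ⟨.ofNat 2, 7, 13, 9, 11⟩])]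
G := [[(.negSucc 0, 1), (.negSucc 1, 3), (.negSucc 0, 5), (.ofNat 2, 13)], [(.negSucc 2, 1),
    (.ofNat 2, 3), (.ofNat 2, 5), (.negSucc 0, 13)], [(.ofNat 2, 1), (.ofNat 1, 3), (.negSucc
    0, 5)], [(.ofNat 3, 1), (.negSucc 0, 3)]]
D := .ofNat 14

theorem l14_ok : l14.ok 14 = true := by decide +kernel

def l15 : LinkData where
B := [1, 2, 3, 4, 8]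
rows := [([.ofNat 1, .ofNat 0, .ofNat 0, .ofNat 0, .ofNat 0], []), ([.ofNat 0, .ofNat 1, .ofNat
    0, .ofNat 0, .ofNat 0], []), ([.ofNat 0, .ofNat 0, .ofNat 1, .ofNat 0, .ofNat 0], []),
    ([.ofNat 0, .ofNat 0, .ofNat 0, .ofNat 1, .ofNat 0], []), ([.ofNat 0, .negSucc 0, .ofNat 1,
    .ofNat 1, .ofNat 0], [⟨.ofNat 1, 2, 7, 3, 6⟩, ⟨.negSucc 0, 4, 7, 5, 6⟩]), ([.negSucc 0,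
    .ofNat 0, .ofNat 1, .ofNat 1, .ofNat 0], [⟨.ofNat 1, 1, 6, 2, 5⟩, ⟨.ofNat 1, 2, 7, 3, 6⟩,
    ⟨.negSucc 0, 4, 7, 5, 6⟩]), ([.negSucc 0, .negSucc 0, .ofNat 2, .ofNat 1, .ofNat 0],
    [⟨.ofNat 1, 1, 6, 2, 5⟩, ⟨.ofNat 2, 2, 7, 3, 6⟩, ⟨.negSucc 0, 4, 7, 5, 6⟩]), ([.ofNat 0,
    .ofNat 0, .ofNat 0, .ofNat 0, .ofNat 1], []), ([.ofNat 0, .negSucc 0, .ofNat 1, .ofNat 0,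
    .ofNat 1], [⟨.ofNat 1, 2, 11, 3, 10⟩, ⟨.negSucc 0, 8, 11, 9, 10⟩]), ([.negSucc 0, .ofNat 0,
    .ofNat 1, .ofNat 0, .ofNat 1], [⟨.ofNat 1, 1, 6, 2, 5⟩, ⟨.ofNat 1, 5, 14, 6, 13⟩, ⟨.ofNat
    1, 2, 11, 3, 10⟩, ⟨.negSucc 0, 8, 11, 9, 10⟩, ⟨.negSucc 0, 9, 14, 10, 13⟩]), ([.negSucc 0,
    .negSucc 0, .ofNat 2, .ofNat 0, .ofNat 1], [⟨.ofNat 1, 1, 6, 2, 5⟩, ⟨.ofNat 1, 5, 14, 6,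
    13⟩, ⟨.ofNat 2, 2, 11, 3, 10⟩, ⟨.negSucc 0, 8, 11, 9, 10⟩, ⟨.negSucc 0, 9, 14, 10, 13⟩]),
    ([.negSucc 0, .negSucc 0, .ofNat 1, .ofNat 1, .ofNat 1], [⟨.ofNat 1, 1, 6, 2, 5⟩, ⟨.ofNat
    1, 2, 7, 3, 6⟩, ⟨.ofNat 1, 3, 13, 5, 11⟩, ⟨.negSucc 0, 4, 7, 5, 6⟩, ⟨.ofNat 1, 5, 14, 6,
    13⟩, ⟨.ofNat 1, 2, 11, 3, 10⟩, ⟨.negSucc 0, 9, 14, 10, 13⟩, ⟨.negSucc 0, 8, 13, 9, 12⟩]),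
    ([.negSucc 0, .negSucc 1, .ofNat 2, .ofNat 1, .ofNat 1], [⟨.ofNat 1, 1, 6, 2, 5⟩, ⟨.ofNat
    1, 2, 7, 3, 6⟩, ⟨.ofNat 1, 3, 13, 5, 11⟩, ⟨.negSucc 0, 4, 7, 5, 6⟩, ⟨.ofNat 1, 5, 14, 6,
    13⟩, ⟨.ofNat 2, 2, 11, 3, 10⟩, ⟨.negSucc 0, 8, 11, 9, 10⟩, ⟨.negSucc 0, 9, 14, 10, 13⟩]),
    ([.negSucc 1, .negSucc 0, .ofNat 2, .ofNat 1, .ofNat 1], [⟨.ofNat 2, 1, 6, 2, 5⟩, ⟨.ofNat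
    1, 2, 7, 3, 6⟩, ⟨.ofNat 1, 3, 13, 5, 11⟩, ⟨.negSucc 0, 4, 7, 5, 6⟩, ⟨.ofNat 2, 5, 14, 6,
    13⟩, ⟨.ofNat 2, 2, 11, 3, 10⟩, ⟨.negSucc 0, 8, 11, 9, 10⟩, ⟨.negSucc 0, 9, 14, 10, 13⟩])]
G := [[(.negSucc 0, 2), (.negSucc 0, 4), (.negSucc 0, 7), (.ofNat 2, 14)], [(.negSucc 1, 1),
    (.negSucc 0, 2), (.ofNat 1, 4), (.ofNat 2, 7), (.negSucc 0, 14)], [(.ofNat 1, 1), (.ofNat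
    1, 2), (.ofNat 1, 4), (.negSucc 0, 7)], [(.ofNat 2, 2), (.negSucc 0, 4)], [(.ofNat 2, 1),
    (.negSucc 0, 2)]]
D := .ofNat 15

theorem l15_ok : l15.ok 15 = true := by decide +kernel

def l16 : LinkData where
B := [1, 2, 3, 4, 6]
rows := [([.ofNat 1, .ofNat 0, .ofNat 0, .ofNat 0, .ofNat 0], []), ([.ofNat 0, .ofNat 1, .ofNat
    0, .ofNat 0, .ofNat 0], []), ([.ofNat 0, .ofNat 0, .ofNat 1, .ofNat 0, .ofNat 0], []),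
    ([.ofNat 0, .ofNat 0, .ofNat 0, .ofNat 1, .ofNat 0], []), ([.ofNat 0, .negSucc 0, .ofNat 1,
    .ofNat 1, .ofNat 0], [⟨.ofNat 1, 2, 5, 3, 4⟩]), ([.ofNat 0, .ofNat 0, .ofNat 0, .ofNat 0,
    .ofNat 1], []), ([.ofNat 1, .negSucc 1, .ofNat 0, .ofNat 1, .ofNat 1], [⟨.negSucc 0, 1, 8,
    2, 7⟩, ⟨.ofNat 1, 2, 5, 3, 4⟩, ⟨.ofNat 1, 3, 8, 5, 6⟩]), ([.ofNat 0, .negSucc 0, .ofNat 0,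
    .ofNat 1, .ofNat 1], [⟨.ofNat 1, 2, 5, 3, 4⟩, ⟨.ofNat 1, 3, 8, 5, 6⟩]), ([.negSucc 0,
    .ofNat 0, .ofNat 0, .ofNat 1, .ofNat 1], [⟨.ofNat 1, 1, 8, 2, 7⟩, ⟨.ofNat 1, 2, 5, 3, 4⟩,
    ⟨.ofNat 1, 3, 8, 5, 6⟩, ⟨.ofNat 1, 7, 15, 8, 14⟩, ⟨.negSucc 0, 8, 15, 9, 14⟩]), ([.ofNat 0,
    .negSucc 1, .ofNat 0, .ofNat 2, .ofNat 1], [⟨.ofNat 2, 2, 5, 3, 4⟩, ⟨.ofNat 2, 3, 8, 5, 6⟩,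
    ⟨.ofNat 1, 6, 13, 8, 11⟩, ⟨.negSucc 0, 8, 13, 10, 11⟩]), ([.ofNat 0, .negSucc 0, .negSucc
    0, .ofNat 1, .ofNat 2], [⟨.ofNat 1, 2, 5, 3, 4⟩, ⟨.ofNat 2, 3, 8, 5, 6⟩, ⟨.ofNat 1, 4, 14,
    8, 10⟩, ⟨.negSucc 0, 4, 14, 5, 13⟩, ⟨.negSucc 0, 8, 13, 10, 11⟩]), ([.ofNat 0, .negSucc 1,
    .ofNat 0, .ofNat 1, .ofNat 2], [⟨.ofNat 2, 2, 5, 3, 4⟩, ⟨.ofNat 2, 3, 8, 5, 6⟩, ⟨.ofNat 1,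
    4, 14, 8, 10⟩, ⟨.negSucc 0, 8, 13, 10, 11⟩, ⟨.negSucc 0, 11, 14, 12, 13⟩]), ([.ofNat 0,
    .negSucc 1, .negSucc 0, .ofNat 2, .ofNat 2], [⟨.ofNat 2, 2, 5, 3, 4⟩, ⟨.ofNat 3, 3, 8, 5,
    6⟩, ⟨.ofNat 1, 4, 14, 8, 10⟩, ⟨.negSucc 0, 4, 14, 5, 13⟩, ⟨.ofNat 1, 6, 13, 8, 11⟩,
    ⟨.negSucc 0, 8, 13, 10, 11⟩]), ([.ofNat 0, .negSucc 2, .ofNat 0, .ofNat 2, .ofNat 2],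
    [⟨.ofNat 3, 2, 5, 3, 4⟩, ⟨.ofNat 3, 3, 8, 5, 6⟩, ⟨.ofNat 1, 4, 14, 8, 10⟩, ⟨.ofNat 1, 6,
    13, 8, 11⟩, ⟨.negSucc 0, 8, 13, 10, 11⟩]), ([.negSucc 0, .negSucc 1, .ofNat 0, .ofNat 2,
    .ofNat 2], [⟨.ofNat 1, 1, 8, 2, 7⟩, ⟨.ofNat 3, 2, 5, 3, 4⟩, ⟨.ofNat 3, 3, 8, 5, 6⟩, ⟨.ofNat
    1, 4, 14, 8, 10⟩, ⟨.ofNat 1, 6, 13, 8, 11⟩, ⟨.ofNat 1, 7, 15, 8, 14⟩, ⟨.negSucc 0, 8, 13,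
    10, 11⟩])]
G := [[(.ofNat 1, 1), (.negSucc 0, 3), (.negSucc 0, 5), (.negSucc 0, 7), (.ofNat 2, 15)],
    [(.negSucc 3, 1), (.ofNat 1, 5), (.ofNat 2, 7), (.negSucc 0, 15)], [(.negSucc 0, 1),
    (.ofNat 1, 3), (.ofNat 1, 5), (.negSucc 0, 7)], [(.ofNat 2, 1), (.ofNat 1, 3), (.negSucc 0,
    5)], [(.ofNat 3, 1), (.negSucc 0, 3)]]
D := .ofNat 16

theorem l16_ok : l16.ok 16 = true := by decide +kernel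

def l18 : LinkData where
B := [1, 2, 3, 4]
rows := [([.ofNat 1, .ofNat 0, .ofNat 0, .ofNat 0], []), ([.ofNat 0, .ofNat 1, .ofNat 0, .ofNat
    0], []), ([.ofNat 0, .ofNat 0, .ofNat 1, .ofNat 0], []), ([.ofNat 0, .ofNat 0, .ofNat 0,
    .ofNat 1], []), ([.negSucc 0, .ofNat 1, .ofNat 0, .ofNat 1], [⟨.ofNat 1, 1, 5, 2, 4⟩]),
    ([.negSucc 0, .ofNat 0, .ofNat 1, .ofNat 1], [⟨.ofNat 1, 1, 5, 2, 4⟩, ⟨.ofNat 1, 2, 10, 5,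
    7⟩, ⟨.negSucc 0, 3, 9, 6, 6⟩, ⟨.negSucc 0, 6, 16, 8, 14⟩, ⟨.ofNat 1, 7, 17, 10, 14⟩,
    ⟨.negSucc 0, 8, 15, 11, 12⟩, ⟨.ofNat 1, 9, 15, 12, 12⟩, ⟨.negSucc 0, 11, 17, 12, 16⟩]),
    ([.negSucc 1, .ofNat 1, .ofNat 1, .ofNat 1], [⟨.ofNat 2, 1, 5, 2, 4⟩, ⟨.ofNat 1, 2, 10, 5,
    7⟩, ⟨.negSucc 0, 3, 9, 6, 6⟩, ⟨.ofNat 1, 4, 16, 8, 12⟩, ⟨.negSucc 0, 5, 17, 7, 15⟩,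
    ⟨.negSucc 1, 6, 16, 8, 14⟩, ⟨.ofNat 1, 7, 17, 10, 14⟩, ⟨.negSucc 0, 8, 15, 11, 12⟩, ⟨.ofNat
    1, 9, 15, 12, 12⟩, ⟨.negSucc 0, 11, 17, 12, 16⟩, ⟨.ofNat 1, 12, 17, 14, 15⟩]), ([.negSucc
    0, .negSucc 0, .ofNat 1, .ofNat 2], [⟨.ofNat 1, 1, 5, 2, 4⟩, ⟨.ofNat 2, 2, 10, 5, 7⟩,
    ⟨.negSucc 0, 3, 9, 6, 6⟩, ⟨.negSucc 0, 4, 16, 8, 12⟩, ⟨.ofNat 1, 5, 17, 7, 15⟩, ⟨.negSucc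
    1, 6, 16, 8, 14⟩, ⟨.ofNat 3, 7, 17, 10, 14⟩, ⟨.negSucc 1, 8, 15, 11, 12⟩, ⟨.ofNat 2, 9, 15,
    12, 12⟩, ⟨.negSucc 0, 9, 17, 10, 16⟩, ⟨.negSucc 1, 11, 17, 12, 16⟩, ⟨.negSucc 0, 12, 17,
    14, 15⟩]), ([.negSucc 1, .ofNat 0, .ofNat 1, .ofNat 2], [⟨.ofNat 2, 1, 5, 2, 4⟩, ⟨.ofNat 2,
    2, 10, 5, 7⟩, ⟨.negSucc 0, 3, 9, 6, 6⟩, ⟨.negSucc 1, 6, 16, 8, 14⟩, ⟨.ofNat 2, 7, 17, 10,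
    14⟩, ⟨.negSucc 1, 8, 15, 11, 12⟩, ⟨.ofNat 2, 9, 15, 12, 12⟩, ⟨.negSucc 1, 11, 17, 12,
    16⟩]), ([.negSucc 2, .ofNat 1, .ofNat 1, .ofNat 2], [⟨.ofNat 3, 1, 5, 2, 4⟩, ⟨.ofNat 2, 2,
    10, 5, 7⟩, ⟨.negSucc 0, 3, 9, 6, 6⟩, ⟨.ofNat 1, 4, 16, 8, 12⟩, ⟨.negSucc 0, 5, 17, 7, 15⟩,
    ⟨.negSucc 1, 6, 16, 8, 14⟩, ⟨.ofNat 1, 7, 17, 10, 14⟩, ⟨.negSucc 0, 8, 15, 11, 12⟩, ⟨.ofNat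
    1, 9, 15, 12, 12⟩, ⟨.negSucc 0, 11, 17, 12, 16⟩, ⟨.ofNat 1, 12, 17, 14, 15⟩]), ([.negSucc
    1, .negSucc 0, .ofNat 1, .ofNat 3], [⟨.ofNat 2, 1, 5, 2, 4⟩, ⟨.ofNat 3, 2, 10, 5, 7⟩,
    ⟨.negSucc 0, 3, 9, 6, 6⟩, ⟨.negSucc 0, 4, 16, 8, 12⟩, ⟨.ofNat 1, 5, 17, 7, 15⟩, ⟨.negSucc
    1, 6, 16, 8, 14⟩, ⟨.ofNat 4, 7, 17, 10, 14⟩, ⟨.negSucc 2, 8, 15, 11, 12⟩, ⟨.ofNat 2, 9, 15,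
    12, 12⟩, ⟨.negSucc 0, 9, 17, 10, 16⟩, ⟨.negSucc 1, 11, 17, 12, 16⟩, ⟨.negSucc 1, 12, 17,
    14, 15⟩]), ([.negSucc 2, .ofNat 0, .ofNat 1, .ofNat 3], [⟨.ofNat 3, 1, 5, 2, 4⟩, ⟨.ofNat 3,
    2, 10, 5, 7⟩, ⟨.negSucc 0, 3, 9, 6, 6⟩, ⟨.negSucc 1, 6, 16, 8, 14⟩, ⟨.ofNat 3, 7, 17, 10,
    14⟩, ⟨.negSucc 1, 8, 15, 11, 12⟩, ⟨.ofNat 1, 9, 15, 12, 12⟩, ⟨.negSucc 1, 11, 17, 12, 16⟩,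
    ⟨.negSucc 0, 12, 17, 14, 15⟩]), ([.negSucc 2, .negSucc 0, .ofNat 2, .ofNat 3], [⟨.ofNat 3,
    1, 5, 2, 4⟩, ⟨.ofNat 4, 2, 10, 5, 7⟩, ⟨.negSucc 1, 3, 9, 6, 6⟩, ⟨.ofNat 1, 5, 17, 7, 15⟩,
    ⟨.negSucc 3, 6, 16, 8, 14⟩, ⟨.ofNat 5, 7, 17, 10, 14⟩, ⟨.negSucc 3, 8, 15, 11, 12⟩, ⟨.ofNat
    3, 9, 15, 12, 12⟩, ⟨.negSucc 0, 9, 17, 10, 16⟩, ⟨.negSucc 3, 11, 17, 12, 16⟩, ⟨.negSucc 1,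
    12, 17, 14, 15⟩, ⟨.ofNat 1, 13, 17, 14, 16⟩]), ([.negSucc 3, .ofNat 0, .ofNat 2, .ofNat 3],
    [⟨.ofNat 4, 1, 5, 2, 4⟩, ⟨.ofNat 4, 2, 10, 5, 7⟩, ⟨.negSucc 1, 3, 9, 6, 6⟩, ⟨.ofNat 1, 4,
    16, 8, 12⟩, ⟨.negSucc 3, 6, 16, 8, 14⟩, ⟨.ofNat 4, 7, 17, 10, 14⟩, ⟨.negSucc 2, 8, 15, 11,
    12⟩, ⟨.ofNat 2, 9, 15, 12, 12⟩, ⟨.negSucc 2, 11, 17, 12, 16⟩, ⟨.negSucc 0, 12, 17, 14,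
    15⟩]), ([.negSucc 3, .ofNat 0, .ofNat 1, .ofNat 4], [⟨.ofNat 4, 1, 5, 2, 4⟩, ⟨.ofNat 4, 2,
    10, 5, 7⟩, ⟨.negSucc 0, 3, 9, 6, 6⟩, ⟨.negSucc 1, 6, 16, 8, 14⟩, ⟨.ofNat 4, 7, 17, 10, 14⟩,
    ⟨.negSucc 1, 8, 15, 11, 12⟩, ⟨.ofNat 1, 9, 15, 12, 12⟩, ⟨.negSucc 1, 11, 17, 12, 16⟩,
    ⟨.negSucc 1, 12, 17, 14, 15⟩]), ([.negSucc 3, .negSucc 0, .ofNat 2, .ofNat 4], [⟨.ofNat 4,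
    1, 5, 2, 4⟩, ⟨.ofNat 5, 2, 10, 5, 7⟩, ⟨.negSucc 1, 3, 9, 6, 6⟩, ⟨.ofNat 1, 5, 17, 7, 15⟩,
    ⟨.negSucc 3, 6, 16, 8, 14⟩, ⟨.ofNat 6, 7, 17, 10, 14⟩, ⟨.negSucc 3, 8, 15, 11, 12⟩, ⟨.ofNat
    3, 9, 15, 12, 12⟩, ⟨.negSucc 0, 9, 17, 10, 16⟩, ⟨.negSucc 3, 11, 17, 12, 16⟩, ⟨.negSucc 1,
    12, 17, 14, 15⟩]), ([.negSucc 4, .ofNat 0, .ofNat 2, .ofNat 4], [⟨.ofNat 5, 1, 5, 2, 4⟩,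
    ⟨.ofNat 5, 2, 10, 5, 7⟩, ⟨.negSucc 1, 3, 9, 6, 6⟩, ⟨.ofNat 1, 4, 16, 8, 12⟩, ⟨.negSucc 3,
    6, 16, 8, 14⟩, ⟨.ofNat 5, 7, 17, 10, 14⟩, ⟨.negSucc 2, 8, 15, 11, 12⟩, ⟨.ofNat 2, 9, 15,
    12, 12⟩, ⟨.negSucc 2, 11, 17, 12, 16⟩, ⟨.negSucc 0, 12, 17, 14, 15⟩])]
G := [[(.negSucc 3, 1), (.negSucc 0, 5), (.negSucc 0, 7), (.ofNat 2, 17)], [(.negSucc 1, 1),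
    (.ofNat 1, 5), (.ofNat 2, 7), (.negSucc 0, 17)], [(.ofNat 2, 1), (.ofNat 1, 5), (.negSucc
    0, 7)], [(.ofNat 5, 1), (.negSucc 0, 5)]]
D := .ofNat 18

theorem l18_ok : l18.ok 18 = true := by decide +kernel

def l20 : LinkData where
B := [1, 2, 3, 5, 7]
rows := [([.ofNat 1, .ofNat 0, .ofNat 0, .ofNat 0, .ofNat 0], []), ([.ofNat 0, .ofNat 1, .ofNat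
    0, .ofNat 0, .ofNat 0], []), ([.ofNat 0, .ofNat 0, .ofNat 1, .ofNat 0, .ofNat 0], []),
    ([.negSucc 0, .ofNat 1, .ofNat 1, .ofNat 0, .ofNat 0], [⟨.ofNat 1, 1, 4, 2, 3⟩]), ([.ofNat
    0, .ofNat 0, .ofNat 0, .ofNat 1, .ofNat 0], []), ([.negSucc 1, .ofNat 1, .ofNat 2, .ofNat
    0, .ofNat 0], [⟨.ofNat 2, 1, 4, 2, 3⟩, ⟨.ofNat 1, 2, 6, 4, 4⟩]), ([.ofNat 0, .ofNat 0,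
    .ofNat 0, .ofNat 0, .ofNat 1], []), ([.negSucc 0, .ofNat 1, .ofNat 0, .ofNat 0, .ofNat 1],
    [⟨.ofNat 1, 1, 4, 2, 3⟩, ⟨.ofNat 1, 3, 12, 6, 9⟩, ⟨.negSucc 0, 4, 13, 6, 11⟩, ⟨.negSucc 0,
    7, 16, 9, 14⟩, ⟨.ofNat 1, 8, 17, 11, 14⟩, ⟨.negSucc 0, 12, 19, 13, 18⟩, ⟨.ofNat 1, 16, 19,
    17, 18⟩]), ([.negSucc 0, .ofNat 0, .ofNat 1, .ofNat 0, .ofNat 1], [⟨.ofNat 1, 1, 4, 2, 3⟩,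
    ⟨.ofNat 1, 2, 6, 4, 4⟩, ⟨.ofNat 1, 4, 13, 6, 11⟩, ⟨.negSucc 0, 7, 16, 9, 14⟩, ⟨.ofNat 1,
    11, 19, 13, 17⟩, ⟨.negSucc 0, 14, 18, 16, 16⟩, ⟨.negSucc 0, 16, 19, 17, 18⟩]), ([.negSucc
    1, .ofNat 1, .ofNat 1, .ofNat 0, .ofNat 1], [⟨.ofNat 2, 1, 4, 2, 3⟩, ⟨.ofNat 1, 2, 6, 4,
    4⟩, ⟨.ofNat 1, 3, 12, 6, 9⟩, ⟨.negSucc 0, 7, 16, 9, 14⟩, ⟨.ofNat 1, 10, 19, 11, 18⟩,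
    ⟨.ofNat 1, 11, 19, 13, 17⟩, ⟨.negSucc 0, 12, 19, 13, 18⟩, ⟨.negSucc 0, 14, 18, 16, 16⟩,
    ⟨.negSucc 0, 16, 19, 17, 18⟩]), ([.negSucc 2, .ofNat 2, .ofNat 1, .ofNat 0, .ofNat 1],
    [⟨.ofNat 3, 1, 4, 2, 3⟩, ⟨.ofNat 1, 2, 6, 4, 4⟩, ⟨.ofNat 2, 3, 12, 6, 9⟩, ⟨.negSucc 0, 4,
    13, 6, 11⟩, ⟨.negSucc 0, 7, 16, 9, 14⟩, ⟨.ofNat 1, 9, 19, 10, 18⟩, ⟨.ofNat 1, 10, 19, 11,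
    18⟩, ⟨.ofNat 1, 11, 19, 13, 17⟩, ⟨.negSucc 1, 12, 19, 13, 18⟩, ⟨.negSucc 0, 14, 18, 16,
    16⟩, ⟨.negSucc 0, 16, 19, 17, 18⟩]), ([.negSucc 2, .ofNat 1, .ofNat 2, .ofNat 0, .ofNat 1],
    [⟨.ofNat 3, 1, 4, 2, 3⟩, ⟨.ofNat 2, 2, 6, 4, 4⟩, ⟨.ofNat 1, 3, 12, 6, 9⟩, ⟨.ofNat 1, 4, 13,
    6, 11⟩, ⟨.negSucc 0, 7, 16, 9, 14⟩, ⟨.ofNat 1, 11, 19, 13, 17⟩, ⟨.negSucc 0, 14, 18, 16,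
    16⟩, ⟨.negSucc 0, 16, 19, 17, 18⟩]), ([.negSucc 3, .ofNat 2, .ofNat 2, .ofNat 0, .ofNat 1],
    [⟨.ofNat 4, 1, 4, 2, 3⟩, ⟨.ofNat 2, 2, 6, 4, 4⟩, ⟨.ofNat 2, 3, 12, 6, 9⟩, ⟨.negSucc 0, 7,
    16, 9, 14⟩, ⟨.ofNat 1, 9, 19, 10, 18⟩, ⟨.ofNat 1, 10, 19, 11, 18⟩, ⟨.ofNat 1, 11, 19, 13,
    17⟩, ⟨.negSucc 1, 12, 19, 13, 18⟩, ⟨.negSucc 0, 14, 18, 16, 16⟩, ⟨.negSucc 0, 16, 19, 17,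
    18⟩]), ([.negSucc 1, .ofNat 1, .ofNat 0, .ofNat 0, .ofNat 2], [⟨.ofNat 2, 1, 4, 2, 3⟩,
    ⟨.ofNat 1, 2, 6, 4, 4⟩, ⟨.ofNat 2, 3, 12, 6, 9⟩, ⟨.ofNat 1, 6, 18, 12, 12⟩, ⟨.negSucc 1, 7,
    16, 9, 14⟩, ⟨.negSucc 0, 14, 18, 16, 16⟩]), ([.negSucc 3, .ofNat 2, .ofNat 2, .negSucc 0,
    .ofNat 2], [⟨.ofNat 5, 1, 4, 2, 3⟩, ⟨.ofNat 3, 2, 6, 4, 4⟩, ⟨.ofNat 3, 3, 12, 6, 9⟩,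
    ⟨.negSucc 0, 1, 19, 5, 15⟩, ⟨.ofNat 1, 4, 13, 6, 11⟩, ⟨.ofNat 1, 6, 18, 12, 12⟩, ⟨.negSucc
    1, 7, 16, 9, 14⟩, ⟨.ofNat 1, 9, 19, 10, 18⟩, ⟨.ofNat 1, 10, 19, 11, 18⟩, ⟨.ofNat 2, 11, 19,
    13, 17⟩, ⟨.negSucc 0, 12, 19, 13, 18⟩, ⟨.negSucc 1, 14, 18, 16, 16⟩, ⟨.negSucc 1, 16, 19,
    17, 18⟩]), ([.negSucc 2, .ofNat 1, .ofNat 1, .ofNat 0, .ofNat 2], [⟨.ofNat 3, 1, 4, 2, 3⟩,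
    ⟨.ofNat 2, 2, 6, 4, 4⟩, ⟨.ofNat 2, 3, 12, 6, 9⟩, ⟨.ofNat 1, 4, 13, 6, 11⟩, ⟨.ofNat 1, 6,
    18, 12, 12⟩, ⟨.negSucc 1, 7, 16, 9, 14⟩, ⟨.ofNat 1, 11, 19, 13, 17⟩, ⟨.negSucc 1, 14, 18,
    16, 16⟩, ⟨.negSucc 0, 16, 19, 17, 18⟩]), ([.negSucc 3, .ofNat 2, .ofNat 1, .ofNat 0, .ofNat
    2], [⟨.ofNat 4, 1, 4, 2, 3⟩, ⟨.ofNat 2, 2, 6, 4, 4⟩, ⟨.ofNat 3, 3, 12, 6, 9⟩, ⟨.ofNat 1, 6,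
    18, 12, 12⟩, ⟨.negSucc 1, 7, 16, 9, 14⟩, ⟨.ofNat 1, 9, 19, 10, 18⟩, ⟨.ofNat 1, 10, 19, 11,
    18⟩, ⟨.ofNat 1, 11, 19, 13, 17⟩, ⟨.negSucc 0, 12, 19, 13, 18⟩, ⟨.negSucc 1, 14, 18, 16,
    16⟩, ⟨.negSucc 1, 16, 19, 17, 18⟩]), ([.negSucc 3, .ofNat 1, .ofNat 2, .ofNat 0, .ofNat 2],
    [⟨.ofNat 4, 1, 4, 2, 3⟩, ⟨.ofNat 3, 2, 6, 4, 4⟩, ⟨.ofNat 2, 3, 12, 6, 9⟩, ⟨.ofNat 2, 4, 13,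
    6, 11⟩, ⟨.ofNat 1, 6, 18, 12, 12⟩, ⟨.negSucc 1, 7, 16, 9, 14⟩, ⟨.ofNat 2, 11, 19, 13, 17⟩,
    ⟨.negSucc 1, 14, 18, 16, 16⟩, ⟨.negSucc 1, 16, 19, 17, 18⟩]), ([.negSucc 4, .ofNat 2,
    .ofNat 2, .ofNat 0, .ofNat 2], [⟨.ofNat 5, 1, 4, 2, 3⟩, ⟨.ofNat 3, 2, 6, 4, 4⟩, ⟨.ofNat 3,
    3, 12, 6, 9⟩, ⟨.ofNat 1, 4, 13, 6, 11⟩, ⟨.ofNat 1, 6, 18, 12, 12⟩, ⟨.negSucc 1, 7, 16, 9,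
    14⟩, ⟨.ofNat 1, 9, 19, 10, 18⟩, ⟨.ofNat 1, 10, 19, 11, 18⟩, ⟨.ofNat 2, 11, 19, 13, 17⟩,
    ⟨.negSucc 0, 12, 19, 13, 18⟩, ⟨.negSucc 1, 14, 18, 16, 16⟩, ⟨.negSucc 1, 16, 19, 17, 18⟩])]
G := [[(.negSucc 3, 1), (.negSucc 0, 3), (.ofNat 1, 7), (.negSucc 1, 9), (.ofNat 2, 19)],
    [(.ofNat 1, 1), (.ofNat 2, 9), (.negSucc 0, 19)], [(.ofNat 2, 1), (.ofNat 1, 3), (.negSucc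
    1, 7), (.ofNat 1, 9)], [(.negSucc 0, 1), (.ofNat 1, 3), (.ofNat 1, 7), (.negSucc 0, 9)],
    [(.ofNat 3, 1), (.negSucc 0, 3)]]
D := .ofNat 20

theorem l20_ok : l20.ok 20 = true := by decide +kernel

end Pool.Agent.Helper75.Poly
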