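import Pool.Agent.Helper75.Zss.Twin
import Pool.Agent.Helper75.Zss.LinkD
import Pool.Agent.Helper75.Zss.D.M2
import Pool.Agent.Helper75.Zss.D.M3
import Pool.Agent.Helper75.Zss.D.M4
import Pool.Agent.Helper75.Zss.D.M5
import Pool.Agent.Helper75.Zss.D.M6
import Pool.Agent.Helper75.Zss.D.M7
import Pool.Agent.Helper75.Zss.D.M8
import Pool.Agent.Helper75.Zss.D.M9
import Pool.Agent.Helper75.Zss.D.M10
import Pool.Agent.Helper75.Zss.D.M12
import Pool.Agent.Helper75.Zss.D.M14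
import Pool.Agent.Helper75.Zss.D.M15
import Pool.Agent.Helper75.Zss.D.M16
import Pool.Agent.Helper75.Zss.D.M18
import Pool.Agent.Helper75.Zss.D.M20

/-!
# Twins for all small degrees
-/

namespace Pool.Agent.Helper75.Poly

/-- The degrees covered. -/
def degs : List ℕ := [2, 3, 4, 5, 6, 7, 8, 9, 10, 12, 14, 15, 16, 18, 20]

theorem exists_data {m : ℕ} (h : m ∈ degs) : ∃ (F : List V5) (U : List N5) (s₂ s₃ s₄ : ℕ)
    (R : List (List ℕ)), IDP F (U.map N5.toV) ∧ good F U m s₂ s₃ s₄ R = true := by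
  unfold degs at h
  simp only [List.mem_cons, List.not_mem_nil, or_false] at h
  rcases h with rfl | rfl | rfl | rfl | rfl | rfl | rfl | rfl | rfl | rfl | rfl | rfl | rfl | rfl |
    rfl
  · exact ⟨_, _, _, _, _, _, Fan.idp f2_A f2_B, f2_good⟩
  · exact ⟨_, _, _, _, _, _, Fan.idp f3_A f3_B, f3_good⟩
  · exact ⟨_, _, _, _, _, _, Fan.idp f4_A f4_B, f4_good⟩
  · exact ⟨_, _, _, _, _, _, Fan.idp f5_A f5_B, f5_good⟩
  · exact ⟨_, _, _, _, _, _, Fan.idp f6_A f6_B, f6_good⟩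
  · exact ⟨_, _, _, _, _, _, Fan.idp f7_A f7_B, f7_good⟩
  · exact ⟨_, _, _, _, _, _, Fan.idp f8_A f8_B, f8_good⟩
  · exact ⟨_, _, _, _, _, _, Fan.idp f9_A f9_B, f9_good⟩
  · exact ⟨_, _, _, _, _, _, Fan.idp f10_A f10_B, f10_good⟩
  · exact ⟨_, _, _, _, _, _, Fan.idp f12_A f12_B, f12_good⟩
  · exact ⟨_, _, _, _, _, _, Fan.idp f14_A f14_B, f14_good⟩
  · exact ⟨_, _, _, _, _, _, Fan.idp f15_A f15_B, f15_good⟩
  · exact ⟨_, _, _, _, _, _, Fan.idp f16_A f16_B, f16_good⟩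
  · exact ⟨_, _, _, _, _, _, Fan.idp f18_A f18_B, f18_good⟩
  · exact ⟨_, _, _, _, _, _, Fan.idp f20_A f20_B, f20_good⟩

theorem exists_link {m : ℕ} (h : m ∈ degs) : ∃ A : LinkData, A.ok m = true := by
  unfold degs at h
  simp only [List.mem_cons, List.not_mem_nil, or_false] at h
  rcases h with rfl | rfl | rfl | rfl | rfl | rfl | rfl | rfl | rfl | rfl | rfl | rfl | rfl | rfl |
    rfl
  · exact ⟨_, l2_ok⟩
  · exact ⟨_, l3_ok⟩
  · exact ⟨_, l4_ok⟩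
  · exact ⟨_, l5_ok⟩
  · exact ⟨_, l6_ok⟩
  · exact ⟨_, l7_ok⟩
  · exact ⟨_, l8_ok⟩
  · exact ⟨_, l9_ok⟩
  · exact ⟨_, l10_ok⟩
  · exact ⟨_, l12_ok⟩
  · exact ⟨_, l14_ok⟩
  · exact ⟨_, l15_ok⟩
  · exact ⟨_, l16_ok⟩
  · exact ⟨_, l18_ok⟩
  · exact ⟨_, l20_ok⟩

open Finset in
/-- For the degrees in `degs`: every zero-sum function with all residue sums at least `(ν + 1) m`
is linked to one that splits into `ν + 1` zero-sum parts. -/
theorem exists_twin {m : ℕ} (hm : m ∈ degs) [NeZero m] {N ν : ℕ} {a : Fin N → ZMod m}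
    (ha : ∀ i, a i ≠ 0) (hs : ∑ i, a i = 0)
    (hval : ∀ t : ZMod m, IsUnit t → (ν + 1) * m ≤ ∑ i, (t * a i).val) :
    ∃ b : Fin N → ZMod m, (∀ i, b i ≠ 0) ∧ ∑ i, b i = 0 ∧
      ∑ i, ind (a i) - ∑ i, ind (b i) ∈ AddSubgroup.closure (pairs m) ∧
      ∃ P : Fin N → Fin (ν + 1), Function.Surjective P ∧ ∀ k, ∑ i with P i = k, b i = 0 := by
  obtain ⟨F, U, s₂, s₃, s₄, R, h1, h2⟩ := exists_data hm
  obtain ⟨A, hA⟩ := exists_link hm
  obtain ⟨b, hb1, hb2, hb3, hb4⟩ := twin h1 h2 ha hs hval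
  exact ⟨b, hb1, hb2, linked_of_same hA ha hb1 (fun t ht => (hb3 t ht).symm), hb4⟩

end Pool.Agent.Helper75.Poly
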