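import Mathlib

/-!
# Zero-sum theory: `Reach`, the counting function `N`, the growth lemma

`Reach α j x` says that the multiset `α` of elements of a finite abelian group contains `j`
disjoint nonempty zero-sum parts and one more disjoint part with sum `x`.
-/

namespace Pool.Agent.Helper75.Zss

variable {G : Type*} [AddCommGroup G]

/-- `j` disjoint nonempty zero-sum parts of `α` and a further disjoint part with sum `x`. -/
def Reach (α : Multiset G) (j : ℕ) (x : G) : Prop :=
  ∃ (Z : Multiset (Multiset G)) (R : Multiset G),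
    Multiset.card Z = j ∧ (∀ z ∈ Z, z ≠ 0 ∧ z.sum = 0) ∧ Z.sum + R ≤ α ∧ R.sum = x

theorem sum_sum_eq_zero {Z : Multiset (Multiset G)} (hZ : ∀ z ∈ Z, z ≠ 0 ∧ z.sum = 0) :
    Z.sum.sum = 0 := by
  induction Z using Multiset.induction_on with
  | empty => simp
  | cons z Z ih =>
    rw [Multiset.sum_cons, Multiset.sum_add, ih (fun w hw => hZ w (Multiset.mem_cons_of_mem hw)),
      (hZ z (Multiset.mem_cons_self z Z)).2, add_zero]

theorem card_le_card_sum {Z : Multiset (Multiset G)} (hZ : ∀ z ∈ Z, z ≠ 0 ∧ z.sum = 0) :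
    Multiset.card Z ≤ Multiset.card Z.sum := by
  induction Z using Multiset.induction_on with
  | empty => simp
  | cons z Z ih =>
    rw [Multiset.sum_cons, Multiset.card_add, Multiset.card_cons]
    have h1 := ih (fun w hw => hZ w (Multiset.mem_cons_of_mem hw))
    have h2 : 0 < Multiset.card z :=
      Multiset.card_pos.2 (hZ z (Multiset.mem_cons_self z Z)).1
    omega

theorem Reach.mono {α β : Multiset G} (h : α ≤ β) {j : ℕ} {x : G} (H : Reach α j x) :
    Reach β j x := by
  obtain ⟨Z, R, h1, h2, h3, h4⟩ := H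
  exact ⟨Z, R, h1, h2, h3.trans h, h4⟩

theorem Reach.cons {α : Multiset G} {j : ℕ} {x : G} (b : G) (H : Reach α j x) :
    Reach (b ::ₘ α) j x := H.mono (Multiset.le_cons_self α b)

theorem reach_zero_zero (α : Multiset G) : Reach α 0 0 :=
  ⟨0, 0, by simp, by simp, by simp, by simp⟩

theorem Reach.zero {α : Multiset G} {j : ℕ} {x : G} (H : Reach α j x) : Reach α j 0 := by
  obtain ⟨Z, R, h1, h2, h3, h4⟩ := H
  refine ⟨Z, 0, h1, h2, ?_, by simp⟩
  rw [add_zero]
  exact (Multiset.le_add_right _ _).trans h3

theorem Reach.pred {α : Multiset G} {j : ℕ} {x : G} (H : Reach α (j + 1) x) : Reach α j x := by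
  obtain ⟨Z, R, h1, h2, h3, h4⟩ := H
  obtain ⟨z, Z', rfl⟩ : ∃ z Z', Z = z ::ₘ Z' := by
    have : 0 < Multiset.card Z := by omega
    obtain ⟨z, hz⟩ := Multiset.card_pos_iff_exists_mem.1 this
    exact ⟨z, _, (Multiset.exists_cons_of_mem hz).choose_spec⟩
  refine ⟨Z', R, by simpa using h1, fun w hw => h2 w (Multiset.mem_cons_of_mem hw), ?_, h4⟩
  refine le_trans ?_ h3
  rw [Multiset.sum_cons]
  exact add_le_add_left (Multiset.le_add_left _ _) _

theorem Reach.antitone {α : Multiset G} {i j : ℕ} (hij : i ≤ j) {x : G} (H : Reach α j x) :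
    Reach α i x := by
  induction j with
  | zero =>
    obtain rfl : i = 0 := by omega
    exact H
  | succ j ih =>
    rcases Nat.lt_or_ge i (j + 1) with h | h
    · exact ih (by omega) H.pred
    · obtain rfl : i = j + 1 := by omega
      exact H

theorem Reach.shift {α : Multiset G} {j : ℕ} {x : G} (b : G) (H : Reach α j x) :
    Reach (b ::ₘ α) j (x + b) := by
  obtain ⟨Z, R, h1, h2, h3, h4⟩ := H
  refine ⟨Z, b ::ₘ R, h1, h2, ?_, by rw [Multiset.sum_cons, h4, add_comm]⟩
  rw [Multiset.add_cons]
  exact Multiset.cons_le_cons b h3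

theorem Reach.close {α : Multiset G} {j : ℕ} {b : G} (H : Reach α j (-b)) :
    Reach (b ::ₘ α) (j + 1) 0 := by
  obtain ⟨Z, R, h1, h2, h3, h4⟩ := H
  refine ⟨(b ::ₘ R) ::ₘ Z, 0, by simp [h1], ?_, ?_, by simp⟩
  · intro z hz
    rcases Multiset.mem_cons.1 hz with rfl | hz
    · exact ⟨Multiset.cons_ne_zero, by rw [Multiset.sum_cons, h4, add_neg_cancel]⟩
    · exact h2 z hz
  · rw [add_zero, Multiset.sum_cons, Multiset.cons_add, add_comm R]
    exact Multiset.cons_le_cons b h3

theorem Reach.symm {α : Multiset G} {j : ℕ} {x : G} (H : Reach α j x) :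
    Reach α j (α.sum - x) := by
  obtain ⟨Z, R, h1, h2, h3, h4⟩ := H
  obtain ⟨S, rfl⟩ := Multiset.le_iff_exists_add.1 h3
  refine ⟨Z, S, h1, h2, ?_, ?_⟩
  · exact add_le_add_left (Multiset.le_add_right _ _) _
  · rw [Multiset.sum_add, Multiset.sum_add, sum_sum_eq_zero h2, h4]
    abel

theorem Reach.le_card {α : Multiset G} {j : ℕ} {x : G} (H : Reach α j x) :
    j ≤ Multiset.card α := by
  obtain ⟨Z, R, h1, h2, h3, h4⟩ := H
  have h5 := card_le_card_sum h2
  have h6 := Multiset.card_le_card h3
  rw [Multiset.card_add] at h6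
  omega

/-- If the total sum is zero and a nonzero value is reached, one more zero-sum part exists. -/
theorem Reach.succ_of_sum_zero {α : Multiset G} (hα : α.sum = 0) {j : ℕ} {x : G} (hx : x ≠ 0)
    (H : Reach α j x) : Reach α (j + 1) 0 := by
  obtain ⟨Z, R, h1, h2, h3, h4⟩ := H
  obtain ⟨S, rfl⟩ := Multiset.le_iff_exists_add.1 h3
  have h5 : (R + S).sum = 0 := by
    rw [add_assoc, Multiset.sum_add, sum_sum_eq_zero h2, zero_add] at hα
    exact hα
  refine ⟨(R + S) ::ₘ Z, 0, by simp [h1], ?_, ?_, by simp⟩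
  · intro z hz
    rcases Multiset.mem_cons.1 hz with rfl | hz
    · refine ⟨?_, h5⟩
      intro h
      have : R = 0 := by
        have := Multiset.card_eq_zero.2 h
        rw [Multiset.card_add] at this
        exact Multiset.card_eq_zero.1 (by omega)
      rw [this] at h4
      exact hx (by simpa using h4.symm)
    · exact h2 z hz
  · rw [add_zero, Multiset.sum_cons]
    apply le_of_eq
    abel

/-- The subgroup generated by the elements of `α`. -/
def cl (α : Multiset G) : AddSubgroup G := AddSubgroup.closure {x | x ∈ α}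

theorem mem_cl {α : Multiset G} {x : G} (h : x ∈ α) : x ∈ cl α := AddSubgroup.subset_closure h

theorem cl_le {α : Multiset G} {K : AddSubgroup G} : cl α ≤ K ↔ ∀ x ∈ α, x ∈ K :=
  AddSubgroup.closure_le K

theorem sum_mem_of {K : AddSubgroup G} {R : Multiset G} (h : ∀ x ∈ R, x ∈ K) : R.sum ∈ K :=
  K.multiset_sum_mem R h

theorem Reach.mem_of {α : Multiset G} {K : AddSubgroup G} (hK : ∀ x ∈ α, x ∈ K) {j : ℕ} {x : G}
    (H : Reach α j x) : x ∈ K := by
  obtain ⟨Z, R, h1, h2, h3, rfl⟩ := H
  exact sum_mem_of (fun x hx => hK x (Multiset.mem_of_le ((Multiset.le_add_left _ _).trans h3) hx))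

theorem Reach.mem_cl {α : Multiset G} {j : ℕ} {x : G} (H : Reach α j x) : x ∈ cl α :=
  H.mem_of (fun _ h => Zss.mem_cl h)

theorem reach_of_mem {α : Multiset G} {x : G} (h : x ∈ α) : Reach α 0 x :=
  ⟨0, {x}, by simp, by simp, by simpa using h, by simp⟩

theorem reach_nil {j : ℕ} {x : G} (H : Reach (0 : Multiset G) j x) : j = 0 ∧ x = 0 := by
  have h1 := H.le_card
  obtain ⟨Z, R, h1', h2, h3, h4⟩ := H
  have : R = 0 := by
    have := Multiset.card_le_card h3
    rw [Multiset.card_add] at this
    simp at this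
    exact this.2
  subst this
  exact ⟨by simpa using h1, by simpa using h4.symm⟩

/-- In a finite group a `b`-stable predicate is also `-b`-stable. -/
theorem stable_neg [Finite G] {P : G → Prop} {b : G} (h : ∀ x, P x → P (x + b)) {x : G} (hx : P x) :
    P (x - b) := by
  have h1 : ∀ k : ℕ, P (x + k • b) := by
    intro k
    induction k with
    | zero => simpa using hx
    | succ k ih =>
      rw [succ_nsmul, ← add_assoc]
      exact h _ ih
  have h2 : 0 < addOrderOf b := addOrderOf_pos b
  have h3 := h1 (addOrderOf b - 1)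
  have h4 : (addOrderOf b - 1) • b = - b := by
    rw [eq_neg_iff_add_eq_zero]
    have : (addOrderOf b - 1) • b + b = (addOrderOf b - 1 + 1) • b := (succ_nsmul b _).symm
    rw [this, Nat.sub_add_cancel h2, addOrderOf_nsmul_eq_zero]
  rwa [h4, ← sub_eq_add_neg] at h3

theorem stable_cl [Finite G] {P : G → Prop} {α : Multiset G}
    (h : ∀ b ∈ α, ∀ x, P x → P (x + b)) {y : G} (hy : y ∈ cl α) : ∀ x, P x → P (x + y) := by
  induction hy using AddSubgroup.closure_induction with
  | mem y hy => exact h y hy
  | zero => intro x hx; simpa using hx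
  | add y z _ _ ihy ihz =>
    intro x hx
    rw [← add_assoc]
    exact ihz _ (ihy _ hx)
  | neg y _ ih =>
    intro x hx
    rw [← sub_eq_add_neg]
    exact stable_neg ih hx

section nu

open Classical in
/-- The maximal number of disjoint nonempty zero-sum parts. -/
noncomputable def nu (α : Multiset G) : ℕ :=
  Nat.findGreatest (fun j => Reach α j 0) (Multiset.card α)

theorem reach_nu (α : Multiset G) : Reach α (nu α) 0 := by
  classical
  unfold nu
  exact Nat.findGreatest_spec (P := fun j => Reach α j 0) (Nat.zero_le _) (reach_zero_zero α)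

theorem Reach.le_nu {α : Multiset G} {j : ℕ} {x : G} (H : Reach α j x) : j ≤ nu α := by
  classical
  exact Nat.le_findGreatest H.le_card H.zero

theorem reach_sum_nu (α : Multiset G) : Reach α (nu α) α.sum := by
  simpa using (reach_nu α).symm

theorem nu_le_card (α : Multiset G) : nu α ≤ Multiset.card α := (reach_nu α).le_card

end nu

section count

variable [Fintype G]

open Classical in
/-- The set of all pairs `(j, x)` with `Reach α j x`. -/
noncomputable def S (α : Multiset G) : Finset (ℕ × G) :=
  (Finset.range (Multiset.card α + 1) ×ˢ Finset.univ).filter (fun p => Reach α p.1 p.2)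

theorem mem_S {α : Multiset G} {p : ℕ × G} : p ∈ S α ↔ Reach α p.1 p.2 := by
  classical
  unfold S
  rw [Finset.mem_filter, Finset.mem_product, Finset.mem_range]
  constructor
  · exact fun h => h.2
  · exact fun h => ⟨⟨Nat.lt_succ_of_le h.le_card, Finset.mem_univ _⟩, h⟩

/-- The number of pairs `(j, x)` with `Reach α j x`. -/
noncomputable def N (α : Multiset G) : ℕ := (S α).card

theorem S_mono {α β : Multiset G} (h : α ≤ β) : S α ⊆ S β := fun _ hp =>
  mem_S.2 ((mem_S.1 hp).mono h)

theorem N_mono {α β : Multiset G} (h : α ≤ β) : N α ≤ N β := Finset.card_le_card (S_mono h)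

/-- Growth lemma: a new element enlarges the set of pairs. -/
theorem exists_new (α : Multiset G) (b : G) : ∃ p, p ∈ S (b ::ₘ α) ∧ p ∉ S α := by
  by_contra hcon
  push Not at hcon
  have hst : ∀ x, Reach α (nu α) x → Reach α (nu α) (x + b) := by
    intro x hx
    have := hcon (nu α, x + b) (mem_S.2 (hx.shift b))
    exact mem_S.1 this
  have h1 : Reach α (nu α) (0 - b) := stable_neg hst (reach_nu α)
  rw [zero_sub] at h1
  have h2 := h1.close
  have h3 := mem_S.1 (hcon (nu α + 1, 0) (mem_S.2 h2))
  have := h3.le_nu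
  simp at this

theorem N_cons (α : Multiset G) (b : G) : N α + 1 ≤ N (b ::ₘ α) := by
  classical
  obtain ⟨p, hp, hp'⟩ := exists_new α b
  have h1 : insert p (S α) ⊆ S (b ::ₘ α) := by
    intro q hq
    rcases Finset.mem_insert.1 hq with rfl | hq
    · exact hp
    · exact S_mono (Multiset.le_cons_self α b) hq
  have h2 := Finset.card_le_card h1
  rw [Finset.card_insert_of_notMem hp'] at h2
  exact h2

theorem N_nil : N (0 : Multiset G) = 1 := by
  have : S (0 : Multiset G) = {(0, 0)} := by
    ext ⟨j, x⟩
    rw [mem_S, Finset.mem_singleton]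
    constructor
    · intro h
      obtain ⟨h1, h2⟩ := reach_nil h
      simp at h1 h2 ⊢
      exact ⟨h1, h2⟩
    · rintro ⟨rfl, rfl⟩
      exact reach_zero_zero 0
  unfold N
  rw [this, Finset.card_singleton]

theorem card_lt_N (α : Multiset G) : Multiset.card α + 1 ≤ N α := by
  induction α using Multiset.induction_on with
  | empty => simp [N_nil]
  | cons b α ih =>
    have h2 := N_cons α b
    rw [Multiset.card_cons]
    omega

/-- If the growth is at most one, two new pairs are equal. -/
theorem new_unique {α : Multiset G} {b : G} (h : N (b ::ₘ α) ≤ N α + 1) {p q : ℕ × G}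
    (hp : p ∈ S (b ::ₘ α)) (hp' : p ∉ S α) (hq : q ∈ S (b ::ₘ α)) (hq' : q ∉ S α) : p = q := by
  classical
  by_contra hpq
  have h1 : insert p (insert q (S α)) ⊆ S (b ::ₘ α) := by
    intro r hr
    rcases Finset.mem_insert.1 hr with rfl | hr
    · exact hp
    rcases Finset.mem_insert.1 hr with rfl | hr
    · exact hq
    · exact S_mono (Multiset.le_cons_self α b) hr
  have h2 := Finset.card_le_card h1
  rw [Finset.card_insert_of_notMem, Finset.card_insert_of_notMem hq'] at h2
  · unfold N at h
    omega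
  · rw [Finset.mem_insert]
    push Not
    exact ⟨hpq, hp'⟩

/-- If the growth is at most one, new pairs appear only at the top level. -/
theorem new_level {α : Multiset G} {b : G} (h : N (b ::ₘ α) ≤ N α + 1) {j : ℕ} {x : G}
    (hx : Reach (b ::ₘ α) j x) (hx' : ¬ Reach α j x) : j = nu (b ::ₘ α) := by
  by_contra hj
  have h1 : ∀ y, Reach (b ::ₘ α) (nu (b ::ₘ α)) y → Reach α (nu (b ::ₘ α)) y := by
    intro y hy
    by_contra hy'
    have := new_unique h (p := (j, x)) (q := (nu (b ::ₘ α), y)) (mem_S.2 hx)
      (fun h => hx' (mem_S.1 h)) (mem_S.2 hy) (fun h => hy' (mem_S.1 h))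
    exact hj (Prod.ext_iff.1 this).1
  have h2 : ∀ y, Reach α (nu (b ::ₘ α)) y → Reach α (nu (b ::ₘ α)) (y + b) :=
    fun y hy => h1 _ (hy.shift b)
  have h3 : Reach α (nu (b ::ₘ α)) (0 - b) := stable_neg h2 (h1 0 (reach_nu _))
  rw [zero_sub] at h3
  have h4 := h3.close.le_nu
  omega

/-- Structure when the growth is exactly one. -/
theorem growth_one {α : Multiset G} {b : G} (h : N (b ::ₘ α) ≤ N α + 1) :
    (∀ j, j < nu (b ::ₘ α) → ∀ x, Reach (b ::ₘ α) j x → Reach (b ::ₘ α) j (x + b)) ∧
    ((∀ x, Reach (b ::ₘ α) (nu (b ::ₘ α)) x → Reach (b ::ₘ α) (nu (b ::ₘ α)) (x + b)) ∨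
      (¬ Reach (b ::ₘ α) (nu (b ::ₘ α)) (-b) ∧
        ∀ x, Reach (b ::ₘ α) (nu (b ::ₘ α)) x →
          (Reach (b ::ₘ α) (nu (b ::ₘ α)) (x + b) ↔ x ≠ (b ::ₘ α).sum))) := by
  classical
  refine ⟨?_, ?_⟩
  · intro j hj x hx
    by_cases hx' : Reach α j x
    · exact hx'.shift b
    · exact absurd (new_level h hx hx') (by omega)
  · set α' := b ::ₘ α with hα'
    set v := nu α' with hv
    by_cases hst : ∀ x, Reach α' v x → Reach α' v (x + b)
    · exact Or.inl hst
    · right
      push Not at hst
      obtain ⟨y, hy, hyb⟩ := hst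
      have hyα : ¬ Reach α v y := fun h => hyb (h.shift b)
      have hother : ∀ x, Reach α' v x → x ≠ y → Reach α v x := by
        intro x hx hxy
        by_contra hx'
        have := new_unique h (p := (v, x)) (q := (v, y)) (mem_S.2 hx) (fun h => hx' (mem_S.1 h))
          (mem_S.2 hy) (fun h => hyα (mem_S.1 h))
        exact hxy (Prod.ext_iff.1 this).2
      have hneg : ¬ Reach α' v (-b) := by
        intro hb
        have h1 : -b ≠ y := by
          rintro rfl
          apply hyb
          rw [neg_add_cancel]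
          exact reach_nu α'
        have h2 := (hother _ hb h1).close.le_nu
        rw [← hα', ← hv] at h2
        omega
      have hσ : y = α'.sum := by
        by_contra hne
        have h1 := reach_sum_nu α'
        have h2 := (hother _ h1 (Ne.symm hne)).shift b
        have h3 := h2.symm
        rw [← hα'] at h3
        apply hneg
        have h4 : α'.sum - (α'.sum + b) = - b := by abel
        rwa [h4] at h3
      refine ⟨hneg, fun x hx => ⟨?_, ?_⟩⟩
      · rintro h rfl
        rw [← hσ] at h
        exact hyb h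
      · intro hx'
        rw [← hσ] at hx'
        exact (hother x hx hx').shift b

end count

end Pool.Agent.Helper75.Zss
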