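import Pool.Agent.Helper75.Zss.Poly

/-!
# Lattice polytopes with the integer decomposition property: the box points of a triangulation

A cone in five coordinates is given by a list `F` of inequalities. It is covered by simplicial
cones (`walk`), and in each simplicial cone the integer decomposition property is checked on the
finitely many points of the half-open parallelepiped (`Simp.ok`).
-/

namespace Pool.Agent.Helper75.Poly

/-! ## Functionals -/

theorem ext_dot {v w : V5} (h : ∀ f, dot f v = dot f w) : v = w := by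
  obtain ⟨a, b, c, d, e⟩ := v
  obtain ⟨a', b', c', d', e'⟩ := w
  have h1 := h ⟨1, 0, 0, 0, 0⟩
  have h2 := h ⟨0, 1, 0, 0, 0⟩
  have h3 := h ⟨0, 0, 1, 0, 0⟩
  have h4 := h ⟨0, 0, 0, 1, 0⟩
  have h5 := h ⟨0, 0, 0, 0, 1⟩
  simp only [dot, one_mul, zero_mul, add_zero, zero_add] at h1 h2 h3 h4 h5
  rw [h1, h2, h3, h4, h5]

theorem dot_smul (f v : V5) (c : ℤ) : dot f (V5.smul c v) = c * dot f v := by
  unfold dot V5.smul
  ring

theorem dot_zero (f : V5) : dot f V5.zero = 0 := by
  simp [dot, V5.zero]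

theorem dot_comb (f : V5) (L : List (ℤ × V5)) :
    dot f (comb L) = (L.map (fun p => p.1 * dot f p.2)).sum := by
  induction L with
  | nil => exact dot_zero f
  | cons p L ih =>
    obtain ⟨c, v⟩ := p
    have : comb ((c, v) :: L) = (V5.smul c v).add (comb L) := rfl
    rw [this, dot_add, dot_smul, ih, List.map_cons, List.sum_cons]

/-- Sum of a list of vectors. -/
def sumL : List V5 → V5
  | [] => V5.zero
  | u :: us => u.add (sumL us)

theorem dot_sumL (f : V5) (us : List V5) : dot f (sumL us) = (us.map (dot f)).sum := by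
  induction us with
  | nil => exact dot_zero f
  | cons u us ih =>
    have : sumL (u :: us) = u.add (sumL us) := rfl
    rw [this, dot_add, ih, List.map_cons, List.sum_cons]

/-- Rational combinations. -/
def evL (f : V5) (L : List (ℚ × V5)) : ℚ := (L.map (fun p => p.1 * (dot f p.2 : ℚ))).sum

theorem evL_cons (f : V5) (p : ℚ × V5) (L : List (ℚ × V5)) :
    evL f (p :: L) = p.1 * (dot f p.2 : ℚ) + evL f L := by
  simp [evL]

/-- A bounding certificate: `D g = ∑ be` with nonnegative coefficients. -/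
def bnd (F : List V5) (g : V5) (c : ℤ × List (ℤ × V5)) : Bool :=
  decide (0 < c.1) && c.2.all (fun p => decide (0 ≤ p.1) && decide (p.2 ∈ F)) &&
    decide (comb c.2 = g.smul c.1)

theorem bnd_sound {F : List V5} {g : V5} {c : ℤ × List (ℤ × V5)} (h : bnd F g c = true) {w : Q5}
    (hF : ∀ f ∈ F, 0 ≤ ev f w) : 0 ≤ ev g w := by
  unfold bnd at h
  rw [Bool.and_eq_true, Bool.and_eq_true, decide_eq_true_eq, List.all_eq_true,
    decide_eq_true_eq] at h
  obtain ⟨⟨h1, h2⟩, h3⟩ := h
  have h5 : 0 ≤ ev (comb c.2) w := ev_comb_nonneg (fun p hp => by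
    have := h2 p hp
    rw [Bool.and_eq_true, decide_eq_true_eq, decide_eq_true_eq] at this
    exact ⟨this.1, hF _ this.2⟩)
  rw [h3, ev_smul] at h5
  have h6 : (0 : ℚ) < (c.1 : ℚ) := by exact_mod_cast h1
  by_contra hcon
  push Not at hcon
  have := mul_neg_of_pos_of_neg h6 hcon
  linarith

/-! ## Vectors with natural coordinates, for fast evaluation -/

/-- Vectors of natural numbers in five coordinates. -/
structure N5 where
  k : ℕ
  l : ℕ
  x : ℕ
  y : ℕ
  z : ℕ

def N5.toV (a : N5) : V5 := ⟨.ofNat a.k, .ofNat a.l, .ofNat a.x, .ofNat a.y, .ofNat a.z⟩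

def dotN (a b : N5) : ℕ :=
  Nat.add (Nat.mul a.k b.k) (Nat.add (Nat.mul a.l b.l) (Nat.add (Nat.mul a.x b.x)
    (Nat.add (Nat.mul a.y b.y) (Nat.mul a.z b.z))))

/-- `t v + a`. -/
def addM (t : ℕ) (v a : N5) : N5 :=
  ⟨Nat.add (Nat.mul t v.k) a.k, Nat.add (Nat.mul t v.l) a.l, Nat.add (Nat.mul t v.x) a.x,
    Nat.add (Nat.mul t v.y) a.y, Nat.add (Nat.mul t v.z) a.z⟩

def zero5 : N5 := ⟨0, 0, 0, 0, 0⟩

def sumN : List N5 → N5
  | [] => zero5
  | u :: us => addM 1 u (sumN us)

def beq5 (a b : N5) : Bool :=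
  Nat.beq a.k b.k && (Nat.beq a.l b.l && (Nat.beq a.x b.x && (Nat.beq a.y b.y && Nat.beq a.z b.z)))

def eqL : List N5 → List N5 → Bool
  | [], [] => true
  | a :: as, b :: bs => beq5 a b && eqL as bs
  | _, _ => false

theorem eq_of_beq5 {a b : N5} (h : beq5 a b = true) : a = b := by
  unfold beq5 at h
  simp only [Bool.and_eq_true] at h
  obtain ⟨a1, a2, a3, a4, a5⟩ := a
  obtain ⟨b1, b2, b3, b4, b5⟩ := b
  obtain ⟨h1, h2, h3, h4, h5⟩ := h
  replace h1 := Nat.eq_of_beq_eq_true h1
  replace h2 := Nat.eq_of_beq_eq_true h2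
  replace h3 := Nat.eq_of_beq_eq_true h3
  replace h4 := Nat.eq_of_beq_eq_true h4
  replace h5 := Nat.eq_of_beq_eq_true h5
  simp only at h1 h2 h3 h4 h5
  rw [h1, h2, h3, h4, h5]

theorem eq_of_eqL : ∀ {as bs : List N5}, eqL as bs = true → as = bs
  | [], [], _ => rfl
  | a :: as, b :: bs, h => by
    unfold eqL at h
    rw [Bool.and_eq_true] at h
    rw [eq_of_beq5 h.1, eq_of_eqL h.2]
  | [], _ :: _, h => by simp [eqL] at h
  | _ :: _, [], h => by simp [eqL] at h

theorem toV_addM (t : ℕ) (v a : N5) : (addM t v a).toV = (V5.smul t v.toV).add a.toV := by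
  unfold addM N5.toV V5.smul V5.add
  simp

theorem toV_zero : zero5.toV = V5.zero := rfl

theorem toV_sumN (us : List N5) : (sumN us).toV = sumL (us.map N5.toV) := by
  induction us with
  | nil => rfl
  | cons u us ih =>
    have h1 : sumN (u :: us) = addM 1 u (sumN us) := rfl
    have h2 : sumL ((u :: us).map N5.toV) = u.toV.add (sumL (us.map N5.toV)) := rfl
    rw [h1, toV_addM, ih, h2]
    congr 1
    unfold V5.smul N5.toV
    simp

theorem dot_toV (a b : N5) : dot a.toV b.toV = (dotN a b : ℤ) := by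
  unfold dot N5.toV dotN
  simp
  ring

/-- A vertex `v` of a simplicial cone, its dual functional `g` and the reduction `h` of `g`. -/
structure Gen where
  g : V5
  h : N5
  v : N5

def congr (D : ℤ) (g : V5) (h : N5) : Bool :=
  decide ((g.k - h.k) % D = 0 ∧ (g.l - h.l) % D = 0 ∧ (g.x - h.x) % D = 0 ∧
    (g.y - h.y) % D = 0 ∧ (g.z - h.z) % D = 0)

theorem congr_sound {D : ℤ} {g : V5} {h : N5} (H : congr D g h = true) (c : N5) :
    dot g c.toV % D = (dotN h c : ℤ) % D := by
  unfold congr at H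
  rw [decide_eq_true_eq] at H
  obtain ⟨h1, h2, h3, h4, h5⟩ := H
  obtain ⟨q1, q1'⟩ := Int.dvd_of_emod_eq_zero h1
  obtain ⟨q2, q2'⟩ := Int.dvd_of_emod_eq_zero h2
  obtain ⟨q3, q3'⟩ := Int.dvd_of_emod_eq_zero h3
  obtain ⟨q4, q4'⟩ := Int.dvd_of_emod_eq_zero h4
  obtain ⟨q5, q5'⟩ := Int.dvd_of_emod_eq_zero h5
  rw [← dot_toV]
  have : dot g c.toV = dot h.toV c.toV + D * (q1 * c.k + q2 * c.l + q3 * c.x + q4 * c.y +
      q5 * c.z) := by
    unfold dot N5.toV
    simp only [Int.ofNat_eq_natCast]
    linear_combination (c.k : ℤ) * q1' + (c.l : ℤ) * q2' + (c.x : ℤ) * q3' + (c.y : ℤ) * q4' +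
      (c.z : ℤ) * q5'
  rw [this, Int.add_mul_emod_self_left]

/-- The combination of the vertices with the coefficients `h c mod D`. -/
def combN (D : ℕ) (c : N5) : List Gen → N5
  | [] => zero5
  | p :: L => addM (Nat.mod (dotN p.h c) D) p.v (combN D c L)

theorem toV_combN {D : ℕ} {c : N5} {L : List Gen} (h : ∀ p ∈ L, congr D p.g p.h = true) :
    (combN D c L).toV = comb (L.map (fun p => (dot p.g c.toV % (D : ℤ), p.v.toV))) := by
  induction L with
  | nil => rfl
  | cons p L ih =>
    have h1 : combN D c (p :: L) = addM (Nat.mod (dotN p.h c) D) p.v (combN D c L) := rfl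
    have h2 : comb ((p :: L).map (fun p => (dot p.g c.toV % (D : ℤ), p.v.toV))) =
      (V5.smul (dot p.g c.toV % (D : ℤ)) p.v.toV).add
        (comb (L.map (fun p => (dot p.g c.toV % (D : ℤ), p.v.toV)))) := rfl
    rw [h1, toV_addM, h2, ih (fun p hp => h p (List.mem_cons_of_mem _ hp)),
      congr_sound (h p List.mem_cons_self)]
    congr 2

/-! ## The walk through the faces -/

/-- The `i`-th functional. -/
def idx (F : List V5) (i : ℕ) : V5 := F.getD i V5.zero

theorem idx_mem (F : List V5) (i : ℕ) : idx F i ∈ F ∨ idx F i = V5.zero := by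
  unfold idx
  rw [List.getD_eq_getElem?_getD]
  cases h : F[i]? with
  | none => right; rfl
  | some f =>
    left
    exact List.mem_of_getElem? h

theorem ev_zero (w : Q5) : ev V5.zero w = 0 := by
  simp [ev, V5.zero]

theorem ev_idx_nonneg {F : List V5} {w : Q5} (hF : ∀ f ∈ F, 0 ≤ ev f w) (i : ℕ) :
    0 ≤ ev (idx F i) w := by
  rcases idx_mem F i with h | h
  · exact hF _ h
  · rw [h, ev_zero]

def combI (F : List V5) (L : List (ℤ × ℕ)) : V5 := comb (L.map (fun p => (p.1, idx F p.2)))

/-- Certificate that the face where the functionals in `mask` vanish is zero. -/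
structure FCert where
  mask : ℕ
  al : List (ℤ × ℕ)
  be : List (ℤ × ℕ)
  D : ℤ

def FCert.valid (F : List V5) (c : FCert) : Bool :=
  decide (0 < c.D) && c.al.all (fun p => c.mask.testBit p.2) &&
    c.be.all (fun p => decide (0 ≤ p.1)) &&
    decide (combI F c.al = (⟨c.D, 0, 0, 0, 0⟩ : V5).add (combI F c.be))

theorem FCert.sound {F : List V5} {c : FCert} (h : c.valid F = true) {w : Q5}
    (hF : ∀ i, 0 ≤ ev (idx F i) w) (h0 : ∀ i, c.mask.testBit i = true → ev (idx F i) w = 0) :
    w.k ≤ 0 := by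
  unfold FCert.valid at h
  simp only [Bool.and_eq_true, List.all_eq_true, decide_eq_true_eq] at h
  obtain ⟨⟨⟨h1, h2⟩, h3⟩, h4⟩ := h
  have h5 : ev (combI F c.al) w = 0 := by
    apply ev_comb_eq_zero
    intro p hp
    obtain ⟨q, hq, rfl⟩ := List.mem_map.1 hp
    exact h0 _ (h2 q hq)
  have h6 : 0 ≤ ev (combI F c.be) w := by
    apply ev_comb_nonneg
    intro p hp
    obtain ⟨q, hq, rfl⟩ := List.mem_map.1 hp
    exact ⟨h3 q hq, hF _⟩
  have h7 : ev (combI F c.al) w = c.D * w.k + ev (combI F c.be) w := by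
    rw [h4]
    unfold ev V5.add
    push_cast
    ring
  have h8 : (0 : ℚ) < (c.D : ℚ) := by exact_mod_cast h1
  have h9 : (c.D : ℚ) * w.k ≤ 0 := by linarith
  by_contra hcon
  push Not at hcon
  have := mul_pos h8 hcon
  linarith

/-- A simplicial cone with its box points. -/
structure Simp where
  mask : ℕ
  gens : List Gen
  D : ℕ
  h1 : V5
  h2 : V5
  h3 : V5
  h4 : V5
  h5 : V5
  dec : List ℕ

/-- The dual functionals and the vertices. -/
def Simp.gv (t : Simp) : List (V5 × V5) := t.gens.map (fun p => (p.g, p.v.toV))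

/-- All data of a cone. The vertices come with the bit mask of the functionals that vanish. -/
structure Fan where
  F : List V5
  V : List (V5 × ℕ)
  C : List FCert
  T : List Simp
  UN : List N5
  hx : ℕ
  hy : ℕ
  hz : ℕ
  hl : ℕ
  /-- certificates for `0 ≤ x, y, z, l` and the upper bounds -/
  bx : ℤ × List (ℤ × V5)
  bx' : ℤ × List (ℤ × V5)
  bY : ℤ × List (ℤ × V5)
  bY' : ℤ × List (ℤ × V5)
  bz : ℤ × List (ℤ × V5)
  bz' : ℤ × List (ℤ × V5)
  bl : ℤ × List (ℤ × V5)
  bl' : ℤ × List (ℤ × V5)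
  /-- the depth of the walk -/
  r : ℕ

def findZ : List (V5 × ℕ) → ℕ → ℕ → Option (ℕ × V5 × ℕ)
  | [], _, _ => none
  | p :: V, n, J => if Nat.beq (p.2 &&& J) J then some (n, p) else findZ V (n + 1) J

theorem findZ_sound {V : List (V5 × ℕ)} {n J : ℕ} {q : ℕ × V5 × ℕ} (h : findZ V n J = some q) :
    n ≤ q.1 ∧ V[q.1 - n]? = some q.2 ∧ q.2.2 &&& J = J := by
  induction V generalizing n with
  | nil => simp [findZ] at h
  | cons p V ih =>
    unfold findZ at h
    split_ifs at h with hp
    · have := Option.some.inj h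
      subst this
      refine ⟨le_rfl, by simp, Nat.eq_of_beq_eq_true hp⟩
    · obtain ⟨h1, h2, h3⟩ := ih h
      refine ⟨by omega, ?_, h3⟩
      have : q.1 - n = (q.1 - (n + 1)) + 1 := by omega
      rw [this, List.getElem?_cons_succ]
      exact h2

def leaf (C : List FCert) (T : List Simp) (J P : ℕ) : Bool :=
  C.any (fun c => Nat.beq (J &&& c.mask) c.mask) && T.any (fun t => Nat.beq (P &&& t.mask) P)

def walk (n : ℕ) (V : List (V5 × ℕ)) (C : List FCert) (T : List Simp) : ℕ → ℕ → ℕ → Bool
  | 0, J, P => leaf C T J P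
  | d + 1, J, P => leaf C T J P ||
      match findZ V 0 J with
      | none => false
      | some q => (List.range n).all (fun i => q.2.2.testBit i ||
          walk n V C T d (J ||| (1 <<< i)) (P ||| (1 <<< q.1)))

theorem testBit_of_land {a b i : ℕ} (h : a &&& b = b) (hb : b.testBit i = true) :
    a.testBit i = true := by
  rw [← h, Nat.testBit_land, Bool.and_eq_true] at hb
  exact hb.1

theorem testBit_or_one {J i j : ℕ} (h : (J ||| (1 <<< i)).testBit j = true) :
    J.testBit j = true ∨ j = i := by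
  rw [Nat.testBit_lor, Bool.or_eq_true] at h
  rcases h with h | h
  · exact Or.inl h
  · right
    rw [Nat.shiftLeft_eq, one_mul, Nat.testBit_two_pow] at h
    exact (of_decide_eq_true h).symm

theorem one_shift_testBit (i : ℕ) : (1 <<< i : ℕ).testBit i = true := by
  rw [Nat.shiftLeft_eq, one_mul, Nat.testBit_two_pow_self]

/-- The masks are right. -/
def okV (F : List V5) (V : List (V5 × ℕ)) : Bool :=
  V.all (fun p => decide (p.1.k = 1) &&
    (List.range F.length).all (fun i => decide (0 ≤ dot (idx F i) p.1) &&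
      decide (p.2.testBit i = decide (dot (idx F i) p.1 = 0))) &&
    (List.range F.length).any (fun i => !p.2.testBit i))

theorem walk_sound {F : List V5} {V : List (V5 × ℕ)} {C : List FCert} {T : List Simp}
    (hV : okV F V = true) (hC : ∀ c ∈ C, c.valid F = true)
    (hpt : ∀ w : Q5, (∀ f ∈ F, 0 ≤ ev f w) → w.k ≤ 0 → ∀ f, ev f w = 0) :
    ∀ (d J P : ℕ), walk F.length V C T d J P = true →
    ∀ w : Q5, (∀ f ∈ F, 0 ≤ ev f w) → (∀ i, J.testBit i = true → ev (idx F i) w = 0) →
    ∃ t ∈ T, (∀ j, P.testBit j = true → t.mask.testBit j = true) ∧ ∃ L : List (ℚ × V5),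
      (∀ p ∈ L, 0 ≤ p.1 ∧ ∃ j z, V[j]? = some (p.2, z) ∧ t.mask.testBit j = true) ∧
      ∀ f, ev f w = evL f L := by
  have hleaf : ∀ J P : ℕ, leaf C T J P = true → ∀ w : Q5, (∀ f ∈ F, 0 ≤ ev f w) →
      (∀ i, J.testBit i = true → ev (idx F i) w = 0) →
      ∃ t ∈ T, (∀ j, P.testBit j = true → t.mask.testBit j = true) ∧ ∃ L : List (ℚ × V5),
        (∀ p ∈ L, 0 ≤ p.1 ∧ ∃ j z, V[j]? = some (p.2, z) ∧ t.mask.testBit j = true) ∧
        ∀ f, ev f w = evL f L := by
    intro J P h w hF hJ
    unfold leaf at h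
    rw [Bool.and_eq_true, List.any_eq_true, List.any_eq_true] at h
    obtain ⟨⟨c, hc, hcJ⟩, ⟨t, ht, htP⟩⟩ := h
    have hcJ' := Nat.eq_of_beq_eq_true hcJ
    have htP' := Nat.eq_of_beq_eq_true htP
    refine ⟨t, ht, ?_, [], by simp, ?_⟩
    · intro j hj
      rw [Nat.land_comm] at htP'
      exact testBit_of_land htP' hj
    · intro f
      have hk : w.k ≤ 0 := FCert.sound (hC c hc) (ev_idx_nonneg hF)
        (fun i hi => hJ i (testBit_of_land hcJ' hi))
      rw [hpt w hF hk f]
      simp [evL]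
  intro d
  induction d with
  | zero =>
    intro J P h w hF hJ
    exact hleaf J P h w hF hJ
  | succ d ih =>
    intro J P h w hF hJ
    unfold walk at h
    rw [Bool.or_eq_true] at h
    rcases h with h | h
    · exact hleaf J P h w hF hJ
    · cases hfind : findZ V 0 J with
      | none =>
        rw [hfind] at h
        simp at h
      | some q =>
        rw [hfind] at h
        obtain ⟨j, v, z⟩ := q
        obtain ⟨-, hjv, hzJ⟩ := findZ_sound hfind
        simp only [Nat.sub_zero] at hjv hzJ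
        simp only [List.all_eq_true, List.mem_range, Bool.or_eq_true] at h
        have hvV : (v, z) ∈ V := List.mem_of_getElem? hjv
        unfold okV at hV
        rw [List.all_eq_true] at hV
        have hv := hV (v, z) hvV
        simp only [Bool.and_eq_true, List.all_eq_true, List.mem_range, decide_eq_true_eq,
          List.any_eq_true, Bool.not_eq_true'] at hv
        obtain ⟨⟨hvk, hvF⟩, i₀, hi₀, hzi₀⟩ := hv
        -- positive functionals
        have hpos : ∀ i < F.length, z.testBit i = false → 0 < dot (idx F i) v := by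
          intro i hi hzi
          obtain ⟨h1, h2⟩ := hvF i hi
          rw [hzi] at h2
          have h3 : dot (idx F i) v ≠ 0 := by
            intro h3
            rw [h3] at h2
            simp at h2
          omega
        have hzero : ∀ i < F.length, z.testBit i = true → dot (idx F i) v = 0 := by
          intro i hi hzi
          obtain ⟨h1, h2⟩ := hvF i hi
          rw [hzi] at h2
          simpa using h2.symm
        have hzero' : ∀ i, z.testBit i = true → dot (idx F i) v = 0 := by
          intro i hzi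
          rcases Nat.lt_or_ge i F.length with hi | hi
          · exact hzero i hi hzi
          · have : idx F i = V5.zero := by
              unfold idx
              rw [List.getD_eq_default _ _ hi]
            rw [this]
            simp [dot, V5.zero]
        obtain ⟨g, hg, hgmin⟩ := Finset.exists_min_image
          ((Finset.range F.length).filter (fun i => z.testBit i = false))
          (fun i => ev (idx F i) w / (dot (idx F i) v : ℚ))
          ⟨i₀, by rw [Finset.mem_filter, Finset.mem_range]; exact ⟨hi₀, hzi₀⟩⟩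
        rw [Finset.mem_filter, Finset.mem_range] at hg
        have hgpos : (0 : ℚ) < (dot (idx F g) v : ℚ) := by exact_mod_cast hpos g hg.1 hg.2
        set μ := ev (idx F g) w / (dot (idx F g) v : ℚ) with hμ
        have hμ0 : 0 ≤ μ := div_nonneg (ev_idx_nonneg hF g) hgpos.le
        have hF' : ∀ f ∈ F, 0 ≤ ev f (w.subMul μ v) := by
          intro f hf
          obtain ⟨i, hi, rfl⟩ : ∃ i < F.length, idx F i = f := by
            obtain ⟨i, hi, hif⟩ := List.mem_iff_getElem.1 hf
            refine ⟨i, hi, ?_⟩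
            unfold idx
            rw [List.getD_eq_getElem _ _ hi, hif]
          rw [ev_subMul]
          cases hzi : z.testBit i with
          | true =>
            rw [hzero i hi hzi]
            simpa using ev_idx_nonneg hF i
          | false =>
            have h1 := hgmin i (by
              rw [Finset.mem_filter, Finset.mem_range]
              exact ⟨hi, hzi⟩)
            have h2 : (0 : ℚ) < (dot (idx F i) v : ℚ) := by exact_mod_cast hpos i hi hzi
            have h3 : μ * (dot (idx F i) v : ℚ) ≤ ev (idx F i) w := by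
              rw [← le_div_iff₀ h2]
              exact h1
            linarith
        have hJ' : ∀ i, (J ||| (1 <<< g)).testBit i = true →
            ev (idx F i) (w.subMul μ v) = 0 := by
          intro i hi
          rw [ev_subMul]
          rcases testBit_or_one hi with hi | rfl
          · rw [hJ i hi, hzero' i (testBit_of_land hzJ hi)]
            simp
          · rw [hμ]
            field_simp
            ring
        obtain ⟨t, ht, htP, L, hL, hLf⟩ := ih _ _ (by
            rcases h g hg.1 with h | h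
            · rw [hg.2] at h
              exact absurd h (by simp)
            · exact h) (w.subMul μ v) hF' hJ'
        have htj : t.mask.testBit j = true := by
          apply htP
          rw [Nat.testBit_lor, one_shift_testBit, Bool.or_true]
        refine ⟨t, ht, ?_, (μ, v) :: L, ?_, ?_⟩
        · intro i hi
          apply htP
          rw [Nat.testBit_lor, hi, Bool.true_or]
        · intro p hp
          rcases List.mem_cons.1 hp with rfl | hp
          · exact ⟨hμ0, j, z, hjv, htj⟩
          · exact hL p hp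
        · intro f
          rw [evL_cons, ← hLf f, ev_subMul]
          ring

/-! ## Box points -/

/-- Look up indices in a list. -/
def nth : List N5 → ℕ → List N5
  | [], _ => []
  | u :: us, i => bif Nat.beq i 0 then [u] else nth us (Nat.sub i 1)

theorem nth_mem {U : List N5} {i : ℕ} : ∀ u ∈ nth U i, u ∈ U := by
  induction U generalizing i with
  | nil => simp [nth]
  | cons v U ih =>
    intro u hu
    unfold nth at hu
    cases h : Nat.beq i 0 with
    | true =>
      rw [h, cond_true, List.mem_singleton] at hu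
      rw [hu]
      exact List.mem_cons_self
    | false =>
      rw [h, cond_false] at hu
      exact List.mem_cons_of_mem _ (ih u hu)

/-- Look up a list of indices, coded in base `1024`. -/
def look (U : List N5) : ℕ → ℕ → List N5
  | 0, _ => []
  | f + 1, n => bif Nat.beq n 0 then [] else
      nth U (Nat.sub (Nat.mod n 1024) 1) ++ look U f (Nat.div n 1024)

theorem look_mem {U : List N5} {f n : ℕ} : ∀ u ∈ look U f n, u ∈ U := by
  induction f generalizing n with
  | zero => simp [look]
  | succ f ih =>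
    intro u hu
    unfold look at hu
    cases h : Nat.beq n 0 with
    | true =>
      rw [h, cond_true] at hu
      simp at hu
    | false =>
      rw [h, cond_false] at hu
      rcases List.mem_append.1 hu with h | h
      · exact nth_mem u h
      · exact ih u h

def memN (u : N5) : List N5 → Bool
  | [] => false
  | v :: U => beq5 u v || memN u U

theorem mem_of_memN {u : N5} {U : List N5} (h : memN u U = true) : u ∈ U := by
  induction U with
  | nil => simp [memN] at h
  | cons v U ih =>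
    unfold memN at h
    rw [Bool.or_eq_true] at h
    rcases h with h | h
    · rw [eq_of_beq5 h]
      exact List.mem_cons_self
    · exact List.mem_cons_of_mem _ (ih h)

/-- `P` holds for all pairs; the first list is not longer than the second. -/
def zipAll {α β : Type} (P : α → β → Bool) : List α → List β → Bool
  | [], _ => true
  | _ :: _, [] => false
  | a :: as, b :: bs => P a b && zipAll P as bs

theorem zipAll_sound {α β : Type} {P : α → β → Bool} {as : List α} {bs : List β}
    (h : zipAll P as bs = true) {a : α} (ha : a ∈ as) : ∃ b, P a b = true := by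
  induction as generalizing bs with
  | nil => simp at ha
  | cons a' as ih =>
    cases bs with
    | nil => simp [zipAll] at h
    | cons b bs =>
      unfold zipAll at h
      rw [Bool.and_eq_true] at h
      rcases List.mem_cons.1 ha with rfl | ha
      · exact ⟨b, h.1⟩
      · exact ih h.2 ha

/-- The representatives `0 ≤ c < d`. -/
def reps (d1 d2 d3 d4 d5 : ℕ) : List N5 :=
  (List.range d1).flatMap fun a => (List.range d2).flatMap fun b => (List.range d3).flatMap fun c =>
    (List.range d4).flatMap fun d => (List.range d5).map fun e => (⟨a, b, c, d, e⟩ : N5)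

theorem mem_reps {d1 d2 d3 d4 d5 : ℕ} {c : V5} (h1 : 0 ≤ c.k ∧ c.k < d1) (h2 : 0 ≤ c.l ∧ c.l < d2)
    (h3 : 0 ≤ c.x ∧ c.x < d3) (h4 : 0 ≤ c.y ∧ c.y < d4) (h5 : 0 ≤ c.z ∧ c.z < d5) :
    ∃ n ∈ reps d1 d2 d3 d4 d5, n.toV = c := by
  obtain ⟨k, l, x, y, z⟩ := c
  simp only at h1 h2 h3 h4 h5
  obtain ⟨k, rfl⟩ := Int.eq_ofNat_of_zero_le h1.1
  obtain ⟨l, rfl⟩ := Int.eq_ofNat_of_zero_le h2.1
  obtain ⟨x, rfl⟩ := Int.eq_ofNat_of_zero_le h3.1
  obtain ⟨y, rfl⟩ := Int.eq_ofNat_of_zero_le h4.1
  obtain ⟨z, rfl⟩ := Int.eq_ofNat_of_zero_le h5.1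
  refine ⟨⟨k, l, x, y, z⟩, ?_, rfl⟩
  unfold reps
  simp only [List.mem_flatMap, List.mem_range, List.mem_map]
  refine ⟨k, ?_, l, ?_, x, ?_, y, ?_, z, ?_, rfl⟩ <;> omega

/-- The vertices of a simplicial cone. -/
def Simp.vs (t : Simp) : List V5 := t.gv.map Prod.snd

/-- The combination with the coefficients `dot g w`. -/
def Simp.cf (t : Simp) (e : ℤ → ℤ) (w : V5) : V5 :=
  comb (t.gv.map (fun p => (e (dot p.1 w), p.2)))

def Simp.boxOk (t : Simp) (U : List N5) : Bool :=
  zipAll (fun c s => beq5 (combN t.D c t.gens) (addM t.D (sumN (look U 5 s)) zero5))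
    (reps t.h1.k.toNat t.h2.l.toNat t.h3.x.toNat t.h4.y.toNat t.h5.z.toNat) t.dec

def Simp.ok (t : Simp) (U : List N5) (V : List (V5 × ℕ)) : Bool :=
  decide (0 < t.D) && t.gens.all (fun p => memN p.v U && congr t.D p.g p.h) &&
  t.gv.all (fun q => t.gv.all (fun p => decide (0 ≤ dot p.1 q.2)) &&
    decide (t.cf id q.2 = V5.smul t.D q.2)) &&
  decide (0 < t.h1.k) && decide (t.h2.k = 0 ∧ 0 < t.h2.l) &&
  decide (t.h3.k = 0 ∧ t.h3.l = 0 ∧ 0 < t.h3.x) &&
  decide (t.h4.k = 0 ∧ t.h4.l = 0 ∧ t.h4.x = 0 ∧ 0 < t.h4.y) &&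
  decide (t.h5.k = 0 ∧ t.h5.l = 0 ∧ t.h5.x = 0 ∧ t.h5.y = 0 ∧ 0 < t.h5.z) &&
  t.gv.all (fun p => decide (dot p.1 t.h1 % (t.D : ℤ) = 0) && decide (dot p.1 t.h2 % (t.D : ℤ) = 0) &&
    decide (dot p.1 t.h3 % (t.D : ℤ) = 0) && decide (dot p.1 t.h4 % (t.D : ℤ) = 0) &&
    decide (dot p.1 t.h5 % (t.D : ℤ) = 0)) &&
  (List.range V.length).all (fun j => !t.mask.testBit j ||
    match V[j]? with
    | some p => decide (p.1 ∈ t.vs)
    | none => true) &&
  t.boxOk U

theorem exists_rep {h1 h2 h3 h4 h5 : V5} (e1 : 0 < h1.k) (e2 : h2.k = 0 ∧ 0 < h2.l)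
    (e3 : h3.k = 0 ∧ h3.l = 0 ∧ 0 < h3.x) (e4 : h4.k = 0 ∧ h4.l = 0 ∧ h4.x = 0 ∧ 0 < h4.y)
    (e5 : h5.k = 0 ∧ h5.l = 0 ∧ h5.x = 0 ∧ h5.y = 0 ∧ 0 < h5.z) (w : V5) :
    ∃ (c : N5) (n1 n2 n3 n4 n5 : ℤ), c ∈ reps h1.k.toNat h2.l.toNat h3.x.toNat h4.y.toNat
      h5.z.toNat ∧ ∀ f, dot f w = dot f c.toV + n1 * dot f h1 + n2 * dot f h2 + n3 * dot f h3 +
        n4 * dot f h4 + n5 * dot f h5 := by
  set n1 := w.k / h1.k with hn1
  set w1 := w.sub (V5.smul n1 h1) with hw1
  set n2 := w1.l / h2.l with hn2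
  set w2 := w1.sub (V5.smul n2 h2) with hw2
  set n3 := w2.x / h3.x with hn3
  set w3 := w2.sub (V5.smul n3 h3) with hw3
  set n4 := w3.y / h4.y with hn4
  set w4 := w3.sub (V5.smul n4 h4) with hw4
  set n5 := w4.z / h5.z with hn5
  set w5 := w4.sub (V5.smul n5 h5) with hw5
  have key : ∀ a b : ℤ, 0 < b → 0 ≤ a - a / b * b ∧ a - a / b * b < b := by
    intro a b hb
    have h1 := Int.emod_nonneg a (ne_of_gt hb)
    have h2 := Int.emod_lt_of_pos a hb
    have h3 := Int.emod_add_mul_ediv a b
    constructor <;> nlinarith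
  have k1 : w1.k = w.k - n1 * h1.k := rfl
  have k2 : w2.k = w1.k := by
    have : w2.k = w1.k - n2 * h2.k := rfl
    rw [this, e2.1]
    ring
  have k3 : w3.k = w2.k := by
    have : w3.k = w2.k - n3 * h3.k := rfl
    rw [this, e3.1]
    ring
  have k4 : w4.k = w3.k := by
    have : w4.k = w3.k - n4 * h4.k := rfl
    rw [this, e4.1]
    ring
  have k5 : w5.k = w4.k := by
    have : w5.k = w4.k - n5 * h5.k := rfl
    rw [this, e5.1]
    ring
  have l2 : w2.l = w1.l - n2 * h2.l := rfl
  have l3 : w3.l = w2.l := by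
    have : w3.l = w2.l - n3 * h3.l := rfl
    rw [this, e3.2.1]
    ring
  have l4 : w4.l = w3.l := by
    have : w4.l = w3.l - n4 * h4.l := rfl
    rw [this, e4.2.1]
    ring
  have l5 : w5.l = w4.l := by
    have : w5.l = w4.l - n5 * h5.l := rfl
    rw [this, e5.2.1]
    ring
  have x3 : w3.x = w2.x - n3 * h3.x := rfl
  have x4 : w4.x = w3.x := by
    have : w4.x = w3.x - n4 * h4.x := rfl
    rw [this, e4.2.2.1]
    ring
  have x5 : w5.x = w4.x := by
    have : w5.x = w4.x - n5 * h5.x := rfl
    rw [this, e5.2.2.1]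
    ring
  have y4 : w4.y = w3.y - n4 * h4.y := rfl
  have y5 : w5.y = w4.y := by
    have : w5.y = w4.y - n5 * h5.y := rfl
    rw [this, e5.2.2.2.1]
    ring
  have z5 : w5.z = w4.z - n5 * h5.z := rfl
  obtain ⟨c, hc, hcw⟩ : ∃ n ∈ reps h1.k.toNat h2.l.toNat h3.x.toNat h4.y.toNat h5.z.toNat,
      n.toV = w5 := by
    apply mem_reps
    · rw [k5, k4, k3, k2, k1, hn1]
      have := key w.k h1.k e1
      omega
    · rw [l5, l4, l3, l2, hn2]
      have := key w1.l h2.l e2.2
      omega
    · rw [x5, x4, x3, hn3]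
      have := key w2.x h3.x e3.2.2
      omega
    · rw [y5, y4, hn4]
      have := key w3.y h4.y e4.2.2.2
      omega
    · rw [z5, hn5]
      have := key w4.z h5.z e5.2.2.2.2
      omega
  refine ⟨c, n1, n2, n3, n4, n5, hc, ?_⟩
  · intro f
    rw [hcw, hw5, dot_sub, dot_smul, hw4, dot_sub, dot_smul, hw3, dot_sub, dot_smul, hw2, dot_sub,
      dot_smul, hw1, dot_sub, dot_smul]
    ring

theorem sum_map_add {α : Type} (L : List α) (f g : α → ℤ) :
    (L.map (fun a => f a + g a)).sum = (L.map f).sum + (L.map g).sum := by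
  induction L with
  | nil => simp
  | cons a L ih =>
    rw [List.map_cons, List.sum_cons, ih, List.map_cons, List.sum_cons, List.map_cons,
      List.sum_cons]
    ring

theorem sum_map_mul {α : Type} (L : List α) (c : ℤ) (f : α → ℤ) :
    (L.map (fun a => c * f a)).sum = c * (L.map f).sum := by
  induction L with
  | nil => simp
  | cons a L ih =>
    rw [List.map_cons, List.sum_cons, ih, List.map_cons, List.sum_cons]
    ring

theorem dot_cf (t : Simp) (e : ℤ → ℤ) (f w : V5) :
    dot f (t.cf e w) = (t.gv.map (fun p => e (dot p.1 w) * dot f p.2)).sum := by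
  unfold Simp.cf
  rw [dot_comb, List.map_map]
  rfl

/-- Repeated vectors. -/
def rept (L : List (V5 × V5)) (n : V5 × V5 → ℕ) : List V5 :=
  L.flatMap (fun p => List.replicate (n p) p.2)

theorem dot_rept (f : V5) (L : List (V5 × V5)) (n : V5 × V5 → ℕ) :
    dot f (sumL (rept L n)) = (L.map (fun p => (n p : ℤ) * dot f p.2)).sum := by
  rw [dot_sumL]
  unfold rept
  induction L with
  | nil => simp
  | cons p L ih =>
    rw [List.flatMap_cons, List.map_append, List.sum_append, ih, List.map_cons, List.sum_cons,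
      List.map_replicate, List.sum_replicate, nsmul_eq_mul]

theorem level_sumL {us : List V5} (h : ∀ u ∈ us, u.k = 1) : (sumL us).k = us.length := by
  induction us with
  | nil => rfl
  | cons u us ih =>
    have : (sumL (u :: us)).k = u.k + (sumL us).k := rfl
    rw [this, ih (fun v hv => h v (List.mem_cons_of_mem _ hv)), h u List.mem_cons_self,
      List.length_cons]
    push_cast
    ring

theorem Simp.sound {t : Simp} {U : List N5} {V : List (V5 × ℕ)} (ht : t.ok U V = true)
    (hU : ∀ u ∈ U.map N5.toV, u.k = 1) {w : V5} {L : List (ℚ × V5)}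
    (hL : ∀ p ∈ L, 0 ≤ p.1 ∧ ∃ j z, V[j]? = some (p.2, z) ∧ t.mask.testBit j = true)
    (hw : ∀ f, ev f (Q5.of w) = evL f L) :
    ∃ us : List V5, (us.length : ℤ) = w.k ∧ (∀ u ∈ us, u ∈ U.map N5.toV) ∧ sumL us = w := by
  unfold Simp.ok at ht
  simp only [Bool.and_eq_true, List.all_eq_true, decide_eq_true_eq, List.mem_range,
    Bool.or_eq_true, Bool.not_eq_true'] at ht
  obtain ⟨⟨⟨⟨⟨⟨⟨⟨⟨⟨hD, hgens⟩, hgv⟩, e1⟩, e2⟩, e3⟩, e4⟩, e5⟩, hh⟩, hmask⟩, hbox⟩ := ht
  have hDZ : (0 : ℤ) < t.D := by exact_mod_cast hD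
  have hDQ : (0 : ℚ) < ((t.D : ℤ) : ℚ) := by exact_mod_cast hDZ
  -- the vectors of `L` are vertices of `t`
  have hLv : ∀ p ∈ L, 0 ≤ p.1 ∧ ∃ q ∈ t.gv, q.2 = p.2 := by
    intro p hp
    obtain ⟨h1, j, z, h2, h3⟩ := hL p hp
    refine ⟨h1, ?_⟩
    have hj : j < V.length := by
      by_contra hcon
      rw [List.getElem?_eq_none (by omega)] at h2
      simp at h2
    have h4 := hmask j hj
    rw [h3, h2] at h4
    simp only [Bool.true_eq_false, false_or, decide_eq_true_eq] at h4
    unfold Simp.vs at h4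
    obtain ⟨q, hq, hq2⟩ := List.mem_map.1 h4
    exact ⟨q, hq, hq2⟩
  -- coordinates are nonnegative
  have hnn : ∀ p ∈ t.gv, 0 ≤ dot p.1 w := by
    intro p hp
    have h1 : (0 : ℚ) ≤ (dot p.1 w : ℚ) := by
      rw [← ev_of, hw]
      unfold evL
      apply List.sum_nonneg
      intro x hx
      obtain ⟨y, hy, rfl⟩ := List.mem_map.1 hx
      obtain ⟨h2, q, hq, hq2⟩ := hLv y hy
      apply mul_nonneg h2
      rw [← hq2]
      exact_mod_cast (hgv q hq).1 p hp
    exact_mod_cast h1
  -- reconstruction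
  have hrec : t.cf id w = V5.smul t.D w := by
    apply ext_dot
    intro f
    rw [dot_cf, dot_smul]
    have h1 : (((t.gv.map (fun p => id (dot p.1 w) * dot f p.2)).sum : ℤ) : ℚ) =
        ((t.D : ℤ) : ℚ) * (dot f w : ℚ) := by
      rw [← ev_of f, hw f]
      have h2 : (((t.gv.map (fun p => id (dot p.1 w) * dot f p.2)).sum : ℤ) : ℚ) =
          (t.gv.map (fun p => evL p.1 L * (dot f p.2 : ℚ))).sum := by
        generalize t.gv = G
        induction G with
        | nil => simp
        | cons q G ih =>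
          rw [List.map_cons, List.sum_cons, List.map_cons, List.sum_cons, ← ih]
          push_cast
          rw [← hw q.1, ev_of]
          simp
      rw [h2]
      have h3 : ∀ M : List (ℚ × V5), (∀ p ∈ M, ∃ q ∈ t.gv, q.2 = p.2) →
          (t.gv.map (fun p => evL p.1 M * (dot f p.2 : ℚ))).sum = ((t.D : ℤ) : ℚ) * evL f M := by
        intro M
        induction M with
        | nil =>
          intro _
          simp [evL]
        | cons y M ih =>
          intro hM
          obtain ⟨q, hq, hq2⟩ := hM y List.mem_cons_self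
          have h4 := (hgv q hq).2
          have h5 := congrArg (dot f) h4
          rw [dot_cf, dot_smul, hq2] at h5
          have h6 : (t.gv.map (fun p => (dot p.1 y.2 : ℚ) * (dot f p.2 : ℚ))).sum =
              ((t.D : ℤ) : ℚ) * (dot f y.2 : ℚ) := by
            have h7 := congrArg (fun n : ℤ => (n : ℚ)) h5
            push_cast at h7 ⊢
            rw [← h7, List.map_map]
            apply congrArg
            apply List.map_congr_left
            intro p _
            simp
          have h8 : (t.gv.map (fun p => evL p.1 (y :: M) * (dot f p.2 : ℚ))).sum =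
              y.1 * (t.gv.map (fun p => (dot p.1 y.2 : ℚ) * (dot f p.2 : ℚ))).sum +
              (t.gv.map (fun p => evL p.1 M * (dot f p.2 : ℚ))).sum := by
            generalize t.gv = G
            induction G with
            | nil => simp
            | cons p G ihG =>
              simp only [List.map_cons, List.sum_cons]
              rw [ihG, evL_cons]
              ring
          rw [h8, h6, ih (fun p hp => hM p (List.mem_cons_of_mem _ hp)), evL_cons]
          ring
      exact h3 L (fun p hp => (hLv p hp).2)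
    exact_mod_cast h1
  -- the representative
  obtain ⟨c, n1, n2, n3, n4, n5, hc, hcw⟩ := exists_rep e1 e2 e3 e4 e5 w
  unfold Simp.boxOk at hbox
  obtain ⟨s, hs⟩ := zipAll_sound hbox hc
  have hs := congrArg N5.toV (eq_of_beq5 hs)
  rw [toV_combN (fun p hp => (hgens p hp).2), toV_addM, toV_sumN, toV_zero] at hs
  have hmod : ∀ p ∈ t.gv, dot p.1 c.toV % (t.D : ℤ) = dot p.1 w % (t.D : ℤ) := by
    intro p hp
    obtain ⟨⟨⟨⟨m1, m2⟩, m3⟩, m4⟩, m5⟩ := hh p hp
    rw [hcw p.1]
    obtain ⟨q1, q1'⟩ := Int.dvd_of_emod_eq_zero m1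
    obtain ⟨q2, q2'⟩ := Int.dvd_of_emod_eq_zero m2
    obtain ⟨q3, q3'⟩ := Int.dvd_of_emod_eq_zero m3
    obtain ⟨q4, q4'⟩ := Int.dvd_of_emod_eq_zero m4
    obtain ⟨q5, q5'⟩ := Int.dvd_of_emod_eq_zero m5
    rw [q1', q2', q3', q4', q5']
    have : dot p.1 c.toV + n1 * (t.D * q1) + n2 * (t.D * q2) + n3 * (t.D * q3) +
        n4 * (t.D * q4) + n5 * (t.D * q5) =
        dot p.1 c.toV + t.D * (n1 * q1 + n2 * q2 + n3 * q3 + n4 * q4 + n5 * q5) := by
      ring
    rw [this, Int.add_mul_emod_self_left]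
  have hs' : t.cf (fun n => n % (t.D : ℤ)) w =
      V5.smul t.D (sumL ((look U 5 s).map N5.toV)) := by
    have h1 : V5.smul t.D (sumL ((look U 5 s).map N5.toV)) =
        (V5.smul t.D (sumL ((look U 5 s).map N5.toV))).add V5.zero := by
      unfold V5.add V5.zero
      simp
    rw [h1, ← hs]
    unfold Simp.cf Simp.gv
    rw [List.map_map]
    congr 1
    apply List.map_congr_left
    intro p hp
    rw [Function.comp_apply]
    have h2 := hmod (p.g, p.v.toV) (List.mem_map.2 ⟨p, hp, rfl⟩)
    simp only at h2 ⊢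
    rw [h2]
  -- the decomposition
  set n : V5 × V5 → ℕ := fun p => (dot p.1 w / (t.D : ℤ)).toNat with hn
  set us := rept t.gv n ++ (look U 5 s).map N5.toV with hus
  have hsum : sumL us = w := by
    apply ext_dot
    intro f
    apply mul_left_cancel₀ (ne_of_gt hDZ)
    have h1 : dot f (sumL us) = dot f (sumL (rept t.gv n)) +
        dot f (sumL ((look U 5 s).map N5.toV)) := by
      rw [hus, dot_sumL, dot_sumL, dot_sumL, List.map_append, List.sum_append]
    have h2 := congrArg (dot f) hs'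
    rw [dot_smul, dot_cf] at h2
    have h3 := congrArg (dot f) hrec
    rw [dot_smul, dot_cf] at h3
    rw [h1, mul_add, ← h2, ← h3, dot_rept, ← sum_map_mul, ← sum_map_add]
    congr 1
    apply List.map_congr_left
    intro p hp
    have h4 : ((n p : ℕ) : ℤ) = dot p.1 w / (t.D : ℤ) := by
      rw [hn]
      exact Int.toNat_of_nonneg (Int.ediv_nonneg (hnn p hp) hDZ.le)
    have h5 := Int.emod_add_mul_ediv (dot p.1 w) (t.D : ℤ)
    rw [h4, id]
    linear_combination (dot f p.2) * h5
  have husU : ∀ u ∈ us, u ∈ U.map N5.toV := by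
    intro u hu
    rcases List.mem_append.1 hu with h | h
    · unfold rept at h
      obtain ⟨p, hp, hpu⟩ := List.mem_flatMap.1 h
      rw [List.eq_of_mem_replicate hpu]
      unfold Simp.gv at hp
      obtain ⟨q, hq, rfl⟩ := List.mem_map.1 hp
      exact List.mem_map.2 ⟨q.v, mem_of_memN (hgens q hq).1, rfl⟩
    · obtain ⟨u', hu', rfl⟩ := List.mem_map.1 h
      exact List.mem_map.2 ⟨u', look_mem u' hu', rfl⟩
  refine ⟨us, ?_, husU, hsum⟩
  rw [← hsum, level_sumL (fun u hu => hU u (husU u hu))]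

/-! ## The main theorem -/

/-- The integer decomposition property. -/
def IDP (F U : List V5) : Prop := ∀ w : V5, (∀ f ∈ F, 0 ≤ dot f w) →
  ∃ us : List V5, (us.length : ℤ) = w.k ∧ (∀ u ∈ us, u ∈ U) ∧ sumL us = w

/-- The checks that do not concern the box points. -/
def Fan.okA (A : Fan) : Bool :=
  okV A.F A.V && A.C.all (fun c => c.valid A.F) && A.UN.all (fun v => Nat.beq v.k 1) &&
  walk A.F.length A.V A.C A.T A.r 0 0 && decide (0 < A.hl) &&
  bnd A.F ⟨0, 0, 1, 0, 0⟩ A.bx && bnd A.F ⟨A.hx, 0, -1, 0, 0⟩ A.bx' &&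
  bnd A.F ⟨0, 0, 0, 1, 0⟩ A.bY && bnd A.F ⟨A.hy, 0, 0, -1, 0⟩ A.bY' &&
  bnd A.F ⟨0, 0, 0, 0, 1⟩ A.bz && bnd A.F ⟨A.hz, 0, 0, 0, -1⟩ A.bz' &&
  bnd A.F ⟨0, 1, 0, 0, 0⟩ A.bl && bnd A.F ⟨A.hl, -1, 0, 0, 0⟩ A.bl'

def Fan.okB (A : Fan) : Bool := A.T.all (fun t => t.ok A.UN A.V)

theorem Fan.idp {A : Fan} (hA : A.okA = true) (hB : A.okB = true) :
    IDP A.F (A.UN.map N5.toV) := by
  unfold Fan.okA at hA
  simp only [Bool.and_eq_true] at hA
  obtain ⟨⟨⟨⟨⟨⟨⟨⟨⟨⟨⟨⟨hV, hC⟩, hU⟩, hwalk⟩, hhl⟩, hbx⟩, hbx'⟩, hby⟩, hby'⟩, hbz⟩, hbz'⟩, hbl⟩,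
    hbl'⟩ := hA
  rw [List.all_eq_true] at hC hU
  rw [decide_eq_true_eq] at hhl
  unfold Fan.okB at hB
  rw [List.all_eq_true] at hB
  intro w hF
  have hpt : ∀ w : Q5, (∀ f ∈ A.F, 0 ≤ ev f w) → w.k ≤ 0 → ∀ f, ev f w = 0 := by
    intro w hF hk f
    have e1 := bnd_sound hbx hF
    have e2 := bnd_sound hbx' hF
    have e3 := bnd_sound hby hF
    have e4 := bnd_sound hby' hF
    have e5 := bnd_sound hbz hF
    have e6 := bnd_sound hbz' hF
    have e7 := bnd_sound hbl hF
    have e8 := bnd_sound hbl' hF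
    unfold ev at e1 e2 e3 e4 e5 e6 e7 e8 ⊢
    push_cast at e1 e2 e3 e4 e5 e6 e7 e8
    simp only [zero_mul, one_mul, zero_add, add_zero, neg_mul] at e1 e2 e3 e4 e5 e6 e7 e8
    have hhl' : (0 : ℚ) < A.hl := by exact_mod_cast hhl
    have hk0 : w.k = 0 := by
      by_contra hne
      have : w.k < 0 := lt_of_le_of_ne hk hne
      have := mul_neg_of_pos_of_neg hhl' this
      linarith
    rw [hk0] at e2 e4 e6 e8 ⊢
    have hx : w.x = 0 := by linarith
    have hy : w.y = 0 := by linarith
    have hz : w.z = 0 := by linarith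
    have hl : w.l = 0 := by linarith
    rw [hx, hy, hz, hl]
    ring
  obtain ⟨t, ht, -, L, hL, hLf⟩ := walk_sound hV hC hpt A.r 0 0 hwalk (Q5.of w)
    (fun f hf => by rw [ev_of]; exact_mod_cast hF f hf) (fun i hi => by simp at hi)
  exact Simp.sound (hB t ht) (fun u hu => by
    obtain ⟨v, hv, rfl⟩ := List.mem_map.1 hu
    have := Nat.eq_of_beq_eq_true (hU v hv)
    unfold N5.toV
    rw [this]
    rfl) hL hLf

end Pool.Agent.Helper75.Poly
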