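import Pool.Agent.Helper75.Zss.Norm

/-!
# Divisibility of Jacobi sums from the residue sums (converse of `le_sum_val`)
-/

namespace Pool.Agent.Helper75.Zss

open Finset

/-- Local-global principle for integrality. -/
theorem isIntegral_of_local {x : ℂ} (h : ∀ 𝔓 : Ideal Alg, 𝔓.IsMaximal →
    ∃ u : Alg, u ∉ 𝔓 ∧ IsIntegral ℤ ((u : ℂ) * x)) : IsIntegral ℤ x := by
  let I : Ideal Alg :=
    { carrier := {u | IsIntegral ℤ ((u : ℂ) * x)}
      add_mem' := by
        intro u v hu hv
        have : ((u + v : Alg) : ℂ) * x = (u : ℂ) * x + (v : ℂ) * x := by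
          push_cast
          ring
        change IsIntegral ℤ (((u + v : Alg) : ℂ) * x)
        rw [this]
        exact IsIntegral.add hu hv
      zero_mem' := by
        change IsIntegral ℤ (((0 : Alg) : ℂ) * x)
        simpa using isIntegral_zero
      smul_mem' := by
        intro c u hu
        change IsIntegral ℤ (((c • u : Alg) : ℂ) * x)
        have : ((c • u : Alg) : ℂ) * x = (c : ℂ) * ((u : ℂ) * x) := by
          rw [smul_eq_mul]
          push_cast
          ring
        rw [this]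
        exact IsIntegral.mul c.2 hu }
  by_contra hx
  have hI : I ≠ ⊤ := by
    intro hI
    have h1 : (1 : Alg) ∈ I := by
      rw [hI]
      trivial
    apply hx
    have h2 : IsIntegral ℤ (((1 : Alg) : ℂ) * x) := h1
    simpa using h2
  obtain ⟨𝔓, h𝔓, hI𝔓⟩ := Ideal.exists_le_maximal I hI
  obtain ⟨u, hu, hux⟩ := h 𝔓 h𝔓
  exact hu (hI𝔓 hux)

variable {F : Type*} [Field F] [Fintype F] [DecidableEq F] {m n ν : ℕ}

theorem jac_isIntegral [NeZero m] [NeZero n] {χ : MulChar F ℂ} (hχ : orderOf χ = m)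
    {a : Fin n → ZMod m} (ha : ∀ i, a i ≠ 0) (hs : ∑ i, a i = 0) : IsIntegral ℤ (jac χ a) := by
  have := jac_integral (ν := 0) hχ ha hs (fun _ => 0)
    (fun k => ⟨⟨0, Nat.pos_of_ne_zero (NeZero.ne n)⟩, (Fin.eq_zero k).symm⟩)
    (fun k => by
      rw [Finset.filter_true_of_mem (fun i _ => (Fin.eq_zero k).symm)]
      exact hs)
  simpa using this

/-- If all residue sums are at least `(ν + 1) m` then the Jacobi sum is divisible by `q ^ ν`. -/
theorem integral_of_le [NeZero m] [NeZero n] {p : ℕ} [hp : Fact p.Prime] [CharP F p]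
    (hm : m ∣ p - 1) {a : Fin n → ZMod m} (ha : ∀ i, a i ≠ 0) (hs : ∑ i, a i = 0)
    {χ : MulChar F ℂ} (hχ : orderOf χ = m)
    (hval : ∀ t : ZMod m, IsUnit t → (ν + 1) * m ≤ ∑ i, (t * a i).val) :
    IsIntegral ℤ (jac χ a / (Fintype.card F : ℂ) ^ ν) := by
  have hm0 : 0 < m := Nat.pos_of_ne_zero (NeZero.ne m)
  have hq0 := card_ne_zero' (F := F)
  apply isIntegral_of_local
  intro 𝔓 h𝔓
  by_cases hp𝔓 : (p : Alg) ∈ 𝔓
  · obtain ⟨η, hq𝔓, hη, hJ⟩ := exists_eta_of (F := F) (m := m) hm h𝔓 hp𝔓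
    obtain ⟨s, hsc, hsχ⟩ := exists_pow_eq hχ hη
    obtain ⟨ψ, hψ⟩ := exists_addChar F
    set t : ZMod m := (s : ZMod m) with ht
    have htu : IsUnit t := (ZMod.isUnit_iff_coprime s m).2 hsc
    obtain ⟨w, hw⟩ : m ∣ ∑ i, (t * a i).val := by
      rw [← ZMod.natCast_eq_zero_iff]
      push_cast
      simp only [ZMod.natCast_val, ZMod.cast_id', id_eq]
      rw [← mul_sum, hs, mul_zero]
    have hwν : ν + 1 ≤ w := by
      have := hval t htu
      rw [hw, mul_comm m] at this
      exact Nat.le_of_mul_le_mul_right this hm0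
    have hθm : η ^ m = 1 := by rw [← hη, pow_orderOf_eq_one]
    have hpow : ∀ i, χ ^ (a i).val = η ^ (t * a i).val := by
      intro i
      rw [hsχ, ← pow_mul, pow_inj_mod, hη, ZMod.val_mul, Nat.mod_mod, ht, ZMod.val_natCast,
        Nat.mod_mul_mod]
    have hval' : ∀ i, 0 < (t * a i).val ∧ (t * a i).val < m := by
      intro i
      have h1 : t * a i ≠ 0 := by
        intro h
        exact ha i ((IsUnit.mul_right_eq_zero htu).1 h)
      exact ⟨Nat.pos_of_ne_zero (fun h => h1 ((ZMod.val_eq_zero _).1 h)), ZMod.val_lt _⟩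
    obtain ⟨y, hy, hprod⟩ := prod_gauss h𝔓 hη hJ hψ univ (fun i => (t * a i).val)
      (fun i _ => (hval' i).1) (fun i _ => (hval' i).2)
    rw [hw, Nat.mul_div_cancel_left _ hm0, pow_mul, hθm, one_pow,
      gaussSum_one_left hψ] at hprod
    have h1 := prod_gaussSum (F := F) (c := fun i => χ ^ (a i).val)
      (fun i => pow_val_ne_one hχ (ha i)) (prod_pow_val hχ univ a hs) hψ
    rw [← jac_eq hχ ha hs, prod_congr rfl (fun i _ => by rw [hpow i]), hprod] at h1
    -- `q * J = - y q ^ w`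
    obtain ⟨u, v, hu, hv, huv⟩ := hy
    refine ⟨u, hu, ?_⟩
    have h2 : (u : ℂ) * (jac χ a / (Fintype.card F : ℂ) ^ ν) =
        ((- (v * (Fintype.card F : Alg) ^ (w - (ν + 1))) : Alg) : ℂ) := by
      push_cast
      rw [← huv]
      have h3 : (Fintype.card F : ℂ) ^ w =
          (Fintype.card F : ℂ) ^ (ν + 1) * (Fintype.card F : ℂ) ^ (w - (ν + 1)) := by
        rw [← pow_add, Nat.add_sub_cancel' hwν]
      rw [h3] at h1
      have h4 : jac χ a = - (y * (Fintype.card F : ℂ) ^ ν *
          (Fintype.card F : ℂ) ^ (w - (ν + 1))) := by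
        apply mul_left_cancel₀ hq0
        rw [← h1]
        ring
      rw [h4]
      field_simp
    rw [h2]
    exact (- (v * (Fintype.card F : Alg) ^ (w - (ν + 1))) : Alg).2
  · obtain ⟨⟨f, hf⟩, -, hcard⟩ := FiniteField.card F p
    have hcard' : Fintype.card F = p ^ f := hcard
    have := h𝔓.isPrime
    refine ⟨(Fintype.card F : Alg) ^ ν, ?_, ?_⟩
    · intro h
      apply hp𝔓
      have h1 := this.mem_of_pow_mem _ h
      rw [hcard', Nat.cast_pow] at h1
      exact this.mem_of_pow_mem _ h1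
    · have h1 : (((Fintype.card F : Alg) ^ ν : Alg) : ℂ) * (jac χ a / (Fintype.card F : ℂ) ^ ν) =
          jac χ a := by
        push_cast
        field_simp
      rw [h1]
      exact jac_isIntegral hχ ha hs

end Pool.Agent.Helper75.Zss
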