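import Pool.Agent.Helper75.Zss.Tri2

/-!
# The index theorem for zero-sum multisets with few disjoint zero-sum parts
-/

namespace Pool.Agent.Helper75.Zss

theorem card_S_le {G : Type*} [AddCommGroup G] [Fintype G] {α : Multiset G} {K : AddSubgroup G}
    (hK : ∀ x ∈ α, x ∈ K) {ν : ℕ} (hν : ¬ Reach α ν 0) : N α ≤ ν * Nat.card K := by
  classical
  set C : Finset G := Finset.univ.filter (fun x => x ∈ K) with hC
  have hCc : C.card = Nat.card K := by
    rw [hC, ← Fintype.card_subtype, Nat.card_eq_fintype_card]
  have h1 : S α ⊆ Finset.range ν ×ˢ C := by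
    intro p hp
    have hp' := mem_S.1 hp
    rw [Finset.mem_product, Finset.mem_range, hC, Finset.mem_filter]
    refine ⟨?_, Finset.mem_univ _, hp'.mem_of hK⟩
    by_contra hcon
    push Not at hcon
    exact hν (hp'.zero.antitone hcon)
  have h2 := Finset.card_le_card h1
  rw [Finset.card_product, Finset.card_range, hCc] at h2
  exact h2

/-- Main combinatorial theorem: a zero-sum multiset `a` of nonzero residues mod `m` with
`ν m + 3 ≤ 2 |a|` and without `ν + 1` disjoint nonempty zero-sum parts can be multiplied by a unit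
so that the sum of the residues is at most `ν m`. -/
theorem index_theorem {m : ℕ} [NeZero m] (ν : ℕ) (a : Multiset (ZMod m)) (h0 : ∀ x ∈ a, x ≠ 0)
    (hs : a.sum = 0) (hlen : ν * m + 3 ≤ 2 * Multiset.card a) (hnr : ¬ Reach a (ν + 1) 0) :
    ∃ t : ZMod m, IsUnit t ∧ (a.map (fun x => (t * x).val)).sum ≤ ν * m := by
  have ha : a ≠ 0 := by
    rintro rfl
    simp at hlen
  obtain ⟨w, hw⟩ := Multiset.exists_mem_of_ne_zero ha
  obtain ⟨α, hα⟩ := Multiset.exists_cons_of_mem hw
  have hcard : Multiset.card a = Multiset.card α + 1 := by rw [hα, Multiset.card_cons]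
  have hsum : α.sum = - w := by
    rw [hα, Multiset.sum_cons] at hs
    exact eq_neg_of_add_eq_zero_right hs
  have hnr' : ¬ Reach α ν 0 := by
    intro h
    have h1 := h.symm
    rw [sub_zero, hsum] at h1
    have h2 := h1.close
    rw [← hα] at h2
    exact hnr h2
  have h0α : ∀ x ∈ α, x ≠ 0 := fun x hx => h0 x (hα ▸ Multiset.mem_cons_of_mem hx)
  have hN1 : N α ≤ ν * m := by
    have := card_S_le (K := (⊤ : AddSubgroup (ZMod m))) (fun x _ => AddSubgroup.mem_top x) hnr'
    rwa [AddSubgroup.card_top, Nat.card_zmod] at this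
  have hN2 := card_lt_N α
  rcases tri α h0α (by omega) with ⟨g, hg⟩ | hX
  · -- the generator
    have hgtop : AddSubgroup.zmultiples g = ⊤ := by
      apply AddSubgroup.eq_top_of_card_eq
      rw [Nat.card_zmod]
      have h1 := card_S_le hg.1 hnr'
      have h2 : Nat.card (AddSubgroup.zmultiples g) ∣ m := by
        have := AddSubgroup.card_addSubgroup_dvd_card (AddSubgroup.zmultiples g)
        rwa [Nat.card_zmod] at this
      obtain ⟨k, hk⟩ := h2
      have hm0 : 0 < m := Nat.pos_of_ne_zero (NeZero.ne m)
      rcases Nat.lt_or_ge k 2 with h3 | h3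
      · have h4 : k ≠ 0 := by
          rintro rfl
          rw [mul_zero] at hk
          omega
        have h5 : k = 1 := by omega
        rw [h5, mul_one] at hk
        exact hk.symm
      · exfalso
        have h4 : 2 * Nat.card (AddSubgroup.zmultiples g) ≤ m := by
          calc 2 * Nat.card (AddSubgroup.zmultiples g)
              ≤ k * Nat.card (AddSubgroup.zmultiples g) := Nat.mul_le_mul_right _ h3
            _ = m := by rw [mul_comm]; exact hk.symm
        have h5 : 2 * (ν * Nat.card (AddSubgroup.zmultiples g)) ≤ ν * m := by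
          calc 2 * (ν * Nat.card (AddSubgroup.zmultiples g))
              = ν * (2 * Nat.card (AddSubgroup.zmultiples g)) := by ring
            _ ≤ ν * m := Nat.mul_le_mul_left _ h4
        omega
    have hz : ∀ x : ZMod m, x ∈ AddSubgroup.zmultiples g := fun x => by
      rw [hgtop]
      exact AddSubgroup.mem_top x
    have hord : addOrderOf g = m := by
      rw [← Nat.card_zmultiples, hgtop, AddSubgroup.card_top, Nat.card_zmod]
    have ht : (lg g 1 : ZMod m) * g = 1 := by
      have := lg_spec (hz 1)
      rwa [nsmul_eq_mul] at this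
    refine ⟨(lg g 1 : ZMod m), IsUnit.of_mul_eq_one g ht, ?_⟩
    set t : ZMod m := (lg g 1 : ZMod m) with htdef
    have hval : ∀ x : ZMod m, (t * x).val ≤ lg g x := by
      intro x
      have h1 : (lg g x : ZMod m) * g = x := by
        have := lg_spec (hz x)
        rwa [nsmul_eq_mul] at this
      have h2 : t * x = (lg g x : ZMod m) := by
        rw [← h1]
        calc t * ((lg g x : ZMod m) * g) = (lg g x : ZMod m) * (t * g) := by ring
          _ = (lg g ((lg g x : ZMod m) * g) : ZMod m) := by rw [ht, h1, mul_one]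
      rw [h2, ZMod.val_natCast]
      exact Nat.mod_le _ _
    have h1 : (a.map (fun x => (t * x).val)).sum ≤ L g a := by
      unfold L
      exact Multiset.sum_map_le_sum_map _ _ (fun x _ => hval x)
    refine h1.trans ?_
    have h2 : L g a = lg g w + L g α := by rw [hα, L_cons]
    have h3 := lg_lt (hz w)
    rw [hord] at h3
    have h4 := hg.2
    have h5 : L g a % m = 0 := by
      have := L_mod (g := g) (α := a) (fun x _ => hz x)
      rw [hord, hs, lg_zero] at this
      exact this
    obtain ⟨k, hk⟩ := Nat.dvd_of_mod_eq_zero h5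
    have h6 : m * k < m * (ν + 1) := by
      rw [← hk, mul_comm m (ν + 1), add_mul, one_mul]
      omega
    have h7 : k < ν + 1 := Nat.lt_of_mul_lt_mul_left h6
    rw [hk, mul_comm]
    exact Nat.mul_le_mul_right _ (by omega)
  · exfalso
    rw [hX.1] at hsum
    exact h0 w hw (neg_eq_zero.1 hsum.symm)

section split

variable {G : Type*} [AddCommGroup G] {ι : Type*} [DecidableEq ι]

omit [AddCommGroup G] in
theorem exists_subset_map {z : Multiset G} : ∀ {s : Finset ι} {a : ι → G},
    z ≤ s.val.map a → ∃ t ⊆ s, t.val.map a = z := by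
  induction z using Multiset.induction_on with
  | empty =>
    intro s a _
    exact ⟨∅, Finset.empty_subset s, by simp⟩
  | cons x z ih =>
    intro s a h
    obtain ⟨i, hi, hix⟩ := Multiset.mem_map.1 (Multiset.mem_of_le h (Multiset.mem_cons_self x z))
    have hi' : i ∈ s := hi
    have h1 : s.val = i ::ₘ (s.erase i).val := by
      rw [Finset.erase_val]
      exact (Multiset.cons_erase hi).symm
    rw [h1, Multiset.map_cons, hix, Multiset.cons_le_cons_iff] at h
    obtain ⟨t, ht, htz⟩ := ih h
    have hit : i ∉ t := fun hh => absurd (ht hh) (Finset.notMem_erase i s)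
    refine ⟨insert i t, ?_, ?_⟩
    · intro j hj
      rcases Finset.mem_insert.1 hj with rfl | hj
      · exact hi'
      · exact Finset.mem_of_mem_erase (ht hj)
    · rw [Finset.insert_val_of_notMem hit, Multiset.map_cons, htz, hix]

theorem exists_parts {a : ι → G} {k : ℕ} : ∀ {s : Finset ι}, ∑ i ∈ s, a i = 0 →
    Reach (s.val.map a) (k + 1) 0 → ∃ P : ι → ℕ, (∀ i ∈ s, P i ≤ k) ∧
      (∀ j ≤ k, ∃ i ∈ s, P i = j) ∧ (∀ j ≤ k, ∑ i ∈ s with P i = j, a i = 0) := by
  induction k with
  | zero =>
    intro s hs h
    refine ⟨fun _ => 0, fun _ _ => le_rfl, ?_, ?_⟩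
    · intro j hj
      have h1 := h.le_card
      rw [Multiset.card_map, Finset.card_val] at h1
      obtain ⟨i, hi⟩ := Finset.card_pos.1 (by omega : 0 < s.card)
      refine ⟨i, hi, ?_⟩
      have h2 : j = 0 := by omega
      exact h2.symm
    · intro j hj
      have : j = 0 := by omega
      subst this
      simpa using hs
  | succ k ih =>
    intro s hs h
    obtain ⟨Z, R, h1, h2, h3, -⟩ := h
    obtain ⟨z, Z', rfl⟩ : ∃ z Z', Z = z ::ₘ Z' := by
      have : 0 < Multiset.card Z := by omega
      obtain ⟨z, hz⟩ := Multiset.card_pos_iff_exists_mem.1 this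
      exact ⟨z, _, (Multiset.exists_cons_of_mem hz).choose_spec⟩
    rw [Multiset.sum_cons] at h3
    have hz := h2 z (Multiset.mem_cons_self z Z')
    have h4 : z + Z'.sum ≤ s.val.map a := (Multiset.le_add_right _ _).trans h3
    obtain ⟨t, ht, htz⟩ := exists_subset_map ((Multiset.le_add_right _ _).trans h4)
    have h5 : s.val.map a = z + (s \ t).val.map a := by
      rw [← htz, ← Multiset.map_add]
      congr 1
      rw [Finset.sdiff_val]
      exact (add_tsub_cancel_of_le (Finset.val_le_iff.2 ht)).symm
    rw [h5] at h4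
    have h6 : Z'.sum ≤ (s \ t).val.map a := (add_le_add_iff_left z).1 h4
    have hsumt : ∑ i ∈ t, a i = 0 := by
      have : ∑ i ∈ t, a i = (t.val.map a).sum := rfl
      rw [this, htz, hz.2]
    have hsum' : ∑ i ∈ s \ t, a i = 0 := by
      have := Finset.sum_sdiff ht (f := a)
      rw [hsumt, add_zero, hs] at this
      exact this
    obtain ⟨P, hP1, hP2, hP3⟩ := ih hsum'
      ⟨Z', 0, by simpa using h1, fun w hw => h2 w (Multiset.mem_cons_of_mem hw), by simpa using h6,
        by simp⟩
    have htne : t.Nonempty := by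
      rw [Finset.nonempty_iff_ne_empty]
      rintro rfl
      exact hz.1 (by rw [← htz]; simp)
    refine ⟨fun i => if i ∈ t then k + 1 else P i, ?_, ?_, ?_⟩
    · intro i hi
      by_cases hit : i ∈ t
      · simp [hit]
      · have := hP1 i (Finset.mem_sdiff.2 ⟨hi, hit⟩)
        simp only [hit, if_false]
        omega
    · intro j hj
      rcases Nat.lt_or_ge k j with hjk | hjk
      · obtain ⟨i, hi⟩ := htne
        refine ⟨i, ht hi, ?_⟩
        simp only [hi, if_true]
        omega
      · obtain ⟨i, hi, hij⟩ := hP2 j hjk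
        rw [Finset.mem_sdiff] at hi
        exact ⟨i, hi.1, by simp only [hi.2, if_false]; exact hij⟩
    · intro j hj
      rcases Nat.lt_or_ge k j with hjk | hjk
      · have hj' : j = k + 1 := by omega
        subst hj'
        have : s.filter (fun i => (if i ∈ t then k + 1 else P i) = k + 1) = t := by
          ext i
          rw [Finset.mem_filter]
          constructor
          · rintro ⟨hi, hi'⟩
            by_contra hit
            simp only [hit, if_false] at hi'
            have := hP1 i (Finset.mem_sdiff.2 ⟨hi, hit⟩)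
            omega
          · intro hi
            exact ⟨ht hi, by simp only [hi, if_true]⟩
        rw [this]
        exact hsumt
      · have : s.filter (fun i => (if i ∈ t then k + 1 else P i) = j) =
            (s \ t).filter (fun i => P i = j) := by
          ext i
          rw [Finset.mem_filter, Finset.mem_filter, Finset.mem_sdiff]
          constructor
          · rintro ⟨hi, hi'⟩
            by_cases hit : i ∈ t
            · simp only [hit, if_true] at hi'
              omega
            · simp only [hit, if_false] at hi'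
              exact ⟨⟨hi, hit⟩, hi'⟩
          · rintro ⟨⟨hi, hit⟩, hi'⟩
            exact ⟨hi, by simp only [hit, if_false]; exact hi'⟩
        rw [this]
        exact hP3 j hjk

theorem exists_split [Fintype ι] {a : ι → G} {k : ℕ} (hs : ∑ i, a i = 0)
    (h : Reach ((Finset.univ : Finset ι).val.map a) (k + 1) 0) :
    ∃ P : ι → Fin (k + 1), Function.Surjective P ∧ ∀ j, ∑ i with P i = j, a i = 0 := by
  obtain ⟨P, hP1, hP2, hP3⟩ := exists_parts hs h
  refine ⟨fun i => ⟨P i, Nat.lt_succ_of_le (hP1 i (Finset.mem_univ i))⟩, ?_, ?_⟩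
  · intro j
    obtain ⟨i, -, hi⟩ := hP2 j (Nat.le_of_lt_succ j.2)
    exact ⟨i, Fin.ext hi⟩
  · intro j
    have := hP3 j (Nat.le_of_lt_succ j.2)
    rw [← this]
    apply Finset.sum_congr _ (fun _ _ => rfl)
    ext i
    simp [Fin.ext_iff]

end split

/-- The index theorem for functions. -/
theorem index_fun {m n : ℕ} [NeZero m] {ν : ℕ} {a : Fin n → ZMod m} (ha : ∀ i, a i ≠ 0)
    (hs : ∑ i, a i = 0) (hlen : ν * m + 3 ≤ 2 * n)
    (hval : ∀ t : ZMod m, IsUnit t → (ν + 1) * m ≤ ∑ i, (t * a i).val) :
    ∃ P : Fin n → Fin (ν + 1), Function.Surjective P ∧ ∀ k, ∑ i with P i = k, a i = 0 := by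
  by_contra hcon
  have hnr : ¬ Reach ((Finset.univ : Finset (Fin n)).val.map a) (ν + 1) 0 := fun h =>
    hcon (exists_split hs h)
  obtain ⟨t, ht, h1⟩ := index_theorem ν ((Finset.univ : Finset (Fin n)).val.map a)
    (by
      intro x hx
      obtain ⟨i, -, rfl⟩ := Multiset.mem_map.1 hx
      exact ha i) hs (by simpa using hlen) hnr
  have h2 := hval t ht
  rw [Multiset.map_map] at h1
  have h3 : (Multiset.map ((fun x => (t * x).val) ∘ a) (Finset.univ : Finset (Fin n)).val).sum =
      ∑ i, (t * a i).val := rfl
  rw [h3] at h1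
  have hm0 : 0 < m := Nat.pos_of_ne_zero (NeZero.ne m)
  rw [add_mul, one_mul] at h2
  omega

end Pool.Agent.Helper75.Zss
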