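import Pool.Agent.Helper75.Zss.Box
import Pool.Agent.Helper75.Zss.Index

/-!
# From the integer decomposition property to zero-sum sequences
-/

namespace Pool.Agent.Helper75.Poly

/-- The sum of the residues of `t c` mod `m`, for `c` in `L`. -/
def rs (m t : ℕ) (L : List ℕ) : ℕ := (L.map (fun c => t * c % m)).sum

theorem rs_nil (m t : ℕ) : rs m t [] = 0 := rfl

theorem rs_cons (m t c : ℕ) (L : List ℕ) : rs m t (c :: L) = t * c % m + rs m t L := by
  simp [rs]

theorem rs_append (m t : ℕ) (L M : List ℕ) : rs m t (L ++ M) = rs m t L + rs m t M := by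
  simp [rs]

theorem rs_dvd {m t : ℕ} {L : List ℕ} (h : m ∣ L.sum) : m ∣ rs m t L := by
  have h1 : ∀ L : List ℕ, rs m t L ≡ t * L.sum [MOD m] := by
    intro L
    induction L with
    | nil => simp [rs_nil, Nat.ModEq.refl]
    | cons c L ih =>
      rw [rs_cons, List.sum_cons, mul_add]
      exact (Nat.mod_modEq _ _).add ih
  have h2 : t * L.sum ≡ 0 [MOD m] := (Nat.modEq_zero_iff_dvd).2 (Dvd.dvd.mul_left h t)
  exact (Nat.modEq_zero_iff_dvd).1 ((h1 L).trans h2)

theorem rs_one {m : ℕ} {L : List ℕ} (h : ∀ c ∈ L, c < m) : rs m 1 L = L.sum := by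
  induction L with
  | nil => rfl
  | cons c L ih =>
    rw [rs_cons, List.sum_cons, ih (fun c hc => h c (List.mem_cons_of_mem _ hc)), one_mul,
      Nat.mod_eq_of_lt (h c List.mem_cons_self)]

theorem rs_mod (m t : ℕ) (L : List ℕ) : rs m (t % m) L = rs m t L := by
  unfold rs
  congr 1
  apply List.map_congr_left
  intro c _
  rw [Nat.mod_mul_mod]

theorem rs_compl {m s : ℕ} (hs : s ≤ m) (hc : s.Coprime m) {L : List ℕ}
    (h : ∀ c ∈ L, 0 < c ∧ c < m) : rs m (m - s) L + rs m s L = m * L.length := by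
  induction L with
  | nil => rfl
  | cons c L ih =>
    have h1 := ih (fun c hc => h c (List.mem_cons_of_mem _ hc))
    have h2 : (m - s) * c % m + s * c % m = m := by
      have hcm := h c List.mem_cons_self
      have hm : 0 < m := by omega
      have h3 : (m - s) * c % m + s * c % m ≡ 0 [MOD m] := by
        have h4 : (m - s) * c % m + s * c % m ≡ (m - s) * c + s * c [MOD m] :=
          (Nat.mod_modEq _ _).add (Nat.mod_modEq _ _)
        refine h4.trans ?_
        rw [← add_mul, Nat.sub_add_cancel hs]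
        exact (Nat.modEq_zero_iff_dvd).2 (Dvd.intro c rfl)
      obtain ⟨q, hq⟩ := (Nat.modEq_zero_iff_dvd).1 h3
      have h5 : 0 < s * c % m := by
        rcases Nat.eq_zero_or_pos (s * c % m) with h0 | h0
        · exfalso
          have h6 : m ∣ s * c := Nat.dvd_of_mod_eq_zero h0
          have h7 : m ∣ c := (Nat.Coprime.dvd_mul_left hc.symm).1 h6
          exact absurd (Nat.le_of_dvd hcm.1 h7) (by omega)
        · exact h0
      have h6 := Nat.mod_lt ((m - s) * c) hm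
      have h7 := Nat.mod_lt (s * c) hm
      have h8 : q = 1 := by
        have h9 : m * q < m * 2 := by omega
        have h10 : m * 0 < m * q := by omega
        have := Nat.lt_of_mul_lt_mul_left h9
        have := Nat.lt_of_mul_lt_mul_left h10
        omega
      rw [hq, h8, mul_one]
    rw [rs_cons, rs_cons, List.length_cons, mul_add, mul_one, ← h1]
    omega

/-- The vector of a list of residues. -/
def vec (m s₂ s₃ s₄ : ℕ) (L : List ℕ) : V5 :=
  ⟨(rs m 1 L / m : ℕ), (L.length : ℕ), (rs m s₂ L / m : ℕ), (rs m s₃ L / m : ℕ),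
    (rs m s₄ L / m : ℕ)⟩

/-- The same with natural coordinates. -/
def vecN (m s₂ s₃ s₄ : ℕ) (L : List ℕ) : N5 :=
  ⟨rs m 1 L / m, L.length, rs m s₂ L / m, rs m s₃ L / m, rs m s₄ L / m⟩

theorem toV_vecN (m s₂ s₃ s₄ : ℕ) (L : List ℕ) :
    (vecN m s₂ s₃ s₄ L).toV = vec m s₂ s₃ s₄ L := rfl

/-- The contribution of `c` to `m * dot f (vec L)`. -/
def el (m s₂ s₃ s₄ : ℕ) (f : V5) (c : ℕ) : ℤ :=
  f.k * (1 * c % m : ℕ) + f.l * m + f.x * (s₂ * c % m : ℕ) + f.y * (s₃ * c % m : ℕ) +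
    f.z * (s₄ * c % m : ℕ)

theorem sum_el (m s₂ s₃ s₄ : ℕ) (f : V5) (L : List ℕ) :
    (L.map (el m s₂ s₃ s₄ f)).sum = f.k * rs m 1 L + f.l * (m * L.length) + f.x * rs m s₂ L +
      f.y * rs m s₃ L + f.z * rs m s₄ L := by
  induction L with
  | nil => simp [rs_nil]
  | cons c L ih =>
    rw [List.map_cons, List.sum_cons, ih, rs_cons, rs_cons, rs_cons, rs_cons, List.length_cons]
    unfold el
    push_cast
    ring

theorem mul_div_cast {m r : ℕ} (h : m ∣ r) : (m : ℤ) * ((r / m : ℕ) : ℤ) = r := by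
  exact_mod_cast Nat.mul_div_cancel' h

theorem mul_dot {m s₂ s₃ s₄ : ℕ} {L : List ℕ} (h : m ∣ L.sum) (f : V5) :
    (m : ℤ) * dot f (vec m s₂ s₃ s₄ L) = (L.map (el m s₂ s₃ s₄ f)).sum := by
  rw [sum_el]
  unfold dot vec
  have h1 := mul_div_cast (rs_dvd (t := 1) h)
  have h2 := mul_div_cast (rs_dvd (t := s₂) h)
  have h3 := mul_div_cast (rs_dvd (t := s₃) h)
  have h4 := mul_div_cast (rs_dvd (t := s₄) h)
  linear_combination f.k * h1 + f.x * h2 + f.y * h3 + f.z * h4

/-- `f` is one of the inequalities that express that `rs m 1` is minimal. -/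
def isMin (m s₂ s₃ s₄ : ℕ) (f : V5) : Bool :=
  decide (f = ⟨-2, 1, 0, 0, 0⟩) ||
  (decide (s₂.Coprime m ∧ s₂ ≤ m) && (decide (f = ⟨-1, 0, 1, 0, 0⟩) || decide (f = ⟨-1, 1, -1, 0, 0⟩))) ||
  (decide (s₃.Coprime m ∧ s₃ ≤ m) && (decide (f = ⟨-1, 0, 0, 1, 0⟩) || decide (f = ⟨-1, 1, 0, -1, 0⟩))) ||
  (decide (s₄.Coprime m ∧ s₄ ≤ m) && (decide (f = ⟨-1, 0, 0, 0, 1⟩) || decide (f = ⟨-1, 1, 0, 0, -1⟩)))

/-- All the finite checks. -/
def good (F : List V5) (U : List N5) (m s₂ s₃ s₄ : ℕ) (R : List (List ℕ)) : Bool :=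
  decide (2 ≤ m) &&
  F.all (fun f => (List.range m).all (fun c => decide (c = 0) || decide (0 ≤ el m s₂ s₃ s₄ f c)) ||
    isMin m s₂ s₃ s₄ f) &&
  eqL U (R.map (vecN m s₂ s₃ s₄)) &&
  R.all (fun c => decide (c.sum = m) && c.all (fun x => decide (0 < x) && decide (x < m))) &&
  (List.range m).all (fun t => !decide (t.Coprime m) || decide (t = 1) || decide (t = s₂) ||
    decide (t = s₃) || decide (t = s₄) || decide (t = m - 1) || (decide (t = m - s₂)
      && decide (s₂.Coprime m ∧ s₂ ≤ m)) ||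
    (decide (t = m - s₃) && decide (s₃.Coprime m ∧ s₃ ≤ m)) ||
    (decide (t = m - s₄) && decide (s₄.Coprime m ∧ s₄ ≤ m)))

theorem min_facet {m s : ℕ} (hm : 0 < m) (hsm : s ≤ m) (hc : s.Coprime m) {L : List ℕ}
    (h0 : ∀ c ∈ L, 0 < c ∧ c < m) (hs : m ∣ L.sum)
    (hmin : ∀ t : ℕ, t.Coprime m → rs m 1 L ≤ rs m t L) :
    ((rs m 1 L / m : ℕ) : ℤ) ≤ ((rs m s L / m : ℕ) : ℤ) ∧
    ((rs m 1 L / m : ℕ) : ℤ) ≤ (L.length : ℤ) - ((rs m s L / m : ℕ) : ℤ) := by
  have h1 := hmin s hc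
  have hc' : (m - s).Coprime m := (Nat.coprime_self_sub_left hsm).2 hc
  have h2 := hmin (m - s) hc'
  have h3 := rs_compl hsm hc h0
  obtain ⟨a, ha⟩ := rs_dvd (t := 1) hs
  obtain ⟨b, hb⟩ := rs_dvd (t := s) hs
  rw [ha, hb, Nat.mul_div_cancel_left _ hm, Nat.mul_div_cancel_left _ hm]
  rw [ha] at h1 h2
  rw [hb] at h1 h3
  have h4 : a ≤ b := Nat.le_of_mul_le_mul_left h1 hm
  have h5 : m * (a + b) ≤ m * L.length := by
    rw [mul_add]
    omega
  have h6 : a + b ≤ L.length := Nat.le_of_mul_le_mul_left h5 hm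
  constructor
  · exact_mod_cast h4
  · have : (a : ℤ) + b ≤ L.length := by exact_mod_cast h6
    linarith

theorem facets {F : List V5} {U : List N5} {m s₂ s₃ s₄ : ℕ} {R : List (List ℕ)}
    (hA : good F U m s₂ s₃ s₄ R = true) {L : List ℕ} (h0 : ∀ c ∈ L, 0 < c ∧ c < m)
    (hs : m ∣ L.sum) (hmin : ∀ t : ℕ, t.Coprime m → rs m 1 L ≤ rs m t L) :
    ∀ f ∈ F, 0 ≤ dot f (vec m s₂ s₃ s₄ L) := by
  unfold good at hA
  simp only [Bool.and_eq_true] at hA
  obtain ⟨⟨⟨⟨hm, hF⟩, -⟩, -⟩, -⟩ := hA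
  rw [decide_eq_true_eq] at hm
  rw [List.all_eq_true] at hF
  intro f hf
  have h1 := hF f hf
  rw [Bool.or_eq_true, List.all_eq_true] at h1
  have hm0 : (0 : ℤ) < m := by
    have : 0 < m := by omega
    exact_mod_cast this
  rcases h1 with h1 | h1
  · have h2 : 0 ≤ (L.map (el m s₂ s₃ s₄ f)).sum := by
      apply List.sum_nonneg
      intro x hx
      obtain ⟨c, hc, rfl⟩ := List.mem_map.1 hx
      have h3 := h1 c (List.mem_range.2 (h0 c hc).2)
      rw [Bool.or_eq_true, decide_eq_true_eq, decide_eq_true_eq] at h3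
      rcases h3 with h3 | h3
      · exact absurd h3 (by have := (h0 c hc).1; omega)
      · exact h3
    rw [← mul_dot hs] at h2
    by_contra hcon
    push Not at hcon
    have := mul_neg_of_pos_of_neg hm0 hcon
    omega
  · have key : ∀ s : ℕ, decide (s.Coprime m ∧ s ≤ m) = true →
      ((rs m 1 L / m : ℕ) : ℤ) ≤ ((rs m s L / m : ℕ) : ℤ) ∧
      ((rs m 1 L / m : ℕ) : ℤ) ≤ (L.length : ℤ) - ((rs m s L / m : ℕ) : ℤ) := by
      intro s hs'
      rw [decide_eq_true_eq] at hs'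
      exact min_facet (by omega) hs'.2 hs'.1 h0 hs hmin
    have key1 := key 1 (by rw [decide_eq_true_eq]; exact ⟨Nat.coprime_one_left m, by omega⟩)
    unfold isMin at h1
    simp only [Bool.or_eq_true, Bool.and_eq_true] at h1
    unfold dot vec
    rcases h1 with ((h1 | ⟨h1, h2⟩) | ⟨h1, h2⟩) | ⟨h1, h2⟩
    · rw [decide_eq_true_eq] at h1
      subst h1
      simp only
      linarith [key1.2]
    · have := key _ h1
      rw [decide_eq_true_eq, decide_eq_true_eq] at h2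
      rcases h2 with rfl | rfl
      · simp only
        linarith [this.1]
      · simp only
        linarith [this.2]
    · have := key _ h1
      rw [decide_eq_true_eq, decide_eq_true_eq] at h2
      rcases h2 with rfl | rfl
      · simp only
        linarith [this.1]
      · simp only
        linarith [this.2]
    · have := key _ h1
      rw [decide_eq_true_eq, decide_eq_true_eq] at h2
      rcases h2 with rfl | rfl
      · simp only
        linarith [this.1]
      · simp only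
        linarith [this.2]

theorem div_add_div' {m a b : ℕ} (hm : 0 < m) (ha : m ∣ a) (hb : m ∣ b) :
    (((a + b) / m : ℕ) : ℤ) = ((a / m : ℕ) : ℤ) + ((b / m : ℕ) : ℤ) := by
  obtain ⟨a, rfl⟩ := ha
  obtain ⟨b, rfl⟩ := hb
  rw [← mul_add, Nat.mul_div_cancel_left _ hm, Nat.mul_div_cancel_left _ hm,
    Nat.mul_div_cancel_left _ hm]
  push_cast
  rfl

theorem vec_append {m s₂ s₃ s₄ : ℕ} (hm : 0 < m) {L M : List ℕ} (hL : m ∣ L.sum)
    (hM : m ∣ M.sum) : vec m s₂ s₃ s₄ (L ++ M) = (vec m s₂ s₃ s₄ L).add (vec m s₂ s₃ s₄ M) := by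
  unfold vec V5.add
  simp only [rs_append, div_add_div' hm (rs_dvd hL) (rs_dvd hM), List.length_append, Nat.cast_add]

theorem vec_flatten {m s₂ s₃ s₄ : ℕ} (hm : 0 < m) {P : List (List ℕ)}
    (hP : ∀ c ∈ P, c.sum = m) : m ∣ P.flatten.sum ∧
      vec m s₂ s₃ s₄ P.flatten = sumL (P.map (vec m s₂ s₃ s₄)) ∧
      P.flatten.sum = P.length * m := by
  induction P with
  | nil => simp [vec, rs_nil, sumL, V5.zero]
  | cons c P ih =>
    obtain ⟨h1, h2, h3⟩ := ih (fun c hc => hP c (List.mem_cons_of_mem _ hc))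
    have h4 := hP c List.mem_cons_self
    rw [List.flatten_cons, List.sum_append]
    refine ⟨?_, ?_, ?_⟩
    · exact Nat.dvd_add (by rw [h4]) h1
    · rw [vec_append hm (by rw [h4]) h1, h2]
      rfl
    · rw [h3, h4, List.length_cons]
      ring

theorem exists_real {m s₂ s₃ s₄ : ℕ} {R : List (List ℕ)} {us : List V5}
    (h : ∀ u ∈ us, u ∈ R.map (vec m s₂ s₃ s₄)) :
    ∃ P : List (List ℕ), P.map (vec m s₂ s₃ s₄) = us ∧ ∀ c ∈ P, c ∈ R := by
  induction us with
  | nil => exact ⟨[], rfl, by simp⟩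
  | cons u us ih =>
    obtain ⟨P, h1, h2⟩ := ih (fun u hu => h u (List.mem_cons_of_mem _ hu))
    obtain ⟨c, hc, hcu⟩ := List.mem_map.1 (h u List.mem_cons_self)
    refine ⟨c :: P, by rw [List.map_cons, h1, hcu], ?_⟩
    intro d hd
    rcases List.mem_cons.1 hd with rfl | hd
    · exact hc
    · exact h2 d hd

/-- A zero-sum sequence with minimal sum of residues has a twin of the same type that splits
completely. -/
theorem core {F : List V5} {U : List N5} {m s₂ s₃ s₄ : ℕ} {R : List (List ℕ)}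
    (hidp : IDP F (U.map N5.toV))
    (hg : good F U m s₂ s₃ s₄ R = true) {L : List ℕ} (h0 : ∀ c ∈ L, 0 < c ∧ c < m)
    (hs : m ∣ L.sum) (hmin : ∀ t : ℕ, t.Coprime m → rs m 1 L ≤ rs m t L) :
    ∃ P : List (List ℕ), P.length * m = L.sum ∧ (∀ c ∈ P, c.sum = m ∧ ∀ x ∈ c, 0 < x ∧ x < m) ∧
      P.flatten.length = L.length ∧ ∀ t : ℕ, t.Coprime m → rs m t P.flatten = rs m t L := by
  have hF := facets hg h0 hs hmin
  have hg' := hg
  unfold good at hg'
  simp only [Bool.and_eq_true] at hg'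
  obtain ⟨⟨⟨⟨hm, -⟩, hU⟩, hR⟩, ht⟩ := hg'
  rw [decide_eq_true_eq] at hm
  replace hU : U.map N5.toV = R.map (vec m s₂ s₃ s₄) := by
    rw [eq_of_eqL hU, List.map_map]
    rfl
  rw [List.all_eq_true] at hR ht
  have hm0 : 0 < m := by omega
  have hR' : ∀ c ∈ R, c.sum = m ∧ ∀ x ∈ c, 0 < x ∧ x < m := by
    intro c hc
    have := hR c hc
    rw [Bool.and_eq_true, decide_eq_true_eq, List.all_eq_true] at this
    refine ⟨this.1, fun x hx => ?_⟩
    have h3 := this.2 x hx
    rw [Bool.and_eq_true, decide_eq_true_eq, decide_eq_true_eq] at h3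
    exact h3
  have hsum : rs m 1 L = L.sum := rs_one (fun c hc => (h0 c hc).2)
  obtain ⟨K, hK⟩ := hs
  have hwk : (vec m s₂ s₃ s₄ L).k = K := by
    unfold vec
    simp only
    rw [hsum, hK, Nat.mul_div_cancel_left _ hm0]
  obtain ⟨us, hus1, hus2, hus3⟩ := hidp (vec m s₂ s₃ s₄ L) hF
  rw [hwk] at hus1
  obtain ⟨P, hP1, hP2⟩ := exists_real (R := R) (us := us) (m := m) (s₂ := s₂) (s₃ := s₃) (s₄ := s₄)
    (by
      intro u hu
      rw [← hU]
      exact hus2 u hu)
  have hPlen : P.length = K := by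
    rw [← hP1, List.length_map] at hus1
    exact_mod_cast hus1
  have hPR : ∀ c ∈ P, c.sum = m ∧ ∀ x ∈ c, 0 < x ∧ x < m := fun c hc => hR' c (hP2 c hc)
  obtain ⟨hPd, hPv, hPs⟩ := vec_flatten (m := m) (s₂ := s₂) (s₃ := s₃) (s₄ := s₄) hm0
    (fun c hc => (hPR c hc).1)
  rw [hP1, hus3] at hPv
  have hLd : m ∣ L.sum := ⟨K, hK⟩
  have hflat : ∀ c ∈ P.flatten, 0 < c ∧ c < m := by
    intro x hx
    obtain ⟨c, hc, hxc⟩ := List.mem_flatten.1 hx
    exact (hPR c hc).2 x hxc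
  have hcan : ∀ a b : ℕ, m ∣ a → m ∣ b → ((a / m : ℕ) : ℤ) = ((b / m : ℕ) : ℤ) → a = b := by
    intro a b ha hb hab
    have h3 : a / m = b / m := by exact_mod_cast hab
    rw [← Nat.mul_div_cancel' ha, ← Nat.mul_div_cancel' hb, h3]
  have e1 : rs m 1 P.flatten = rs m 1 L :=
    hcan _ _ (rs_dvd hPd) (rs_dvd hLd) (congrArg V5.k hPv)
  have e2 : rs m s₂ P.flatten = rs m s₂ L :=
    hcan _ _ (rs_dvd hPd) (rs_dvd hLd) (congrArg V5.x hPv)
  have e3 : rs m s₃ P.flatten = rs m s₃ L :=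
    hcan _ _ (rs_dvd hPd) (rs_dvd hLd) (congrArg V5.y hPv)
  have e4 : rs m s₄ P.flatten = rs m s₄ L :=
    hcan _ _ (rs_dvd hPd) (rs_dvd hLd) (congrArg V5.z hPv)
  have elen : P.flatten.length = L.length := by
    have := congrArg V5.l hPv
    unfold vec at this
    simp only at this
    exact_mod_cast this
  have ecompl : ∀ s : ℕ, s ≤ m → s.Coprime m → rs m s P.flatten = rs m s L →
      rs m (m - s) P.flatten = rs m (m - s) L := by
    intro s hsm hsc hseq
    have h3 := rs_compl hsm hsc hflat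
    have h4 := rs_compl hsm hsc h0
    rw [elen] at h3
    omega
  refine ⟨P, by rw [hPlen, hK, mul_comm], hPR, elen, ?_⟩
  intro t htc
  have h3 := ht (t % m) (List.mem_range.2 (Nat.mod_lt _ hm0))
  rw [← rs_mod m t, ← rs_mod m t L]
  have htc' : (t % m).Coprime m := by
    rw [Nat.Coprime, Nat.gcd_comm] at htc ⊢
    rw [Nat.gcd_comm, ← Nat.gcd_rec]
    exact htc
  simp only [Bool.or_eq_true, Bool.and_eq_true, Bool.not_eq_true', decide_eq_false_iff_not,
    decide_eq_true_eq] at h3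
  rcases h3 with (((((((h3 | h3) | h3) | h3) | h3) | h3) | h3) | h3) | h3
  · exact absurd htc' h3
  · rw [h3, e1]
  · rw [h3, e2]
  · rw [h3, e3]
  · rw [h3, e4]
  · rw [h3]
    exact ecompl 1 (by omega) (Nat.coprime_one_left m) e1
  · rw [h3.1]
    exact ecompl _ h3.2.2 h3.2.1 e2
  · rw [h3.1]
    exact ecompl _ h3.2.2 h3.2.1 e3
  · rw [h3.1]
    exact ecompl _ h3.2.2 h3.2.1 e4

end Pool.Agent.Helper75.Poly
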