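import Pool.Agent.Helper75.Zss.Stick
import Pool.Agent.Helper75.Zss.Index

/-!
# Galois transfer and the final divisibility theorem
-/

namespace Pool.Agent.Helper75.Zss

open Finset Polynomial

section transfer

variable {F : Type*} [Field F] [Fintype F] [DecidableEq F] {m n : ℕ}

omit [Fintype F] in
theorem prod_apply {ρ : MulChar F ℂ} {z : ℂ} {e : F → ℕ} (hρ : ∀ u, u ≠ 0 → ρ u = z ^ e u)
    (b : Fin n → ℕ) (u : Fin n → F) : ∏ i, (ρ ^ b i) (u i) =
      if ∀ i, u i ≠ 0 then z ^ (∑ i, e (u i) * b i) else 0 := by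
  classical
  split_ifs with h
  · rw [← prod_pow_eq_pow_sum]
    apply prod_congr rfl
    intro i _
    have h1 := MulChar.pow_apply_coe ρ (b i) (Units.mk0 (u i) (h i))
    rw [Units.val_mk0] at h1
    rw [h1, hρ _ (h i), pow_mul]
  · push Not at h
    obtain ⟨i, hi⟩ := h
    apply prod_eq_zero (mem_univ i)
    rw [hi, MulChar.map_zero]

theorem exists_poly (χ : MulChar F ℂ) [NeZero m] (hχ : χ ^ m = 1) (a : Fin n → ZMod m) (ν : ℕ)
    {μ : ℂ} (hμ : IsPrimitiveRoot μ m) :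
    ∃ f : ℚ[X], ∀ s : ℕ, aeval (μ ^ s) f = jac (χ ^ s) a / (Fintype.card F : ℂ) ^ ν := by
  classical
  have hex : ∀ u : F, ∃ k, u ≠ 0 → χ u = μ ^ k := by
    intro u
    by_cases hu : u = 0
    · exact ⟨0, fun h => absurd hu h⟩
    · obtain ⟨k, -, hk⟩ := MulChar.exists_apply_eq_pow hχ hμ hu
      exact ⟨k, fun _ => hk⟩
  choose e he using hex
  refine ⟨C (1 / (((Fintype.card F : ℚ) - 1) * (Fintype.card F : ℚ) ^ ν)) *
    ∑ u : Fin n → F with ∑ i, u i = 0,
      (if ∀ i, u i ≠ 0 then X ^ (∑ i, e (u i) * (a i).val) else 0), ?_⟩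
  intro s
  have hs : ∀ u, u ≠ 0 → (χ ^ s) u = (μ ^ s) ^ e u := by
    intro u hu
    have h1 := MulChar.pow_apply_coe χ s (Units.mk0 u hu)
    rw [Units.val_mk0] at h1
    rw [h1, he u hu, ← pow_mul, ← pow_mul, mul_comm]
  have h1 : aeval (μ ^ s) (∑ u : Fin n → F with ∑ i, u i = 0,
      (if ∀ i, u i ≠ 0 then (X : ℚ[X]) ^ (∑ i, e (u i) * (a i).val) else 0)) =
      ∑ u : Fin n → F with ∑ i, u i = 0, ∏ i, ((χ ^ s) ^ (a i).val) (u i) := by
    rw [map_sum]
    apply sum_congr rfl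
    intro u _
    rw [prod_apply hs (fun i => (a i).val) u]
    split_ifs with h
    · rw [map_pow, aeval_X]
    · rw [map_zero]
  rw [map_mul, h1, aeval_C]
  unfold jac
  have hq := card_sub_one_ne_zero (F := F)
  have hq' := card_ne_zero' (F := F)
  rw [map_div₀, map_one, map_mul, map_sub, map_natCast, map_one, map_pow, map_natCast]
  field_simp

/-- Integrality of `J / q ^ ν` passes to Galois conjugate characters. -/
theorem transfer {χ : MulChar F ℂ} [NeZero m] (hχ : χ ^ m = 1) {a : Fin n → ZMod m} {ν s : ℕ}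
    (hs : s.Coprime m) (h : IsIntegral ℤ (jac χ a / (Fintype.card F : ℂ) ^ ν)) :
    IsIntegral ℤ (jac (χ ^ s) a / (Fintype.card F : ℂ) ^ ν) := by
  have hμ := Complex.isPrimitiveRoot_exp m (NeZero.ne m)
  set μ := Complex.exp (2 * Real.pi * Complex.I / m) with hμdef
  have hm0 : 0 < m := Nat.pos_of_ne_zero (NeZero.ne m)
  obtain ⟨f, hf⟩ := exists_poly χ hχ a ν hμ
  have h1 := hf 1
  rw [pow_one, pow_one] at h1
  rw [← h1] at h
  rw [← hf s]
  obtain ⟨P, hP, hP0⟩ := h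
  refine ⟨P, hP, ?_⟩
  have key : ∀ z : ℂ, eval₂ (algebraMap ℤ ℂ) (aeval z f) P =
      aeval z ((P.map (Int.castRingHom ℚ)).comp f) := by
    intro z
    rw [aeval_comp, aeval_def (R := ℚ) (aeval z f), eval₂_map]
    congr 1
  rw [key] at hP0 ⊢
  have hμs : IsPrimitiveRoot (μ ^ s) m := hμ.pow_of_coprime s hs
  have h2 : minpoly ℚ μ ∣ (P.map (Int.castRingHom ℚ)).comp f := minpoly.dvd ℚ μ hP0
  have h3 : minpoly ℚ (μ ^ s) = minpoly ℚ μ := by
    rw [← cyclotomic_eq_minpoly_rat hμ hm0, ← cyclotomic_eq_minpoly_rat hμs hm0]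
  rw [← h3] at h2
  obtain ⟨g, hg⟩ := h2
  rw [hg, map_mul, minpoly.aeval, zero_mul]

end transfer

section main

variable {F : Type*} [Field F] [Fintype F] [DecidableEq F] {m n ν : ℕ}

omit [DecidableEq F] in
/-- Two characters of the same order are powers of each other. -/
theorem exists_pow_eq [NeZero m] {χ η : MulChar F ℂ} (hχ : orderOf χ = m) (hη : orderOf η = m) :
    ∃ s : ℕ, s.Coprime m ∧ χ = η ^ s := by
  obtain ⟨g, hg⟩ := IsCyclic.exists_generator (α := Fˣ)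
  have hm0 : 0 < m := Nat.pos_of_ne_zero (NeZero.ne m)
  have hη' : IsPrimitiveRoot (η g) m := by
    refine ⟨?_, ?_⟩
    · rw [← MulChar.pow_apply_coe, ← hη, pow_orderOf_eq_one, MulChar.one_apply_coe]
    · intro d hd
      rw [← MulChar.pow_apply_coe] at hd
      have h1 : η ^ d = 1 := by
        rw [MulChar.eq_iff hg, hd, MulChar.one_apply_coe]
      rw [← hη]
      exact orderOf_dvd_of_pow_eq_one h1
  have hχ' : (χ g) ^ m = 1 := by
    rw [← MulChar.pow_apply_coe, ← hχ, pow_orderOf_eq_one, MulChar.one_apply_coe]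
  obtain ⟨s, -, hs⟩ := hη'.eq_pow_of_pow_eq_one hχ'
  have h1 : χ = η ^ s := by
    rw [MulChar.eq_iff hg, MulChar.pow_apply_coe, hs]
  refine ⟨s, ?_, h1⟩
  have h2 : orderOf (η ^ s) = m := by rw [← h1, hχ]
  rw [orderOf_pow, hη] at h2
  have h3 : m / m.gcd s = m / 1 := by rw [h2, Nat.div_one]
  have h4 : m.gcd s ∣ m := Nat.gcd_dvd_left m s
  obtain ⟨k, hk⟩ := h4
  have hg0 : 0 < m.gcd s := Nat.gcd_pos_of_pos_left s hm0
  rw [Nat.Coprime, Nat.gcd_comm]
  have h5 : m / m.gcd s = k := by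
    nth_rewrite 1 [hk]
    exact Nat.mul_div_cancel_left k hg0
  rw [h5, Nat.div_one] at h3
  rw [h3] at hk
  have h6 : 1 * m = m.gcd s * m := by rw [one_mul]; exact hk
  exact (Nat.eq_of_mul_eq_mul_right hm0 h6).symm

/-- If the Jacobi sum is divisible by `q ^ ν` in characteristic `p ≡ 1 mod m` then all the sums
of residues are at least `(ν + 1) m`. -/
theorem le_sum_val [NeZero m] [NeZero n] {p : ℕ} [hp : Fact p.Prime] [CharP F p] (hm : m ∣ p - 1)
    {a : Fin n → ZMod m} (ha : ∀ i, a i ≠ 0) (hs : ∑ i, a i = 0) {χ : MulChar F ℂ}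
    (hχ : orderOf χ = m) (hint : IsIntegral ℤ (jac χ a / (Fintype.card F : ℂ) ^ ν))
    {t : ZMod m} (ht : IsUnit t) : (ν + 1) * m ≤ ∑ i, (t * a i).val := by
  obtain ⟨𝔓, η, h𝔓, hq𝔓, hη, hJ⟩ := exists_eta (F := F) (m := m) (p := p) hm
  obtain ⟨s, hsc, hsχ⟩ := exists_pow_eq hη hχ
  apply le_sum_val_aux h𝔓 hq𝔓 hη hJ ha hs ht
  have h1 : η ^ t.val = χ ^ (s * t.val) := by rw [hsχ, pow_mul]
  rw [h1]
  apply transfer (by rw [← hχ, pow_orderOf_eq_one]) _ hint
  apply Nat.Coprime.mul_left hsc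
  obtain ⟨u, rfl⟩ := ht
  exact ZMod.val_coe_unit_coprime u

/-- Main theorem: for `ν m + 3 ≤ 2 n` divisibility of the Jacobi sum by `q ^ ν` in characteristic
`p ≡ 1 mod m` forces a splitting in `ν + 1` zero-sum parts. -/
theorem split_of_integral [NeZero m] [NeZero n] {p : ℕ} [hp : Fact p.Prime] [CharP F p]
    (hm : m ∣ p - 1) (hlen : ν * m + 3 ≤ 2 * n)
    {a : Fin n → ZMod m} (ha : ∀ i, a i ≠ 0) (hs : ∑ i, a i = 0) {χ : MulChar F ℂ}
    (hχ : orderOf χ = m) (hint : IsIntegral ℤ (jac χ a / (Fintype.card F : ℂ) ^ ν)) :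
    ∃ P : Fin n → Fin (ν + 1), Function.Surjective P ∧ ∀ k, ∑ i with P i = k, a i = 0 :=
  index_fun ha hs hlen (fun _ ht => le_sum_val hm ha hs hχ hint ht)

end main

end Pool.Agent.Helper75.Zss
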