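import Pool.Agent.Helper75.Zss.Basic

/-!
# Zero-sum theory: discrete logarithms, the length `L`, perfect multisets
-/

namespace Pool.Agent.Helper75.Zss

variable {G : Type*} [AddCommGroup G]

/-- The least `i` with `i • g = x`. -/
noncomputable def lg (g x : G) : ℕ := sInf {i : ℕ | i • g = x}

theorem lg_le {g x : G} {i : ℕ} (h : i • g = x) : lg g x ≤ i := Nat.sInf_le h

theorem lg_spec_of {g x : G} {i : ℕ} (h : i • g = x) : lg g x • g = x :=
  Nat.sInf_mem (s := {i : ℕ | i • g = x}) ⟨i, h⟩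

theorem lg_zero (g : G) : lg g 0 = 0 := Nat.le_zero.1 (lg_le (zero_nsmul g))

section fin

variable [Finite G]

theorem exists_nsmul {g x : G} (h : x ∈ AddSubgroup.zmultiples g) : ∃ i : ℕ, i • g = x := by
  have := (isOfFinAddOrder_of_finite g).mem_multiples_iff_mem_zmultiples.2 h
  exact (AddSubmonoid.mem_multiples_iff _ _).1 this

theorem lg_spec {g x : G} (h : x ∈ AddSubgroup.zmultiples g) : lg g x • g = x := by
  obtain ⟨i, hi⟩ := exists_nsmul h
  exact lg_spec_of hi

theorem lg_lt {g x : G} (h : x ∈ AddSubgroup.zmultiples g) : lg g x < addOrderOf g := by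
  obtain ⟨i, hi⟩ := exists_nsmul h
  have h1 : (i % addOrderOf g) • g = x := by rw [mod_addOrderOf_nsmul, hi]
  exact (lg_le h1).trans_lt (Nat.mod_lt _ (addOrderOf_pos g))

omit [Finite G] in
theorem lg_nsmul {g : G} {i : ℕ} (hi : i < addOrderOf g) : lg g (i • g) = i := by
  have h1 : lg g (i • g) • g = i • g := lg_spec_of rfl
  have h2 : lg g (i • g) ≤ i := lg_le rfl
  have h3 := nsmul_inj_mod.1 h1
  rwa [Nat.mod_eq_of_lt (h2.trans_lt hi), Nat.mod_eq_of_lt hi] at h3

theorem lg_nsmul' {g : G} (i : ℕ) : lg g (i • g) = i % addOrderOf g := by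
  rw [← mod_addOrderOf_nsmul, lg_nsmul (Nat.mod_lt _ (addOrderOf_pos g))]

theorem lg_ne_zero {g x : G} (h : x ∈ AddSubgroup.zmultiples g) (hx : x ≠ 0) : lg g x ≠ 0 := by
  intro h0
  have := lg_spec h
  rw [h0, zero_nsmul] at this
  exact hx this.symm

theorem lg_ne_one {g x : G} (h : x ∈ AddSubgroup.zmultiples g) (hx : x ≠ g) : lg g x ≠ 1 := by
  intro h0
  have := lg_spec h
  rw [h0, one_nsmul] at this
  exact hx this.symm

theorem lg_self {g : G} (hg : g ≠ 0) : lg g g = 1 := by
  have h1 : lg g g ≤ 1 := lg_le (one_nsmul g)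
  have h2 : lg g g ≠ 0 := lg_ne_zero (AddSubgroup.mem_zmultiples g) hg
  omega

theorem lg_inj {g x y : G} (hx : x ∈ AddSubgroup.zmultiples g) (hy : y ∈ AddSubgroup.zmultiples g)
    (h : lg g x = lg g y) : x = y := by
  rw [← lg_spec hx, ← lg_spec hy, h]

end fin

/-- The total length of `α` with respect to `g`. -/
noncomputable def L (g : G) (α : Multiset G) : ℕ := (α.map (lg g)).sum

theorem L_nil (g : G) : L g 0 = 0 := by simp [L]

theorem L_cons (g b : G) (α : Multiset G) : L g (b ::ₘ α) = lg g b + L g α := by simp [L]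

theorem L_add (g : G) (α β : Multiset G) : L g (α + β) = L g α + L g β := by simp [L]

theorem L_mono (g : G) {α β : Multiset G} (h : α ≤ β) : L g α ≤ L g β := by
  obtain ⟨γ, rfl⟩ := Multiset.le_iff_exists_add.1 h
  rw [L_add]
  omega

section fin

variable [Finite G]

theorem L_smul {g : G} {α : Multiset G} (h : ∀ x ∈ α, x ∈ AddSubgroup.zmultiples g) :
    L g α • g = α.sum := by
  induction α using Multiset.induction_on with
  | empty => simp [L_nil]
  | cons b α ih =>
    rw [L_cons, add_nsmul, ih (fun x hx => h x (Multiset.mem_cons_of_mem hx)),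
      lg_spec (h b (Multiset.mem_cons_self b α)), Multiset.sum_cons]

theorem L_mod {g : G} {α : Multiset G} (h : ∀ x ∈ α, x ∈ AddSubgroup.zmultiples g) :
    L g α % addOrderOf g = lg g α.sum := by
  rw [← L_smul h, lg_nsmul']

theorem addOrderOf_le_L {g : G} {z : Multiset G} (h : ∀ x ∈ z, x ∈ AddSubgroup.zmultiples g)
    (h0 : ∀ x ∈ z, x ≠ 0) (hz : z ≠ 0) (hs : z.sum = 0) : addOrderOf g ≤ L g z := by
  have h1 := L_mod h
  rw [hs, lg_zero] at h1
  have h2 : 0 < L g z := by
    obtain ⟨x, hx⟩ := Multiset.exists_mem_of_ne_zero hz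
    obtain ⟨z', rfl⟩ := Multiset.exists_cons_of_mem hx
    rw [L_cons]
    have := lg_ne_zero (h x hx) (h0 x hx)
    omega
  exact Nat.le_of_dvd h2 (Nat.dvd_of_mod_eq_zero h1)

theorem lg_sum_le_L {g : G} {R : Multiset G} (h : ∀ x ∈ R, x ∈ AddSubgroup.zmultiples g) :
    lg g R.sum ≤ L g R := lg_le (L_smul h)

theorem Reach.le_L {g : G} {α : Multiset G} (h : ∀ x ∈ α, x ∈ AddSubgroup.zmultiples g)
    (h0 : ∀ x ∈ α, x ≠ 0) {j : ℕ} {x : G} (H : Reach α j x) :
    j * addOrderOf g + lg g x ≤ L g α := by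
  obtain ⟨Z, R, rfl, h2, h3, rfl⟩ := H
  refine le_trans ?_ (L_mono g h3)
  rw [L_add]
  have hR : lg g R.sum ≤ L g R :=
    lg_sum_le_L (fun x hx => h x (Multiset.mem_of_le ((Multiset.le_add_left _ _).trans h3) hx))
  have hZ : ∀ x ∈ Z.sum, x ∈ α := fun x hx =>
    Multiset.mem_of_le ((Multiset.le_add_right _ _).trans h3) hx
  have : Multiset.card Z * addOrderOf g ≤ L g Z.sum := by
    clear h3 hR
    induction Z using Multiset.induction_on with
    | empty => simp
    | cons z Z ih =>
      rw [Multiset.sum_cons] at hZ ⊢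
      rw [L_add, Multiset.card_cons]
      have h4 := ih (fun w hw => h2 w (Multiset.mem_cons_of_mem hw))
        (fun x hx => hZ x (Multiset.mem_add.2 (Or.inr hx)))
      have h5 := h2 z (Multiset.mem_cons_self z Z)
      have h6 := addOrderOf_le_L (g := g) (z := z)
        (fun x hx => h x (hZ x (Multiset.mem_add.2 (Or.inl hx))))
        (fun x hx => h0 x (hZ x (Multiset.mem_add.2 (Or.inl hx)))) h5.1 h5.2
      rw [add_mul, one_mul]
      omega
  omega

end fin

section count

variable [Fintype G]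

theorem pair_inj {g : G} {p q : ℕ × G} (hp : p.2 ∈ AddSubgroup.zmultiples g)
    (hq : q.2 ∈ AddSubgroup.zmultiples g)
    (h : p.1 * addOrderOf g + lg g p.2 = q.1 * addOrderOf g + lg g q.2) : p = q := by
  have hp' := lg_lt hp
  have hq' := lg_lt hq
  have h1 : p.1 = q.1 := by
    have e1 : (p.1 * addOrderOf g + lg g p.2) / addOrderOf g = p.1 := by
      rw [mul_comm, Nat.mul_add_div (addOrderOf_pos g), Nat.div_eq_of_lt hp', add_zero]
    have e2 : (q.1 * addOrderOf g + lg g q.2) / addOrderOf g = q.1 := by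
      rw [mul_comm, Nat.mul_add_div (addOrderOf_pos g), Nat.div_eq_of_lt hq', add_zero]
    rw [← e1, ← e2, h]
  have h2 : lg g p.2 = lg g q.2 := by
    rw [h1] at h
    omega
  exact Prod.ext h1 (lg_inj hp hq h2)

theorem N_le_L {g : G} {α : Multiset G} (h : ∀ x ∈ α, x ∈ AddSubgroup.zmultiples g)
    (h0 : ∀ x ∈ α, x ≠ 0) : N α ≤ L g α + 1 := by
  have : (S α).card ≤ (Finset.range (L g α + 1)).card := by
    apply Finset.card_le_card_of_injOn (fun p => p.1 * addOrderOf g + lg g p.2)
    · intro p hp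
      have hp' := mem_S.1 hp
      rw [Finset.coe_range, Set.mem_Iio]
      exact Nat.lt_succ_of_le (hp'.le_L h h0)
    · intro p hp q hq hpq
      exact pair_inj ((mem_S.1 hp).mem_of h) ((mem_S.1 hq).mem_of h) hpq
  rwa [Finset.card_range] at this

/-- `α` is perfect with respect to `g`. -/
def Perf (g : G) (α : Multiset G) : Prop :=
  (∀ x ∈ α, x ∈ AddSubgroup.zmultiples g) ∧ L g α + 1 ≤ N α

theorem Perf.N_eq {g : G} {α : Multiset G} (h : Perf g α) (h0 : ∀ x ∈ α, x ≠ 0) :
    N α = L g α + 1 := le_antisymm (N_le_L h.1 h0) h.2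

theorem perf_nil (g : G) : Perf g 0 := ⟨by simp, by rw [N_nil, L_nil]⟩

theorem Perf.cons_self {g : G} {α : Multiset G} (h : Perf g α) (hg : g ≠ 0) :
    Perf g (g ::ₘ α) := by
  refine ⟨?_, ?_⟩
  · intro x hx
    rcases Multiset.mem_cons.1 hx with rfl | hx
    · exact AddSubgroup.mem_zmultiples x
    · exact h.1 x hx
  · have h1 := N_cons α g
    have h2 := h.2
    rw [L_cons, lg_self hg]
    omega

theorem Perf.exists_pair {g : G} {α : Multiset G} (h : Perf g α) (h0 : ∀ x ∈ α, x ≠ 0) {r : ℕ}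
    (hr : r ≤ L g α) : ∃ j x, Reach α j x ∧ j * addOrderOf g + lg g x = r := by
  have hinj : Set.InjOn (fun p : ℕ × G => p.1 * addOrderOf g + lg g p.2) (S α) := by
    intro p hp q hq hpq
    exact pair_inj ((mem_S.1 hp).mem_of h.1) ((mem_S.1 hq).mem_of h.1) hpq
  have hmaps : Set.MapsTo (fun p : ℕ × G => p.1 * addOrderOf g + lg g p.2) (S α)
      (Finset.range (L g α + 1)) := by
    intro p hp
    have hp' := mem_S.1 hp
    rw [Finset.coe_range, Set.mem_Iio]
    exact Nat.lt_succ_of_le (hp'.le_L h.1 h0)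
  have hsurj := Finset.surjOn_of_injOn_of_card_le _ hmaps hinj (by
    rw [Finset.card_range]
    exact h.2)
  obtain ⟨p, hp, hpr⟩ := hsurj (by
    rw [Finset.coe_range, Set.mem_Iio]
    exact Nat.lt_succ_of_le hr : r ∈ ((Finset.range (L g α + 1) : Finset ℕ) : Set ℕ))
  exact ⟨p.1, p.2, mem_S.1 hp, hpr⟩

theorem Perf.reach {g : G} {α : Multiset G} (h : Perf g α) (h0 : ∀ x ∈ α, x ≠ 0) {j : ℕ} {x : G}
    (hx : x ∈ AddSubgroup.zmultiples g) (hr : j * addOrderOf g + lg g x ≤ L g α) :
    Reach α j x := by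
  obtain ⟨j', x', h1, h2⟩ := h.exists_pair h0 hr
  have := pair_inj (p := (j', x')) (q := (j, x)) (h1.mem_of h.1) hx h2
  have e1 : j' = j := (Prod.ext_iff.1 this).1
  have e2 : x' = x := (Prod.ext_iff.1 this).2
  rwa [e1, e2] at h1

theorem N_cons_out {K : AddSubgroup G} {β : Multiset G} (hβ : ∀ x ∈ β, x ∈ K) {b : G}
    (hb : b ∉ K) : 2 * N β ≤ N (b ::ₘ β) := by
  classical
  have h1 : (S β).disjUnion ((S β).map ⟨fun p => (p.1, p.2 + b), by
      intro p q hpq
      simp only [Prod.mk.injEq, add_left_inj] at hpq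
      exact Prod.ext hpq.1 hpq.2⟩) (by
      rw [Finset.disjoint_left]
      intro p hp hp'
      rw [Finset.mem_map] at hp'
      obtain ⟨q, hq, rfl⟩ := hp'
      have e1 := (mem_S.1 hp).mem_of hβ
      have e2 := (mem_S.1 hq).mem_of hβ
      apply hb
      have e3 : (q.2 + b) - q.2 ∈ K := K.sub_mem e1 e2
      simpa using e3) ⊆ S (b ::ₘ β) := by
    intro p hp
    rw [Finset.mem_disjUnion] at hp
    rcases hp with hp | hp
    · exact S_mono (Multiset.le_cons_self β b) hp
    · rw [Finset.mem_map] at hp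
      obtain ⟨q, hq, rfl⟩ := hp
      exact mem_S.2 ((mem_S.1 hq).shift b)
  have h2 := Finset.card_le_card h1
  rw [Finset.card_disjUnion, Finset.card_map] at h2
  unfold N
  omega

end count

section cnt

variable [Finite G] [DecidableEq G]

theorem cnt0 {g : G} {β : Multiset G} (h : ∀ x ∈ β, x ∈ AddSubgroup.zmultiples g)
    (h0 : ∀ x ∈ β, x ≠ 0) : 2 * Multiset.card β ≤ L g β + Multiset.count g β := by
  induction β using Multiset.induction_on with
  | empty => simp
  | cons b β ih =>
    have h1 := ih (fun x hx => h x (Multiset.mem_cons_of_mem hx))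
      (fun x hx => h0 x (Multiset.mem_cons_of_mem hx))
    rw [L_cons, Multiset.card_cons, Multiset.count_cons]
    have h2 := lg_ne_zero (h b (Multiset.mem_cons_self b β)) (h0 b (Multiset.mem_cons_self b β))
    by_cases hb : g = b
    · rw [if_pos hb]
      omega
    · rw [if_neg hb]
      have h3 := lg_ne_one (h b (Multiset.mem_cons_self b β)) (Ne.symm hb)
      omega

theorem cnt1 {g : G} (hg : g ≠ 0) {β : Multiset G} (h : ∀ x ∈ β, x ∈ AddSubgroup.zmultiples g)
    (h0 : ∀ x ∈ β, x ≠ 0) {y : G} (hy : 3 ≤ lg g y) :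
    2 * Multiset.card β + Multiset.count y β ≤ L g β + Multiset.count g β := by
  induction β using Multiset.induction_on with
  | empty => simp
  | cons b β ih =>
    have h1 := ih (fun x hx => h x (Multiset.mem_cons_of_mem hx))
      (fun x hx => h0 x (Multiset.mem_cons_of_mem hx))
    rw [L_cons, Multiset.card_cons, Multiset.count_cons, Multiset.count_cons]
    have h2 := lg_ne_zero (h b (Multiset.mem_cons_self b β)) (h0 b (Multiset.mem_cons_self b β))
    by_cases hb : g = b
    · have hyb : y ≠ b := by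
        rintro rfl
        rw [hb, lg_self (hb ▸ hg)] at hy
        omega
      rw [if_pos hb, if_neg hyb]
      omega
    · rw [if_neg hb]
      have h3 := lg_ne_one (h b (Multiset.mem_cons_self b β)) (Ne.symm hb)
      by_cases hyb : y = b
      · rw [if_pos hyb]
        rw [hyb] at hy
        omega
      · rw [if_neg hyb]
        omega

end cnt

end Pool.Agent.Helper75.Zss
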