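import Pool.Agent.Helper75.Zss.Final

/-!
# The absolute value of the Jacobi sums
-/

namespace Pool.Agent.Helper75.Zss

open Finset

variable {F : Type*} [Field F] [Fintype F] [DecidableEq F] {m n : ℕ}

omit [DecidableEq F] in
theorem gaussSum_mul_conj {χ : MulChar F ℂ} (hχ : χ ≠ 1) {ψ : AddChar F ℂ} (hψ : ψ ≠ 1) :
    gaussSum χ ψ * (starRingEnd ℂ) (gaussSum χ ψ) = Fintype.card F := by
  have h1 := star_gaussSum_eq χ ψ
  rw [← starRingEnd_apply] at h1
  rw [h1]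
  exact gaussSum_mul_gaussSum_eq_card hχ (AddChar.IsPrimitive.of_ne_one hψ)

/-- `J * conj J = q ^ n` for the Jacobi sum of `n + 2` characters. -/
theorem jac_mul_conj [NeZero m] {χ : MulChar F ℂ} (hχ : orderOf χ = m)
    {a : Fin (n + 2) → ZMod m} (ha : ∀ i, a i ≠ 0) (hs : ∑ i, a i = 0) :
    jac χ a * (starRingEnd ℂ) (jac χ a) = (Fintype.card F : ℂ) ^ n := by
  obtain ⟨ψ, hψ⟩ := exists_addChar F
  have h1 := prod_gaussSum (F := F) (c := fun i => χ ^ (a i).val)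
    (fun i => pow_val_ne_one hχ (ha i)) (prod_pow_val hχ univ a hs) hψ
  rw [← jac_eq hχ ha hs] at h1
  have h2 := congrArg (starRingEnd ℂ) h1
  rw [map_prod, map_mul, map_natCast] at h2
  have h3 : (∏ i, gaussSum (χ ^ (a i).val) ψ) *
      ∏ i, (starRingEnd ℂ) (gaussSum (χ ^ (a i).val) ψ) = (Fintype.card F : ℂ) ^ (n + 2) := by
    rw [← prod_mul_distrib, prod_congr rfl
      (fun i _ => gaussSum_mul_conj (pow_val_ne_one hχ (ha i)) hψ), prod_const, card_univ,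
      Fintype.card_fin]
  rw [h1, h2] at h3
  have hq := card_ne_zero' (F := F)
  apply mul_left_cancel₀ (pow_ne_zero 2 hq)
  rw [← pow_add, add_comm 2 n, ← h3]
  ring

theorem jac_ne_zero [NeZero m] {χ : MulChar F ℂ} (hχ : orderOf χ = m)
    {a : Fin (n + 2) → ZMod m} (ha : ∀ i, a i ≠ 0) (hs : ∑ i, a i = 0) : jac χ a ≠ 0 := by
  intro h
  have h1 := jac_mul_conj hχ ha hs
  rw [h, zero_mul] at h1
  exact pow_ne_zero n (card_ne_zero' (F := F)) h1.symm

/-- Effectivity: if `J / q ^ ν` is integral then so is `q ^ (n - ν) / J`. -/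
theorem dual_integral [NeZero m] {χ : MulChar F ℂ} (hχ : orderOf χ = m)
    {a : Fin (n + 2) → ZMod m} (ha : ∀ i, a i ≠ 0) (hs : ∑ i, a i = 0) {ν : ℕ} {ε : ℂ}
    (hε : ε * ε = 1) (hε' : IsIntegral ℤ ε)
    (h : IsIntegral ℤ (jac χ a / (Fintype.card F : ℂ) ^ ν)) :
    IsIntegral ℤ ((Fintype.card F : ℂ) ^ n / ((Fintype.card F : ℂ) ^ ν * (ε * jac χ a))) := by
  have hJ := jac_ne_zero hχ ha hs
  have h1 := jac_mul_conj hχ ha hs
  have hq := card_ne_zero' (F := F)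
  have hε0 : ε ≠ 0 := by
    rintro rfl
    simp at hε
  have h2 : (Fintype.card F : ℂ) ^ n / ((Fintype.card F : ℂ) ^ ν * (ε * jac χ a)) =
      ε * (starRingEnd ℂ) (jac χ a / (Fintype.card F : ℂ) ^ ν) := by
    rw [map_div₀, map_pow, map_natCast, ← h1]
    field_simp
    linear_combination (- (starRingEnd ℂ) (jac χ a)) * hε
  rw [h2]
  exact hε'.mul (h.map (starRingEnd ℂ).toIntAlgHom)

end Pool.Agent.Helper75.Zss
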