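import Mathlib

/-!
# Vectors and functionals in five coordinates

A cone in five coordinates `(k, l, x, y, z)` is given by finitely many inequalities `0 ≤ dot f w`.
-/

namespace Pool.Agent.Helper75.Poly

/-- Integer vectors (and functionals) in five coordinates. -/
structure V5 where
  k : ℤ
  l : ℤ
  x : ℤ
  y : ℤ
  z : ℤ
deriving DecidableEq

/-- The value of the functional `f` at `w`. -/
def dot (f w : V5) : ℤ := f.k * w.k + f.l * w.l + f.x * w.x + f.y * w.y + f.z * w.z

def V5.sub (v w : V5) : V5 := ⟨v.k - w.k, v.l - w.l, v.x - w.x, v.y - w.y, v.z - w.z⟩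

def V5.add (v w : V5) : V5 := ⟨v.k + w.k, v.l + w.l, v.x + w.x, v.y + w.y, v.z + w.z⟩

def V5.smul (c : ℤ) (v : V5) : V5 := ⟨c * v.k, c * v.l, c * v.x, c * v.y, c * v.z⟩

def V5.zero : V5 := ⟨0, 0, 0, 0, 0⟩

theorem dot_sub (f v w : V5) : dot f (v.sub w) = dot f v - dot f w := by
  unfold dot V5.sub
  ring

theorem dot_add (f v w : V5) : dot f (v.add w) = dot f v + dot f w := by
  unfold dot V5.add
  ring

/-- Rational vectors. -/
structure Q5 where
  k : ℚ
  l : ℚ
  x : ℚ
  y : ℚ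
  z : ℚ

/-- The value of an integer functional at a rational vector. -/
def ev (f : V5) (w : Q5) : ℚ := f.k * w.k + f.l * w.l + f.x * w.x + f.y * w.y + f.z * w.z

def Q5.of (v : V5) : Q5 := ⟨v.k, v.l, v.x, v.y, v.z⟩

theorem ev_of (f v : V5) : ev f (Q5.of v) = (dot f v : ℚ) := by
  unfold ev Q5.of dot
  push_cast
  ring

/-- `w - μ v`. -/
def Q5.subMul (w : Q5) (μ : ℚ) (v : V5) : Q5 :=
  ⟨w.k - μ * v.k, w.l - μ * v.l, w.x - μ * v.x, w.y - μ * v.y, w.z - μ * v.z⟩

theorem ev_subMul (f v : V5) (w : Q5) (μ : ℚ) : ev f (w.subMul μ v) = ev f w - μ * (dot f v : ℚ) := by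
  unfold ev Q5.subMul dot
  push_cast
  ring

/-- Linear combination of functionals. -/
def comb : List (ℤ × V5) → V5
  | [] => V5.zero
  | (c, f) :: L => (V5.smul c f).add (comb L)

theorem ev_add (f g : V5) (w : Q5) : ev (f.add g) w = ev f w + ev g w := by
  unfold ev V5.add
  push_cast
  ring

theorem ev_smul (c : ℤ) (f : V5) (w : Q5) : ev (f.smul c) w = c * ev f w := by
  unfold ev V5.smul
  push_cast
  ring

theorem ev_comb_cons (c : ℤ) (f : V5) (L : List (ℤ × V5)) (w : Q5) :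
    ev (comb ((c, f) :: L)) w = c * ev f w + ev (comb L) w := by
  have : comb ((c, f) :: L) = (V5.smul c f).add (comb L) := rfl
  rw [this, ev_add, ev_smul]

theorem ev_comb_eq_zero {L : List (ℤ × V5)} {w : Q5} (h : ∀ p ∈ L, ev p.2 w = 0) :
    ev (comb L) w = 0 := by
  induction L with
  | nil => simp [comb, ev, V5.zero]
  | cons p L ih =>
    obtain ⟨c, f⟩ := p
    rw [ev_comb_cons, ih (fun p hp => h p (List.mem_cons_of_mem _ hp)), h (c, f) List.mem_cons_self]
    ring

theorem ev_comb_nonneg {L : List (ℤ × V5)} {w : Q5} (h : ∀ p ∈ L, 0 ≤ p.1 ∧ 0 ≤ ev p.2 w) :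
    0 ≤ ev (comb L) w := by
  induction L with
  | nil => simp [comb, ev, V5.zero]
  | cons p L ih =>
    obtain ⟨c, f⟩ := p
    rw [ev_comb_cons]
    have h2 := h (c, f) List.mem_cons_self
    have h3 := ih (fun p hp => h p (List.mem_cons_of_mem _ hp))
    have h4 : (0 : ℚ) ≤ (c : ℚ) := by exact_mod_cast h2.1
    have := mul_nonneg h4 h2.2
    linarith

end Pool.Agent.Helper75.Poly
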