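import Pool.Agent.Helper75.Zss.Pw
import Pool.Agent.Helper75.Zss.Jac

/-!
# Valuations of Gauss and Jacobi sums (Stickelberger) in characteristic `p ≡ 1 mod m`
-/

namespace Pool.Agent.Helper75.Zss

open Finset

/-- `x` is a unit at `𝔓`. -/
def Unt (𝔓 : Ideal Alg) (x : ℂ) : Prop :=
  ∃ u v : Alg, u ∉ 𝔓 ∧ v ∉ 𝔓 ∧ (u : ℂ) * x = v

variable {𝔓 : Ideal Alg}

theorem Unt.of {v : Alg} (h𝔓 : 𝔓.IsMaximal) (hv : v ∉ 𝔓) : Unt 𝔓 (v : ℂ) :=
  ⟨1, v, fun h => h𝔓.ne_top ((Ideal.eq_top_iff_one _).2 h), hv, by simp⟩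

theorem Unt.of_mul_eq_one {u : Alg} (h𝔓 : 𝔓.IsMaximal) (hu : u ∉ 𝔓) {x : ℂ}
    (h : (u : ℂ) * x = 1) : Unt 𝔓 x :=
  ⟨u, 1, hu, fun h => h𝔓.ne_top ((Ideal.eq_top_iff_one _).2 h), by simpa using h⟩

theorem Unt.one (h𝔓 : 𝔓.IsMaximal) : Unt 𝔓 1 := by
  have := Unt.of (v := 1) h𝔓 (fun h => h𝔓.ne_top ((Ideal.eq_top_iff_one _).2 h))
  simpa using this

theorem Unt.neg {x : ℂ} (h : Unt 𝔓 x) : Unt 𝔓 (-x) := by
  obtain ⟨u, v, hu, hv, huv⟩ := h
  exact ⟨u, -v, hu, fun h => hv (by simpa using 𝔓.neg_mem h), by push_cast; rw [← huv]; ring⟩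

theorem Unt.mul {x y : ℂ} (h𝔓 : 𝔓.IsMaximal) (hx : Unt 𝔓 x) (hy : Unt 𝔓 y) :
    Unt 𝔓 (x * y) := by
  obtain ⟨u, v, hu, hv, huv⟩ := hx
  obtain ⟨u', v', hu', hv', huv'⟩ := hy
  have := h𝔓.isPrime
  refine ⟨u * u', v * v', fun h => ?_, fun h => ?_, ?_⟩
  · exact (this.mem_or_mem h).elim hu hu'
  · exact (this.mem_or_mem h).elim hv hv'
  · push_cast
    rw [← huv, ← huv']
    ring

section general

variable {F : Type*} [Field F] [Fintype F] {m : ℕ}

/-- The product of two Gauss sums of powers of `η`. -/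
theorem pair (h𝔓 : 𝔓.IsMaximal) {η : MulChar F ℂ} (hord : orderOf η = m)
    (hJ : ∀ a b, 0 < a → 0 < b → a + b < m → ∃ j : Alg, j ∉ 𝔓 ∧ jacobiSum (η ^ a) (η ^ b) = j)
    {ψ : AddChar F ℂ} (hψ : ψ ≠ 1) (T A : ℕ) (hA : 0 < A) (hA' : A < m) :
    ∃ y, Unt 𝔓 y ∧ gaussSum (η ^ T) ψ * gaussSum (η ^ A) ψ =
      y * (Fintype.card F : ℂ) ^ ((T + A) / m - T / m) * gaussSum (η ^ (T + A)) ψ := by
  have hn0 : 0 < m := by omega
  have hTr := Nat.div_add_mod T m
  set r := T % m with hr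
  set t := T / m with ht
  have hrn : r < m := Nat.mod_lt _ hn0
  have hθm : η ^ m = 1 := by rw [← hord, pow_orderOf_eq_one]
  have hθT : η ^ T = η ^ r := by
    rw [hr, ← hord, pow_mod_orderOf]
  have hne : ∀ k, 0 < k → k < m → η ^ k ≠ 1 := by
    intro k hk hkn h
    have := Nat.le_of_dvd hk (orderOf_dvd_of_pow_eq_one h)
    omega
  have hdiv : (T + A) / m = t + (r + A) / m := by
    rw [← hTr, add_assoc, Nat.mul_add_div hn0]
  have hp0 : (Fintype.card F : ℂ) ≠ 0 := by exact_mod_cast Fintype.card_ne_zero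
  have hmulTA : η ^ T * η ^ A = η ^ (T + A) := (pow_add _ _ _).symm
  rcases Nat.eq_zero_or_pos r with h0 | h0
  · refine ⟨-1, (Unt.one h𝔓).neg, ?_⟩
    have e1 : (T + A) / m - t = 0 := by
      rw [hdiv, h0, zero_add, Nat.div_eq_of_lt hA']
      omega
    have e2 : η ^ (T + A) = η ^ A := by
      rw [pow_add, hθT, h0, pow_zero, one_mul]
    rw [e1, e2, hθT, h0, pow_zero, gaussSum_one_left hψ]
    ring
  · rcases lt_trichotomy (r + A) m with h1 | h1 | h1
    · -- no carry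
      have e1 : (T + A) / m - t = 0 := by
        rw [hdiv, Nat.div_eq_of_lt h1]
        omega
      have e2 : η ^ T * η ^ A ≠ 1 := by
        rw [hθT, ← pow_add]
        exact hne _ (by omega) h1
      have e3 := jacobiSum_mul_nontrivial e2 ψ
      refine ⟨jacobiSum (η ^ T) (η ^ A), ?_, ?_⟩
      · obtain ⟨j, hj, hj'⟩ := hJ r A h0 hA h1
        rw [hθT, hj']
        exact Unt.of h𝔓 hj
      · rw [e1, pow_zero, mul_one, ← e3, hmulTA, mul_comm]
    · -- exact carry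
      have e1 : (T + A) / m - t = 1 := by
        rw [hdiv, h1, Nat.div_self hn0]
        omega
      have e2 : η ^ (T + A) = 1 := by
        rw [pow_add, hθT, ← pow_add, h1]
        exact hθm
      have e3 : η ^ A = (η ^ T)⁻¹ := by
        rw [eq_inv_iff_mul_eq_one, mul_comm, hmulTA, e2]
      have hT1 : η ^ T ≠ 1 := by
        rw [hθT]
        exact hne r h0 hrn
      have e4 : gaussSum (η ^ T) ψ * gaussSum (η ^ T)⁻¹ ψ =
          (η ^ T) (-1) * (Fintype.card F : ℂ) := by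
        have hprim : ψ.IsPrimitive := AddChar.IsPrimitive.of_ne_one hψ
        rw [← mul_gaussSum_inv_eq_gaussSum (η ^ T)⁻¹, mul_left_comm,
          gaussSum_mul_gaussSum_eq_card hT1 hprim, MulChar.inv_apply', inv_neg_one]
      refine ⟨-((η ^ T) (-1)), ?_, ?_⟩
      · apply Unt.neg
        have e5 : ((η ^ T) (-1)) * ((η ^ T) (-1)) = 1 := by
          rw [← map_mul, neg_one_mul, neg_neg, map_one]
        rcases mul_self_eq_one_iff.1 e5 with h | h
        · rw [h]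
          exact Unt.one h𝔓
        · rw [h]
          exact (Unt.one h𝔓).neg
      · rw [e1, e2, e3, e4, gaussSum_one_left hψ]
        ring
    · -- carry
      have e1 : (T + A) / m - t = 1 := by
        have : (r + A) / m = 1 := by
          rw [Nat.div_eq_iff hn0]
          omega
        rw [hdiv, this]
        omega
      have hT1 : η ^ T ≠ 1 := by
        rw [hθT]
        exact hne r h0 hrn
      have hA1 : η ^ A ≠ 1 := hne A hA hA'
      have e2 : η ^ T * η ^ A ≠ 1 := by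
        have : η ^ T * η ^ A = η ^ (r + A - m) := by
          rw [hθT, ← pow_add]
          have h2 : r + A = m + (r + A - m) := by omega
          nth_rewrite 1 [h2]
          rw [pow_add, hθm, one_mul]
        rw [this]
        exact hne _ (by omega) (by omega)
      have e3 := jacobiSum_mul_nontrivial e2 ψ
      have hchar : ringChar ℂ ≠ ringChar F := by
        rw [ringChar.eq_zero]
        exact (CharP.ringChar_ne_zero_of_finite F).symm
      have e4 := jacobiSum_mul_jacobiSum_inv hchar hT1 hA1 e2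
      have e5 : (η ^ T)⁻¹ = η ^ (m - r) := by
        rw [inv_eq_iff_mul_eq_one, hθT, ← pow_add, Nat.add_sub_cancel' hrn.le]
        exact hθm
      have e6 : (η ^ A)⁻¹ = η ^ (m - A) := by
        rw [inv_eq_iff_mul_eq_one, ← pow_add, Nat.add_sub_cancel' hA'.le]
        exact hθm
      obtain ⟨j, hj, hj'⟩ := hJ (m - r) (m - A) (by omega) (by omega) (by omega)
      rw [e5, e6, hj'] at e4
      refine ⟨jacobiSum (η ^ T) (η ^ A) / (Fintype.card F : ℂ), ?_, ?_⟩
      · apply Unt.of_mul_eq_one h𝔓 hj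
        rw [mul_div_assoc', mul_comm, e4, div_self hp0]
      · rw [e1, pow_one, div_mul_cancel₀ _ hp0, ← e3, hmulTA, mul_comm]

theorem prod_gauss (h𝔓 : 𝔓.IsMaximal) {η : MulChar F ℂ} (hord : orderOf η = m)
    (hJ : ∀ a b, 0 < a → 0 < b → a + b < m → ∃ j : Alg, j ∉ 𝔓 ∧ jacobiSum (η ^ a) (η ^ b) = j)
    {ψ : AddChar F ℂ} (hψ : ψ ≠ 1) {ι : Type*} (s : Finset ι) (A : ι → ℕ)
    (hA : ∀ i ∈ s, 0 < A i) (hA' : ∀ i ∈ s, A i < m) :
    ∃ y, Unt 𝔓 y ∧ ∏ i ∈ s, gaussSum (η ^ A i) ψ =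
      y * (Fintype.card F : ℂ) ^ ((∑ i ∈ s, A i) / m) * gaussSum (η ^ (∑ i ∈ s, A i)) ψ := by
  classical
  induction s using Finset.induction_on with
  | empty =>
    refine ⟨-1, (Unt.one h𝔓).neg, ?_⟩
    simp [gaussSum_one_left hψ]
  | insert i s hi ih =>
    obtain ⟨y, hy, hy'⟩ := ih (fun j hj => hA j (mem_insert_of_mem hj))
      (fun j hj => hA' j (mem_insert_of_mem hj))
    obtain ⟨z, hz, hz'⟩ := pair h𝔓 hord hJ hψ (∑ j ∈ s, A j) (A i) (hA i (mem_insert_self i s))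
      (hA' i (mem_insert_self i s))
    refine ⟨y * z, hy.mul h𝔓 hz, ?_⟩
    rw [prod_insert hi, sum_insert hi, hy', add_comm (A i)]
    set T := ∑ j ∈ s, A j with hT
    have h1 : T / m ≤ (T + A i) / m := Nat.div_le_div_right (by omega)
    have h2 : (Fintype.card F : ℂ) ^ ((T + A i) / m) =
        (Fintype.card F : ℂ) ^ (T / m) * (Fintype.card F : ℂ) ^ ((T + A i) / m - T / m) := by
      rw [← pow_add, Nat.add_sub_cancel' h1]
    rw [h2]
    calc gaussSum (η ^ A i) ψ * (y * (Fintype.card F : ℂ) ^ (T / m) * gaussSum (η ^ T) ψ)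
        = y * (Fintype.card F : ℂ) ^ (T / m) *
          (gaussSum (η ^ T) ψ * gaussSum (η ^ A i) ψ) := by ring
      _ = _ := by rw [hz']; ring

/-- If the Jacobi sum of `η ^ t` is divisible by `q ^ ν` then the sum of the residues of `t a`
is at least `(ν + 1) m`. -/
theorem le_sum_val_aux [DecidableEq F] {n ν : ℕ} [NeZero m] [NeZero n] (h𝔓 : 𝔓.IsMaximal)
    (hq𝔓 : (Fintype.card F : Alg) ∈ 𝔓) {η : MulChar F ℂ} (hord : orderOf η = m)
    (hJ : ∀ a b, 0 < a → 0 < b → a + b < m → ∃ j : Alg, j ∉ 𝔓 ∧ jacobiSum (η ^ a) (η ^ b) = j)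
    {a : Fin n → ZMod m} (ha : ∀ i, a i ≠ 0) (hs : ∑ i, a i = 0) {t : ZMod m} (ht : IsUnit t)
    (hint : IsIntegral ℤ (jac (η ^ t.val) a / (Fintype.card F : ℂ) ^ ν)) :
    (ν + 1) * m ≤ ∑ i, (t * a i).val := by
  obtain ⟨ψ, hψ⟩ := exists_addChar F
  have hm0 : 0 < m := Nat.pos_of_ne_zero (NeZero.ne m)
  have hθm : η ^ m = 1 := by rw [← hord, pow_orderOf_eq_one]
  -- the sum of residues is a multiple of `m`
  obtain ⟨w, hw⟩ : m ∣ ∑ i, (t * a i).val := by
    rw [← ZMod.natCast_eq_zero_iff]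
    push_cast
    simp only [ZMod.natCast_val, ZMod.cast_id', id_eq]
    rw [← mul_sum, hs, mul_zero]
  by_contra hlt
  push Not at hlt
  have hwν : w < ν + 1 := by
    rw [hw, mul_comm] at hlt
    exact Nat.lt_of_mul_lt_mul_right hlt
  set χ : MulChar F ℂ := η ^ t.val with hχ
  have hχm : orderOf χ = m := by
    have hcop : Nat.gcd m t.val = 1 := by
      obtain ⟨u, rfl⟩ := ht
      exact (ZMod.val_coe_unit_coprime u).symm
    rw [hχ, orderOf_pow, hord, hcop, Nat.div_one]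
  have hpow : ∀ i, χ ^ (a i).val = η ^ (t * a i).val := by
    intro i
    rw [hχ, ← pow_mul, pow_inj_mod, hord, ZMod.val_mul, Nat.mod_mod]
  have hval : ∀ i, 0 < (t * a i).val ∧ (t * a i).val < m := by
    intro i
    have h1 : t * a i ≠ 0 := by
      intro h
      exact ha i ((IsUnit.mul_right_eq_zero ht).1 h)
    exact ⟨Nat.pos_of_ne_zero (fun h => h1 ((ZMod.val_eq_zero _).1 h)), ZMod.val_lt _⟩
  obtain ⟨y, hy, hprod⟩ := prod_gauss h𝔓 hord hJ hψ univ (fun i => (t * a i).val)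
    (fun i _ => (hval i).1) (fun i _ => (hval i).2)
  rw [hw, Nat.mul_div_cancel_left _ hm0, pow_mul, hθm, one_pow,
    gaussSum_one_left hψ] at hprod
  have h1 := prod_gaussSum (F := F) (c := fun i => χ ^ (a i).val)
    (fun i => pow_val_ne_one hχm (ha i)) (prod_pow_val hχm univ a hs) hψ
  rw [← jac_eq hχm ha hs] at h1
  rw [prod_congr rfl (fun i _ => by rw [hpow i])] at h1
  rw [h1] at hprod
  -- now `q * J = - y q ^ w`
  have hp0 : (Fintype.card F : ℂ) ≠ 0 := by exact_mod_cast Fintype.card_ne_zero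
  set z : Alg := ⟨_, hint⟩ with hz
  have hzJ : jac χ a = (Fintype.card F : ℂ) ^ ν * (z : ℂ) := by
    rw [hz]
    field_simp
  obtain ⟨u, v, hu, hv, huv⟩ := hy
  apply hv
  have h2 : (v : ℂ) =
      ((- (u * (Fintype.card F : Alg) ^ (ν + 1 - w) * z) : Alg) : ℂ) := by
    push_cast
    rw [← huv]
    rw [hzJ] at hprod
    have h3 : (Fintype.card F : ℂ) ^ (ν + 1) =
        (Fintype.card F : ℂ) ^ w * (Fintype.card F : ℂ) ^ (ν + 1 - w) := by
      rw [← pow_add, Nat.add_sub_cancel' hwν.le]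
    have h4 : (Fintype.card F : ℂ) ^ w * (y + (Fintype.card F : ℂ) ^ (ν + 1 - w) * z) = 0 := by
      have : (Fintype.card F : ℂ) * ((Fintype.card F : ℂ) ^ ν * (z : ℂ)) =
        (Fintype.card F : ℂ) ^ (ν + 1) * z := by ring
      rw [this, h3] at hprod
      linear_combination hprod
    rcases mul_eq_zero.1 h4 with h | h
    · exact absurd h (pow_ne_zero _ hp0)
    · have : y = - ((Fintype.card F : ℂ) ^ (ν + 1 - w) * z) := eq_neg_of_add_eq_zero_left h
      rw [this]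
      ring
  have h3 : v = - (u * (Fintype.card F : Alg) ^ (ν + 1 - w) * z) := Subtype.ext h2
  rw [h3]
  apply 𝔓.neg_mem
  apply 𝔓.mul_mem_right
  apply 𝔓.mul_mem_left
  exact 𝔓.pow_mem_of_mem hq𝔓 _ (by omega)

end general

section teich

variable {F : Type*} [Field F] [Fintype F]

theorem theta_pow {φ : F →+* Alg ⧸ 𝔓} {ω : MulChar F Alg}
    (hω : ∀ x : F, Ideal.Quotient.mk 𝔓 (ω x) = φ x) {a : ℕ} (ha : a < Fintype.card F - 1)
    (x : F) : Ideal.Quotient.mk 𝔓 ((ω⁻¹ ^ a) x) = φ (x ^ (Fintype.card F - 1 - a)) := by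
  by_cases hx : x = 0
  · rw [hx, MulChar.map_zero, zero_pow (by omega), map_zero, map_zero]
  · have h1 : (ω⁻¹ ^ a) x * (ω ^ a) x = 1 := by
      rw [← MulChar.mul_apply, ← mul_pow, inv_mul_cancel, one_pow,
        MulChar.one_apply (isUnit_iff_ne_zero.2 hx)]
    have h2 : (ω ^ a) x = (ω x) ^ a := by
      have := MulChar.pow_apply_coe ω a (Units.mk0 x hx)
      rwa [Units.val_mk0] at this
    have h3 := congrArg (Ideal.Quotient.mk 𝔓) h1
    rw [map_mul, h2, map_pow, hω, map_one] at h3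
    have h4 : x ^ (Fintype.card F - 1) = 1 := FiniteField.pow_card_sub_one_eq_one x hx
    have h5 : φ (x ^ (Fintype.card F - 1 - a)) * φ x ^ a = 1 := by
      rw [← map_pow, ← map_mul, ← pow_add, Nat.sub_add_cancel ha.le, h4, map_one]
    have h6 : φ x ^ a * φ (x ^ (Fintype.card F - 1 - a)) = 1 := by rw [mul_comm]; exact h5
    calc Ideal.Quotient.mk 𝔓 ((ω⁻¹ ^ a) x)
        = Ideal.Quotient.mk 𝔓 ((ω⁻¹ ^ a) x) *
          (φ x ^ a * φ (x ^ (Fintype.card F - 1 - a))) := by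
          rw [h6, mul_one]
      _ = φ (x ^ (Fintype.card F - 1 - a)) := by rw [← mul_assoc, h3, one_mul]

theorem jacobi_not_mem (h𝔓 : 𝔓.IsMaximal) {φ : F →+* Alg ⧸ 𝔓} {ω : MulChar F Alg}
    (hω : ∀ x : F, Ideal.Quotient.mk 𝔓 (ω x) = φ x) {a b : ℕ} (ha : 0 < a) (hb : 0 < b)
    (hab : a + b ≤ Fintype.card F - 1)
    (hch : ((Fintype.card F - 1 - b).choose a : F) ≠ 0) :
    jacobiSum (ω⁻¹ ^ a) (ω⁻¹ ^ b) ∉ 𝔓 := by
  intro h
  have : Nontrivial (Alg ⧸ 𝔓) := Ideal.Quotient.nontrivial_iff.2 h𝔓.ne_top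
  have h1 := Ideal.Quotient.eq_zero_iff_mem.2 h
  unfold jacobiSum at h1
  rw [map_sum] at h1
  have h2 : ∀ x : F, Ideal.Quotient.mk 𝔓 ((ω⁻¹ ^ a) x * (ω⁻¹ ^ b) (1 - x)) =
      φ (x ^ (Fintype.card F - 1 - a) * (1 - x) ^ (Fintype.card F - 1 - b)) := by
    intro x
    rw [map_mul, theta_pow hω (by omega), theta_pow hω (by omega), map_mul]
  rw [sum_congr rfl (fun x _ => h2 x), ← map_sum] at h1
  have h3 := (map_eq_zero φ).1 h1
  rw [sum_pow_mul_one_sub (by omega) (by omega) (by omega) (by omega), neg_eq_zero,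
    mul_eq_zero] at h3
  rcases h3 with h3 | h3
  · exact absurd h3 (pow_ne_zero _ (neg_ne_zero.2 one_ne_zero))
  · apply hch
    have : Fintype.card F - 1 - (Fintype.card F - 1 - a) = a := by omega
    rwa [this] at h3

/-- The complex character attached to `ω⁻¹`. -/
noncomputable def theta (ω : MulChar F Alg) : MulChar F ℂ :=
  ω⁻¹.ringHomComp (algebraMap Alg ℂ)

theorem jacobi_theta (ω : MulChar F Alg) (a b : ℕ) :
    jacobiSum (theta ω ^ a) (theta ω ^ b) = ((jacobiSum (ω⁻¹ ^ a) (ω⁻¹ ^ b) : Alg) : ℂ) := by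
  unfold theta
  rw [MulChar.ringHomComp_pow, MulChar.ringHomComp_pow, jacobiSum_ringHomComp]
  rfl

theorem theta_pow_eq_one (h𝔓 : 𝔓.IsMaximal) {φ : F →+* Alg ⧸ 𝔓}
    {ω : MulChar F Alg} (hω : ∀ x : F, Ideal.Quotient.mk 𝔓 (ω x) = φ x) {d : ℕ}
    (h : theta ω ^ d = 1) : Fintype.card F - 1 ∣ d := by
  have : Nontrivial (Alg ⧸ 𝔓) := Ideal.Quotient.nontrivial_iff.2 h𝔓.ne_top
  have h1 : (ω⁻¹ ^ d) = 1 := by
    unfold theta at h
    rw [MulChar.ringHomComp_pow] at h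
    rwa [MulChar.ringHomComp_eq_one_iff (FaithfulSMul.algebraMap_injective Alg ℂ)] at h
  have h2 : ω ^ d = 1 := by
    rw [inv_pow, inv_eq_one] at h1
    exact h1
  have h3 : ∀ x : Fˣ, x ^ d = 1 := by
    intro x
    have h4 : (ω ^ d) x = (ω x) ^ d := MulChar.pow_apply_coe ω d x
    rw [h2, MulChar.one_apply_coe] at h4
    have h5 := congrArg (Ideal.Quotient.mk 𝔓) h4
    rw [map_pow, hω, map_one, ← map_pow] at h5
    have h6 : (x : F) ^ d = 1 := φ.injective (by rw [← h5, map_one])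
    ext
    rw [Units.val_pow_eq_pow_val, h6, Units.val_one]
  exact (FiniteField.forall_pow_eq_one_iff F d).1 h3

theorem theta_pow_card (ω : MulChar F Alg) : theta ω ^ (Fintype.card F - 1) = 1 := by
  ext x
  rw [MulChar.pow_apply_coe, MulChar.one_apply_coe, ← map_pow]
  have : (x : F) ^ (Fintype.card F - 1) = 1 :=
    FiniteField.pow_card_sub_one_eq_one (x : F) x.ne_zero
  rw [this, map_one]

theorem orderOf_theta (h𝔓 : 𝔓.IsMaximal) {φ : F →+* Alg ⧸ 𝔓}
    {ω : MulChar F Alg} (hω : ∀ x : F, Ideal.Quotient.mk 𝔓 (ω x) = φ x) :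
    orderOf (theta ω) = Fintype.card F - 1 :=
  Nat.dvd_antisymm (orderOf_dvd_of_pow_eq_one (theta_pow_card ω))
    (theta_pow_eq_one h𝔓 hω (pow_orderOf_eq_one _))

/-- In characteristic `p ≡ 1 mod m`, for every prime `𝔓` above `p` there is a character `η` of
order `m` whose small Jacobi sums are units at `𝔓`. -/
theorem exists_eta_of [DecidableEq F] {m p : ℕ} [hp : Fact p.Prime] [CharP F p] (hm : m ∣ p - 1)
    (h𝔓 : 𝔓.IsMaximal) (hp𝔓 : (p : Alg) ∈ 𝔓) :
    ∃ η : MulChar F ℂ, (Fintype.card F : Alg) ∈ 𝔓 ∧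
      orderOf η = m ∧ ∀ a b, 0 < a → 0 < b → a + b < m →
        ∃ j : Alg, j ∉ 𝔓 ∧ jacobiSum (η ^ a) (η ^ b) = j := by
  obtain ⟨φ⟩ := exists_hom (F := F) h𝔓 hp𝔓
  obtain ⟨ω, hω⟩ := exists_teich h𝔓 φ
  obtain ⟨⟨f, hf⟩, -, hcard⟩ := FiniteField.card F p
  have hcard' : Fintype.card F = p ^ f := hcard
  have hpp : 0 < p - 1 := by
    have := hp.out.two_le
    omega
  obtain ⟨k, hk⟩ := hm
  have hk0 : 0 < k := by
    rcases Nat.eq_zero_or_pos k with h | h
    · rw [h, mul_zero] at hk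
      omega
    · exact h
  have hm0 : 0 < m := by
    rcases Nat.eq_zero_or_pos m with h | h
    · rw [h, zero_mul] at hk
      omega
    · exact h
  have hrep := rep_mul p f hp.out.pos
  have hq1 : Fintype.card F - 1 = m * (k * rep p f) := by
    rw [hcard', ← hrep, Nat.add_sub_cancel, hk]
    ring
  have hK0 : 0 < k * rep p f := by
    have := Fintype.one_lt_card (α := F)
    rcases Nat.eq_zero_or_pos (k * rep p f) with h | h
    · rw [h, mul_zero] at hq1
      omega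
    · exact h
  refine ⟨theta ω ^ (k * rep p f), ?_, ?_, ?_⟩
  · rw [hcard', Nat.cast_pow]
    exact 𝔓.pow_mem_of_mem hp𝔓 _ hf
  · rw [orderOf_pow, orderOf_theta h𝔓 hω, hq1, Nat.gcd_mul_left_left,
      Nat.mul_div_cancel _ hK0]
  · intro a b ha hb hab
    refine ⟨jacobiSum (ω⁻¹ ^ (k * rep p f * a)) (ω⁻¹ ^ (k * rep p f * b)), ?_, ?_⟩
    · apply jacobi_not_mem h𝔓 hω (Nat.mul_pos hK0 ha) (Nat.mul_pos hK0 hb)
      · rw [hq1, ← mul_add, mul_comm m]
        exact Nat.mul_le_mul_left _ hab.le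
      · have h1 : Fintype.card F - 1 - k * rep p f * b = ((m - b) * k) * rep p f := by
          rw [hq1]
          have : m * (k * rep p f) - k * rep p f * b = (m - b) * (k * rep p f) := by
            rw [Nat.sub_mul]
            congr 1
            ring
          rw [this]
          ring
        have h2 : k * rep p f * a = (a * k) * rep p f := by ring
        rw [h1, h2]
        intro h
        rw [CharP.cast_eq_zero_iff F p] at h
        refine not_dvd_choose_rep f ?_ ?_ h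
        · exact Nat.mul_le_mul_right _ (by omega)
        · have : (m - b) * k ≤ m * k := Nat.mul_le_mul_right _ (by omega)
          omega
    · rw [← pow_mul, ← pow_mul, jacobi_theta]

/-- In characteristic `p ≡ 1 mod m` there are a prime `𝔓` above `p` and a character `η` of
order `m` whose small Jacobi sums are units at `𝔓`. -/
theorem exists_eta [DecidableEq F] {m p : ℕ} [hp : Fact p.Prime] [CharP F p] (hm : m ∣ p - 1) :
    ∃ (𝔓 : Ideal Alg) (η : MulChar F ℂ), 𝔓.IsMaximal ∧ (Fintype.card F : Alg) ∈ 𝔓 ∧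
      orderOf η = m ∧ ∀ a b, 0 < a → 0 < b → a + b < m →
        ∃ j : Alg, j ∉ 𝔓 ∧ jacobiSum (η ^ a) (η ^ b) = j := by
  obtain ⟨𝔓, h𝔓, hp𝔓⟩ := exists_maximal p
  obtain ⟨η, h1, h2, h3⟩ := exists_eta_of (F := F) hm h𝔓 hp𝔓
  exact ⟨𝔓, η, h𝔓, h1, h2, h3⟩

end teich

end Pool.Agent.Helper75.Zss
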