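import Pool.Agent.Helper75.Zss.Lg

/-!
# Zero-sum theory: the trichotomy

If the number `N α` of pairs is at most `2 |α| - 1` then `α` is perfect with respect to some
element `g`, or it is one of the exceptional zero-sum multisets `IsX`.
-/

namespace Pool.Agent.Helper75.Zss

variable {G : Type*} [AddCommGroup G] [Fintype G]

/-- All levels below the top one are full. -/
def Below (α : Multiset G) : Prop := ∀ j, j < nu α → ∀ x ∈ cl α, Reach α j x

/-- All levels are full. -/
def Flat (α : Multiset G) : Prop := ∀ x ∈ cl α, Reach α (nu α) x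

/-- The exceptional zero-sum multisets. -/
def IsX (α : Multiset G) : Prop :=
  α.sum = 0 ∧ Below α ∧ N α + 1 = 2 * Multiset.card α

omit [Fintype G] in
theorem Flat.below {α : Multiset G} (h : Flat α) : Below α := fun _ hj x hx =>
  (h x hx).antitone hj.le

theorem N_of_below {α : Multiset G} (h : Below α) (T : Finset G)
    (hT : ∀ x, x ∈ T ↔ Reach α (nu α) x) : N α = nu α * Nat.card (cl α) + T.card := by
  classical
  set C : Finset G := Finset.univ.filter (fun x => x ∈ cl α) with hC
  have hCc : C.card = Nat.card (cl α) := by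
    rw [hC, ← Fintype.card_subtype, Nat.card_eq_fintype_card]
  have hS : S α = (Finset.range (nu α) ×ˢ C).disjUnion ({nu α} ×ˢ T) (by
      rw [Finset.disjoint_left]
      intro p hp hq
      simp only [Finset.mem_product, Finset.mem_range, Finset.mem_singleton] at hp hq
      omega) := by
    ext p
    rw [Finset.mem_disjUnion, mem_S]
    simp only [Finset.mem_product, Finset.mem_range, Finset.mem_singleton]
    constructor
    · intro hp
      have h1 := hp.le_nu
      rcases Nat.lt_or_ge p.1 (nu α) with h2 | h2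
      · exact Or.inl ⟨h2, by rw [hC, Finset.mem_filter]; exact ⟨Finset.mem_univ _, hp.mem_cl⟩⟩
      · have h3 : p.1 = nu α := le_antisymm h1 h2
        exact Or.inr ⟨h3, (hT _).2 (h3 ▸ hp)⟩
    · rintro (⟨h1, h2⟩ | ⟨h1, h2⟩)
      · exact h _ h1 _ (by rw [hC, Finset.mem_filter] at h2; exact h2.2)
      · rw [h1]
        exact (hT _).1 h2
  unfold N
  rw [hS, Finset.card_disjUnion, Finset.card_product, Finset.card_product, Finset.card_range,
    hCc, Finset.card_singleton, one_mul]

theorem Flat.N_eq {α : Multiset G} (h : Flat α) : N α = (nu α + 1) * Nat.card (cl α) := by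
  classical
  have := N_of_below h.below (Finset.univ.filter (fun x => x ∈ cl α)) (fun x => by
    rw [Finset.mem_filter]
    exact ⟨fun hx => h x hx.2, fun hx => ⟨Finset.mem_univ _, hx.mem_cl⟩⟩)
  rw [this, ← Fintype.card_subtype, Nat.card_eq_fintype_card, add_mul, one_mul]

omit [Fintype G] in
theorem top_of_sum_zero {α : Multiset G} (h : α.sum = 0) {x : G} (H : Reach α (nu α) x) :
    x = 0 := by
  by_contra hx
  have := (H.succ_of_sum_zero h hx).le_nu
  omega

theorem IsX.N_eq {α : Multiset G} (h : IsX α) : N α = nu α * Nat.card (cl α) + 1 := by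
  have := N_of_below h.2.1 {0} (fun x => by
    rw [Finset.mem_singleton]
    exact ⟨fun hx => hx ▸ reach_nu α, fun hx => top_of_sum_zero h.1 hx⟩)
  rwa [Finset.card_singleton] at this

theorem perf_replicate {b : G} (hb : b ≠ 0) (k : ℕ) : Perf b (Multiset.replicate k b) := by
  induction k with
  | zero => simpa using perf_nil b
  | succ k ih =>
    rw [Multiset.replicate_succ]
    exact ih.cons_self hb

theorem perf_of_all_eq {α : Multiset G} {b : G} (hb : b ≠ 0) (h : ∀ x ∈ α, x = b) :
    Perf b α := by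
  rw [Multiset.eq_replicate_card.2 h]
  exact perf_replicate hb _

omit [Fintype G] in
theorem nu_pos_of_sum_zero {α : Multiset G} (h : α.sum = 0) (h1 : α ≠ 0) : 1 ≤ nu α := by
  have : Reach α 1 0 := ⟨{α}, 0, by simp, by simpa using ⟨h1, h⟩, by simp, by simp⟩
  exact this.le_nu

/-- The trichotomy for `α`. -/
def Tri (α : Multiset G) : Prop :=
  (∀ x ∈ α, x ≠ 0) → N α + 1 ≤ 2 * Multiset.card α → (∃ g, Perf g α) ∨ IsX α

theorem Perf.ne_zero {g : G} {α : Multiset G} (h : Perf g α) (h0 : ∀ x ∈ α, x ≠ 0)
    (h1 : α ≠ 0) : g ≠ 0 := by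
  rintro rfl
  obtain ⟨x, hx⟩ := Multiset.exists_mem_of_ne_zero h1
  have := h.1 x hx
  rw [AddSubgroup.zmultiples_zero_eq_bot, AddSubgroup.mem_bot] at this
  exact h0 x hx this

theorem Perf.self_mem_cl {g : G} {α : Multiset G} (h : Perf g α) (h0 : ∀ x ∈ α, x ≠ 0)
    (h1 : α ≠ 0) : g ∈ cl α := by
  have hg := h.ne_zero h0 h1
  have h2 : 1 ≤ L g α := by
    obtain ⟨x, hx⟩ := Multiset.exists_mem_of_ne_zero h1
    obtain ⟨α', rfl⟩ := Multiset.exists_cons_of_mem hx
    rw [L_cons]
    have := lg_ne_zero (h.1 x hx) (h0 x hx)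
    omega
  have h3 : Reach α 0 g := h.reach h0 (AddSubgroup.mem_zmultiples g) (by
    rw [lg_self hg]
    omega)
  exact h3.mem_cl

omit [Fintype G] in
theorem card_cl_eq {g : G} {α : Multiset G} (h : ∀ x ∈ α, x ∈ AddSubgroup.zmultiples g)
    (hg : g ∈ cl α) : Nat.card (cl α) = addOrderOf g := by
  have : cl α = AddSubgroup.zmultiples g :=
    le_antisymm (cl_le.2 h) ((AddSubgroup.zmultiples_le_of_mem hg))
  rw [this, Nat.card_zmultiples]

/-- Three new pairs. -/
theorem three_new {β : Multiset G} {b : G} {d : ℕ} {x y z : G}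
    (hx : Reach (b ::ₘ β) d x) (hx' : ¬ Reach β d x)
    (hy : Reach (b ::ₘ β) d y) (hy' : ¬ Reach β d y)
    (hz : Reach (b ::ₘ β) d z) (hz' : ¬ Reach β d z)
    (hxy : x ≠ y) (hxz : x ≠ z) (hyz : y ≠ z) : N β + 3 ≤ N (b ::ₘ β) := by
  classical
  have h1 : insert (d, x) (insert (d, y) (insert (d, z) (S β))) ⊆ S (b ::ₘ β) := by
    intro r hr
    rcases Finset.mem_insert.1 hr with rfl | hr
    · exact mem_S.2 hx
    rcases Finset.mem_insert.1 hr with rfl | hr
    · exact mem_S.2 hy
    rcases Finset.mem_insert.1 hr with rfl | hr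
    · exact mem_S.2 hz
    · exact S_mono (Multiset.le_cons_self β b) hr
  have h2 := Finset.card_le_card h1
  rw [Finset.card_insert_of_notMem, Finset.card_insert_of_notMem,
    Finset.card_insert_of_notMem] at h2
  · unfold N
    omega
  · rw [mem_S]
    exact hz'
  · rw [Finset.mem_insert, mem_S]
    push Not
    exact ⟨fun h => hyz (Prod.ext_iff.1 h).2, hy'⟩
  · rw [Finset.mem_insert, Finset.mem_insert, mem_S]
    push Not
    exact ⟨fun h => hxy (Prod.ext_iff.1 h).2, fun h => hxz (Prod.ext_iff.1 h).2, hx'⟩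

/-- Deleting an element of a non-perfect exceptional multiset leaves a reachable `x` one level
lower. -/
theorem IsX.delete {β γ : Multiset G} {c : G} (hβ : β = c ::ₘ γ) (h0 : ∀ x ∈ β, x ≠ 0)
    (hX : IsX β) (hnp : ¬ ∃ g, Perf g β) (hγ : Tri γ) {x : G} (hx : x ∈ cl β) :
    Reach γ (nu β - 1) x := by
  have hβ0 : β ≠ 0 := by rw [hβ]; exact Multiset.cons_ne_zero
  have hd : 1 ≤ nu β := nu_pos_of_sum_zero hX.1 hβ0
  have hcard : Multiset.card β = Multiset.card γ + 1 := by rw [hβ, Multiset.card_cons]
  have hN := hX.2.2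
  rcases Nat.lt_or_ge (N γ + 1) (N β) with hlt | hge
  · exfalso
    have h0γ : ∀ x ∈ γ, x ≠ 0 := fun x hx => h0 x (hβ ▸ Multiset.mem_cons_of_mem hx)
    have hNγ : 1 ≤ N γ := le_trans (by omega) (card_lt_N γ)
    have hγ0 : γ ≠ 0 := by
      rintro rfl
      simp at hcard
      omega
    rcases hγ h0γ (by omega) with ⟨g, hg⟩ | hXγ
    · -- then `β` is perfect
      apply hnp
      refine ⟨g, ?_⟩
      have hg0 := hg.ne_zero h0γ hγ0
      have hsum : c + γ.sum = 0 := by
        have := hX.1
        rwa [hβ, Multiset.sum_cons] at this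
      have hcz : c ∈ AddSubgroup.zmultiples g := by
        have : c = - γ.sum := eq_neg_of_add_eq_zero_left hsum
        rw [this]
        exact (AddSubgroup.zmultiples g).neg_mem (sum_mem_of hg.1)
      have hall : ∀ x ∈ β, x ∈ AddSubgroup.zmultiples g := by
        intro x hx
        rw [hβ] at hx
        rcases Multiset.mem_cons.1 hx with rfl | hx
        · exact hcz
        · exact hg.1 x hx
      refine ⟨hall, ?_⟩
      have hnr : ¬ Reach γ (nu β) 0 := by
        intro hr
        have h1 := hr.symm
        have h2 : γ.sum - 0 = - c := by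
          rw [sub_zero]
          exact eq_neg_of_add_eq_zero_right hsum
        rw [h2] at h1
        have h3 := h1.close.le_nu
        rw [← hβ] at h3
        omega
      have h1 : L g γ < nu β * addOrderOf g := by
        by_contra hcon
        push Not at hcon
        apply hnr
        apply hg.reach h0γ ((AddSubgroup.zmultiples g).zero_mem)
        rw [lg_zero]
        exact hcon
      have h2 := lg_lt hcz
      have h3 : L g β = lg g c + L g γ := by rw [hβ, L_cons]
      have h4 : L g β % addOrderOf g = 0 := by rw [L_mod hall, hX.1, lg_zero]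
      have h5 : L g β ≤ nu β * addOrderOf g := by
        obtain ⟨k, hk⟩ := Nat.dvd_of_mod_eq_zero h4
        have h6 : addOrderOf g * k < addOrderOf g * (nu β + 1) := by
          rw [← hk, mul_comm, add_mul, one_mul]
          omega
        have h7 : k < nu β + 1 := Nat.lt_of_mul_lt_mul_left h6
        rw [hk, mul_comm]
        exact Nat.mul_le_mul_right _ (by omega)
      have h6 : Nat.card (cl β) = addOrderOf g := card_cl_eq hall (by
        have := hg.self_mem_cl h0γ hγ0
        refine (cl_le.2 ?_ : cl γ ≤ cl β) this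
        intro x hx
        exact Zss.mem_cl (hβ ▸ Multiset.mem_cons_of_mem hx))
      have h7 := hX.N_eq
      rw [h6] at h7
      omega
    · have h1 := hX.1
      rw [hβ, Multiset.sum_cons, hXγ.1, add_zero] at h1
      exact h0 c (hβ ▸ Multiset.mem_cons_self c γ) h1
  · have h1 : Reach β (nu β - 1) x := hX.2.1 _ (by omega) x hx
    by_contra h2
    subst hβ
    have := new_level (by omega) h1 h2
    omega

/-- Lemma XN. -/
theorem IsX.cons_large {β : Multiset G} {b : G}
    (IH : ∀ γ : Multiset G, Multiset.card γ < Multiset.card β → Tri γ)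
    (h0 : ∀ x ∈ b ::ₘ β, x ≠ 0) (hX : IsX β) (hnp : ¬ ∃ g, Perf g β) :
    2 * Multiset.card (b ::ₘ β) ≤ N (b ::ₘ β) := by
  by_contra hN
  push Not at hN
  rw [Multiset.card_cons] at hN
  have hb0 : b ≠ 0 := h0 b (Multiset.mem_cons_self b β)
  have h0β : ∀ x ∈ β, x ≠ 0 := fun x hx => h0 x (Multiset.mem_cons_of_mem hx)
  have hNβ := hX.2.2
  have hk := card_lt_N β
  have hβ0 : β ≠ 0 := by
    rintro rfl
    simp at hNβ
  have hd : 1 ≤ nu β := nu_pos_of_sum_zero hX.1 hβ0
  have hbC : b ∈ cl β := by
    by_contra hb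
    have := N_cons_out (K := cl β) (fun x hx => Zss.mem_cl hx) hb
    omega
  -- every element is reached at level `nu β`
  have hreach : ∀ c ∈ β, Reach (b ::ₘ β) (nu β) c := by
    intro c hc
    obtain ⟨γ, hγ⟩ := Multiset.exists_cons_of_mem hc
    have h1 : Reach γ (nu β - 1) (-b) := hX.delete hγ h0β hnp
      (IH γ (by rw [hγ, Multiset.card_cons]; omega)) ((cl β).neg_mem hbC)
    have h2 := h1.close.shift c
    rw [zero_add, Nat.sub_add_cancel hd, Multiset.cons_swap, ← hγ] at h2
    exact h2
  have hb : Reach (b ::ₘ β) (nu β) b := by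
    have := (reach_nu β).shift b
    rwa [zero_add] at this
  have hnot : ∀ x, x ≠ 0 → ¬ Reach β (nu β) x := fun x hx h => hx (top_of_sum_zero hX.1 h)
  have hsum : (b ::ₘ β).sum = b := by rw [Multiset.sum_cons, hX.1, add_zero]
  -- `2 c = b` for `c ≠ b`
  have htwo : ∀ c ∈ β, c ≠ b → b - c = c := by
    intro c hc hcb
    by_contra hne
    have hc' := hreach c hc
    have hbc := hc'.symm
    rw [hsum] at hbc
    have hc0 := h0β c hc
    have := three_new hb (hnot b hb0) hc' (hnot c hc0) hbc
      (hnot (b - c) (sub_ne_zero.2 (Ne.symm hcb))) (Ne.symm hcb)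
      (fun h => hc0 (by rw [eq_sub_iff_add_eq] at h; simpa using h)) (Ne.symm hne)
    omega
  have huniq : ∀ c ∈ β, ∀ c' ∈ β, c ≠ b → c' ≠ b → c = c' := by
    intro c hc c' hc' hcb hcb'
    by_contra hne
    have := three_new hb (hnot b hb0) (hreach c hc) (hnot c (h0β c hc)) (hreach c' hc')
      (hnot c' (h0β c' hc')) (Ne.symm hcb) (Ne.symm hcb') hne
    omega
  by_cases hall : ∀ c ∈ β, c = b
  · exact hnp ⟨b, perf_of_all_eq hb0 hall⟩
  · push Not at hall
    obtain ⟨t, ht, htb⟩ := hall
    have ht0 := h0β t ht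
    have ht2 : 2 • t = b := by
      rw [two_nsmul]
      have := htwo t ht htb
      rw [sub_eq_iff_eq_add] at this
      exact this.symm
    have hor : ∀ x ∈ β, x = t ∨ x = b := by
      intro x hx
      by_cases hxb : x = b
      · exact Or.inr hxb
      · exact Or.inl (huniq x hx t ht hxb htb)
    have hz : ∀ x ∈ β, x ∈ AddSubgroup.zmultiples t := by
      intro x hx
      rcases hor x hx with rfl | rfl
      · exact AddSubgroup.mem_zmultiples x
      · rw [← ht2]
        exact AddSubgroup.nsmul_mem _ (AddSubgroup.mem_zmultiples t) 2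
    have hL : L t β + 1 ≤ 2 * Multiset.card β := by
      obtain ⟨γ, hγ⟩ := Multiset.exists_cons_of_mem ht
      have hγL : ∀ δ : Multiset G, (∀ x ∈ δ, x = t ∨ x = b) → L t δ ≤ 2 * Multiset.card δ := by
        intro δ hδ
        induction δ using Multiset.induction_on with
        | empty => simp [L_nil]
        | cons w δ ih =>
          have h1 := ih (fun x hx => hδ x (Multiset.mem_cons_of_mem hx))
          rw [L_cons, Multiset.card_cons]
          have h2 : lg t w ≤ 2 := by
            rcases hδ w (Multiset.mem_cons_self w δ) with rfl | rfl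
            · exact (lg_le (one_nsmul w)).trans (by omega)
            · exact lg_le ht2
          omega
      have h1 := hγL γ (fun x hx => hor x (hγ ▸ Multiset.mem_cons_of_mem hx))
      rw [hγ, L_cons, lg_self ht0, Multiset.card_cons]
      omega
    apply hnp
    refine ⟨t, hz, ?_⟩
    have h4 : L t β % addOrderOf t = 0 := by rw [L_mod hz, hX.1, lg_zero]
    have h6 : Nat.card (cl β) = addOrderOf t := card_cl_eq hz (Zss.mem_cl ht)
    have h7 := hX.N_eq
    rw [h6] at h7
    have h8 : L t β ≠ nu β * addOrderOf t + 1 := by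
      intro h
      rw [h, mul_comm, Nat.mul_add_mod] at h4
      have h9 : addOrderOf t ≠ 1 := fun h => ht0 (AddMonoid.addOrderOf_eq_one_iff.1 h)
      have h10 := addOrderOf_pos t
      rw [Nat.mod_eq_of_lt (by omega)] at h4
      omega
    omega

end Pool.Agent.Helper75.Zss
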