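import Pool.Agent.Helper75.Zss.Tri

/-!
# Zero-sum theory: proof of the trichotomy
-/

namespace Pool.Agent.Helper75.Zss

variable {G : Type*} [AddCommGroup G] [Fintype G]

/-- Step 2: all deletions have growth one. -/
theorem step_two {α : Multiset G} (h0 : ∀ x ∈ α, x ≠ 0)
    (hg : ∀ b γ, α = b ::ₘ γ → N α ≤ N γ + 1) (hN : N α + 1 = 2 * Multiset.card α) :
    Flat α ∨ (∃ g, Perf g α) ∨ IsX α := by
  have key : ∀ b ∈ α, (∀ j, j < nu α → ∀ x, Reach α j x → Reach α j (x + b)) ∧
    ((∀ x, Reach α (nu α) x → Reach α (nu α) (x + b)) ∨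
      (¬ Reach α (nu α) (-b) ∧
        ∀ x, Reach α (nu α) x → (Reach α (nu α) (x + b) ↔ x ≠ α.sum))) := by
    intro b hb
    obtain ⟨γ, hγ⟩ := Multiset.exists_cons_of_mem hb
    have := hg b γ hγ
    rw [hγ] at this
    have := growth_one this
    rwa [← hγ] at this
  by_cases hall : ∀ b ∈ α, ∀ x, Reach α (nu α) x → Reach α (nu α) (x + b)
  · left
    intro y hy
    have := stable_cl (P := fun x => Reach α (nu α) x) hall hy 0 (reach_nu α)
    simpa using this
  · push Not at hall
    obtain ⟨a, ha, y, hy, hya⟩ := hall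
    have hσ := reach_sum_nu α
    have hA : ¬ Reach α (nu α) (-a) ∧
        ∀ x, Reach α (nu α) x → (Reach α (nu α) (x + a) ↔ x ≠ α.sum) := by
      rcases (key a ha).2 with h | h
      · exact absurd (h y hy) hya
      · exact h
    have hσa : ¬ Reach α (nu α) (α.sum + a) := fun h => ((hA.2 _ hσ).1 h) rfl
    have hB : ∀ b ∈ α, ¬ Reach α (nu α) (-b) ∧
        ∀ x, Reach α (nu α) x → (Reach α (nu α) (x + b) ↔ x ≠ α.sum) := by
      intro b hb
      rcases (key b hb).2 with h | h
      · exfalso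
        have h1 := h _ hσ
        have h2 : α.sum + b ≠ α.sum := by
          intro h
          exact h0 b hb (by simpa using h)
        have h3 := (hA.2 _ h1).2 h2
        have h4 := stable_neg (P := fun x => Reach α (nu α) x) h h3
        apply hσa
        have h5 : α.sum + b + a - b = α.sum + a := by abel
        rwa [h5] at h4
      · exact h
    right
    by_cases hs : α.sum = 0
    · right
      refine ⟨hs, ?_, hN⟩
      intro j hj x hx
      have := stable_cl (P := fun x => Reach α j x) (fun b hb => (key b hb).1 j hj) hx 0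
        ((reach_nu α).antitone hj.le)
      simpa using this
    · left
      refine ⟨a, perf_of_all_eq (h0 a ha) ?_⟩
      intro b hb
      by_contra hba
      have h1 : Reach α (nu α) a := by
        have := (hA.2 0 (reach_nu α)).2 (Ne.symm hs)
        rwa [zero_add] at this
      have h2 := h1.symm
      have h3 : α.sum - a ≠ α.sum := by
        intro h
        exact h0 a ha (by simpa using h)
      have h4 := ((hB b hb).2 _ h2).2 h3
      have h5 : α.sum - a + b ≠ α.sum := by
        intro h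
        apply hba
        have : α.sum - a + b = α.sum + (b - a) := by abel
        rw [this] at h
        have h6 : b - a = 0 := by simpa using h
        exact sub_eq_zero.1 h6
      have h6 := (hA.2 _ h4).2 h5
      have h7 : α.sum - a + b + a = α.sum + b := by abel
      rw [h7] at h6
      exact (((hB b hb).2 _ hσ).1 h6) rfl

/-- Lemma S1. -/
theorem lemma_S1 {α γ δ : Multiset G} {g b : G} (h0 : ∀ x ∈ α, x ≠ 0) (hγ : α = g ::ₘ γ)
    (hδ : α = b ::ₘ δ) (hgr : N α ≤ N γ + 1) (hb : b ∈ AddSubgroup.zmultiples g)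
    (hp : Perf g δ) (hnp : ¬ Perf g α) : Flat α := by
  classical
  have hgα : g ∈ α := hγ ▸ Multiset.mem_cons_self g γ
  have hg0 := h0 g hgα
  have hz : ∀ x ∈ α, x ∈ AddSubgroup.zmultiples g := by
    intro x hx
    rw [hδ] at hx
    rcases Multiset.mem_cons.1 hx with rfl | hx
    · exact hb
    · exact hp.1 x hx
  have hcl : cl α = AddSubgroup.zmultiples g :=
    le_antisymm (cl_le.2 hz) (AddSubgroup.zmultiples_le_of_mem (Zss.mem_cl hgα))
  have key : (∀ j, j < nu α → ∀ x, Reach α j x → Reach α j (x + g)) ∧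
    ((∀ x, Reach α (nu α) x → Reach α (nu α) (x + g)) ∨
      (¬ Reach α (nu α) (-g) ∧
        ∀ x, Reach α (nu α) x → (Reach α (nu α) (x + g) ↔ x ≠ α.sum))) := by
    rw [hγ] at hgr
    have := growth_one hgr
    rwa [← hγ] at this
  have hmul : ∀ (P : G → Prop), (∀ x, P x → P (x + g)) → P 0 → ∀ x ∈ cl α, P x := by
    intro P hP hP0 x hx
    rw [hcl] at hx
    obtain ⟨i, rfl⟩ := exists_nsmul hx
    clear hx
    induction i with
    | zero => simpa using hP0
    | succ i ih =>
      rw [succ_nsmul]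
      exact hP _ ih
  rcases key.2 with hst | ⟨hneg, hst⟩
  · intro x hx
    exact hmul (fun x => Reach α (nu α) x) hst (reach_nu α) x hx
  · exfalso
    have hbelow : Below α := fun j hj x hx =>
      hmul (fun x => Reach α j x) (key.1 j hj) ((reach_nu α).antitone hj.le) x hx
    have hσz : α.sum ∈ AddSubgroup.zmultiples g := sum_mem_of hz
    set m := addOrderOf g with hm
    set s := lg g α.sum with hs
    have hsm : s < m := lg_lt hσz
    -- the top level is the arc `0, g, ..., s g`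
    have htop : ∀ x, x ∈ (Finset.range (s + 1)).image (fun i : ℕ => i • g) ↔
        Reach α (nu α) x := by
      intro x
      rw [Finset.mem_image]
      constructor
      · rintro ⟨i, hi, rfl⟩
        rw [Finset.mem_range] at hi
        induction i with
        | zero => simpa using reach_nu α
        | succ i ih =>
          have h1 := ih (by omega)
          rw [succ_nsmul]
          apply (hst _ h1).2
          intro h
          have : lg g (i • g) = i := lg_nsmul (by omega)
          rw [h] at this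
          omega
      · intro hx
        have hxz := hx.mem_of hz
        refine ⟨lg g x, ?_, lg_spec hxz⟩
        rw [Finset.mem_range]
        by_contra hcon
        push Not at hcon
        have h1 : ∀ k, lg g x + k < m → Reach α (nu α) (x + k • g) := by
          intro k
          induction k with
          | zero => intro _; simpa using hx
          | succ k ih =>
            intro hk
            have h2 := ih (by omega)
            rw [succ_nsmul, ← add_assoc]
            apply (hst _ h2).2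
            intro h
            have h3 : lg g ((lg g x + k) • g) = lg g x + k := lg_nsmul (by omega)
            rw [add_nsmul, lg_spec hxz, h] at h3
            omega
        have h2 := lg_lt hxz
        rw [← hm] at h2
        have h3 := h1 (m - 1 - lg g x) (by omega)
        apply hneg
        have h4 : x + (m - 1 - lg g x) • g = - g := by
          nth_rewrite 1 [← lg_spec hxz]
          rw [← add_nsmul, eq_neg_iff_add_eq_zero]
          have : (lg g x + (m - 1 - lg g x)) • g + g =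
              ((lg g x + (m - 1 - lg g x)) + 1) • g := (succ_nsmul g _).symm
          rw [this, show lg g x + (m - 1 - lg g x) + 1 = m by omega, hm,
            addOrderOf_nsmul_eq_zero]
        rwa [h4] at h3
    have hN := N_of_below hbelow _ htop
    rw [Finset.card_image_of_injOn, Finset.card_range, hcl, Nat.card_zmultiples, ← hm] at hN
    · -- compare with `L`
      have h1 : L g α % m = s := by rw [hm, L_mod hz]
      have h2 : L g α = lg g b + L g δ := by rw [hδ, L_cons]
      have h3 := lg_lt hb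
      rw [← hm] at h3
      have h4 := hp.2
      have h5 : N δ + 1 ≤ N α := by rw [hδ]; exact N_cons δ b
      have h6 : N α ≤ L g α := by
        by_contra h
        exact hnp ⟨hz, by omega⟩
      have h7 : (nu α + 1) * m + s ≤ L g α := by
        have e1 : m * (L g α / m) + s = L g α := by
          rw [← h1]; exact Nat.div_add_mod _ _
        have h8 : nu α < L g α / m := by
          by_contra hcon
          push Not at hcon
          have : m * (L g α / m) ≤ m * nu α := Nat.mul_le_mul_left _ hcon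
          rw [mul_comm m (nu α)] at this
          omega
        have h9 : m * (nu α + 1) ≤ m * (L g α / m) := Nat.mul_le_mul_left _ h8
        rw [mul_comm m (nu α + 1)] at h9
        omega
      rw [add_mul, one_mul] at h7
      omega
    · intro i hi j hj hij
      simp only [Finset.coe_range, Set.mem_Iio] at hi hj
      have e1 : lg g (i • g) = i := lg_nsmul (by omega)
      have e2 : lg g (j • g) = j := lg_nsmul (by omega)
      have hij' : i • g = j • g := hij
      rw [← e1, ← e2, hij']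

section core

variable [DecidableEq G]

/-- Comparison of multiplicities. -/
theorem cmp {α γ : Multiset G} {y g z : G} (h0 : ∀ x ∈ α, x ≠ 0) (hγ : α = y ::ₘ γ)
    (hp : Perf g γ) (hL : L g γ + 4 ≤ 2 * Multiset.card α) (hz : 3 ≤ lg g z) :
    Multiset.count z α + 1 ≤ Multiset.count g α := by
  have h0γ : ∀ x ∈ γ, x ≠ 0 := fun x hx => h0 x (hγ ▸ Multiset.mem_cons_of_mem hx)
  by_cases hγ0 : γ = 0
  · subst hγ0
    rw [hγ] at hL
    simp at hL
  have h1 := cnt1 (hp.ne_zero h0γ hγ0) hp.1 h0γ hz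
  have h2 : Multiset.count z α ≤ Multiset.count z γ + 1 := by
    rw [hγ, Multiset.count_cons]
    split_ifs <;> omega
  have h3 : Multiset.count g γ ≤ Multiset.count g α := by
    rw [hγ]
    exact Multiset.count_le_count_cons _ _ _
  rw [hγ, Multiset.card_cons] at hL
  omega

theorem count_two {α γ : Multiset G} {y g : G} (h0 : ∀ x ∈ α, x ≠ 0) (hγ : α = y ::ₘ γ)
    (hp : Perf g γ) (hL : L g γ + 4 ≤ 2 * Multiset.card α) :
    2 ≤ Multiset.count g α := by
  have h0γ : ∀ x ∈ γ, x ≠ 0 := fun x hx => h0 x (hγ ▸ Multiset.mem_cons_of_mem hx)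
  have h1 := cnt0 hp.1 h0γ
  have h3 : Multiset.count g γ ≤ Multiset.count g α := by
    rw [hγ]
    exact Multiset.count_le_count_cons _ _ _
  rw [hγ, Multiset.card_cons] at hL
  omega

theorem core_two {α γ₀ : Multiset G} {b₀ g g₂ : G} (h0 : ∀ x ∈ α, x ≠ 0)
    (hγ₀ : α = b₀ ::ₘ γ₀) (hp₀ : Perf g γ₀) (hL₀ : L g γ₀ + 4 ≤ 2 * Multiset.card α)
    (hlt : Multiset.count g α < Multiset.count g₂ α) : lg g g₂ = 2 := by
  have hc := count_two h0 hγ₀ hp₀ hL₀
  have hle : lg g g₂ ≤ 2 := by
    by_contra hcon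
    have := cmp h0 hγ₀ hp₀ hL₀ (z := g₂) (by omega)
    omega
  have hmem : g₂ ∈ γ₀ := by
    rw [← Multiset.count_pos]
    have : Multiset.count g₂ α ≤ Multiset.count g₂ γ₀ + 1 := by
      rw [hγ₀, Multiset.count_cons]
      split_ifs <;> omega
    omega
  have hz := hp₀.1 g₂ hmem
  have h1 := lg_ne_zero hz (h0 g₂ (hγ₀ ▸ Multiset.mem_cons_of_mem hmem))
  have h2 : lg g g₂ ≠ 1 := by
    apply lg_ne_one hz
    rintro rfl
    omega
  omega

theorem core_false {α γ₀ γ₁ γ₂ : Multiset G} {b₀ g g₂ g₃ : G} (h0 : ∀ x ∈ α, x ≠ 0)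
    (hγ₀ : α = b₀ ::ₘ γ₀) (hp₀ : Perf g γ₀) (hL₀ : L g γ₀ + 4 ≤ 2 * Multiset.card α)
    (hγ₁ : α = g ::ₘ γ₁) (hp₁ : Perf g₂ γ₁) (hL₁ : L g₂ γ₁ + 4 ≤ 2 * Multiset.card α)
    (h₁ : 3 ≤ lg g₂ g)
    (hγ₂ : α = g₂ ::ₘ γ₂) (hp₂ : Perf g₃ γ₂) (hL₂ : L g₃ γ₂ + 4 ≤ 2 * Multiset.card α)
    (h₂ : 3 ≤ lg g₃ g₂) : False := by
  have c1 := cmp h0 hγ₁ hp₁ hL₁ h₁
  have c2 := cmp h0 hγ₂ hp₂ hL₂ h₂
  have e1 : lg g g₂ = 2 := core_two h0 hγ₀ hp₀ hL₀ (by omega)
  have e2 : lg g g₃ = 2 := core_two h0 hγ₀ hp₀ hL₀ (by omega)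
  have hc := count_two h0 hγ₀ hp₀ hL₀
  have hmem : ∀ z, Multiset.count g α < Multiset.count z α → z ∈ γ₀ := by
    intro z hz
    rw [← Multiset.count_pos]
    have : Multiset.count z α ≤ Multiset.count z γ₀ + 1 := by
      rw [hγ₀, Multiset.count_cons]
      split_ifs <;> omega
    omega
  have : g₂ = g₃ := lg_inj (hp₀.1 g₂ (hmem _ (by omega))) (hp₀.1 g₃ (hmem _ (by omega)))
    (by rw [e1, e2])
  rw [this] at c2
  omega

end core

/-- Deletion alternative: growth one, or the rest is perfect with small length. -/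
theorem del {α γ : Multiset G} {y : G} (h0 : ∀ x ∈ α, x ≠ 0)
    (IH : ∀ β : Multiset G, Multiset.card β < Multiset.card α → Tri β)
    (hN : N α + 1 ≤ 2 * Multiset.card α) (hγ : α = y ::ₘ γ)
    (hg : N γ + 3 ≤ 2 * Multiset.card α) :
    ∃ g, Perf g γ ∧ L g γ + 4 ≤ 2 * Multiset.card α ∧ L g γ + 1 ≤ N γ := by
  have hc : Multiset.card α = Multiset.card γ + 1 := by rw [hγ, Multiset.card_cons]
  have h0γ : ∀ x ∈ γ, x ≠ 0 := fun x hx => h0 x (hγ ▸ Multiset.mem_cons_of_mem hx)
  by_cases hp : ∃ g, Perf g γ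
  · obtain ⟨g, hp⟩ := hp
    refine ⟨g, hp, ?_, hp.2⟩
    have := hp.2
    omega
  · exfalso
    rcases IH γ (by omega) h0γ (by omega) with h | h
    · exact hp h
    · have := h.cons_large (b := y) (fun β hβ => IH β (by omega)) (by rwa [← hγ]) hp
      rw [← hγ] at this
      omega

theorem del_mem {α γ : Multiset G} {y g : G}
    (hN : N α + 1 ≤ 2 * Multiset.card α) (hγ : α = y ::ₘ γ) (hp : Perf g γ) :
    y ∈ AddSubgroup.zmultiples g := by
  have hc : Multiset.card α = Multiset.card γ + 1 := by rw [hγ, Multiset.card_cons]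
  by_contra hy
  have h1 := N_cons_out hp.1 hy
  rw [← hγ] at h1
  have h2 := card_lt_N γ
  omega

/-- In a bad deletion the deleted element lies in the cyclic group and has length at least 3. -/
theorem del_lg {α γ : Multiset G} {y g : G}
    (hN : N α + 1 ≤ 2 * Multiset.card α) (hγ : α = y ::ₘ γ) (hg : N γ + 2 ≤ N α)
    (hp : Perf g γ) (hnp : ¬ ∃ g, Perf g α) :
    y ∈ AddSubgroup.zmultiples g ∧ 3 ≤ lg g y := by
  have hy : y ∈ AddSubgroup.zmultiples g := del_mem hN hγ hp
  refine ⟨hy, ?_⟩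
  by_contra hcon
  apply hnp
  refine ⟨g, ?_, ?_⟩
  · intro x hx
    rw [hγ] at hx
    rcases Multiset.mem_cons.1 hx with rfl | hx
    · exact hy
    · exact hp.1 x hx
  · have h1 : L g α = lg g y + L g γ := by rw [hγ, L_cons]
    have h2 := hp.2
    omega

/-- Step 1: some deletion is bad. -/
theorem step_one {α : Multiset G} (h0 : ∀ x ∈ α, x ≠ 0)
    (IH : ∀ β : Multiset G, Multiset.card β < Multiset.card α → Tri β)
    (hN : N α + 1 ≤ 2 * Multiset.card α) (hnp : ¬ ∃ g, Perf g α)
    {b₀ : G} {γ₀ : Multiset G} (hγ₀ : α = b₀ ::ₘ γ₀) (hg₀ : N γ₀ + 2 ≤ N α) : Flat α := by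
  classical
  obtain ⟨g, hp₀, hL₀, -⟩ := del h0 IH hN hγ₀ (by omega)
  obtain ⟨hb₀, -⟩ := del_lg hN hγ₀ hg₀ hp₀ hnp
  have hgα : g ∈ α := by
    rw [← Multiset.count_pos]
    have := count_two h0 hγ₀ hp₀ hL₀
    omega
  obtain ⟨γ₁, hγ₁⟩ := Multiset.exists_cons_of_mem hgα
  rcases Nat.lt_or_ge (N γ₁ + 1) (N α) with hg₁ | hg₁
  · obtain ⟨g₂, hp₁, hL₁, -⟩ := del h0 IH hN hγ₁ (by omega)
    obtain ⟨hz₁, hlg₁⟩ := del_lg hN hγ₁ hg₁ hp₁ hnp
    have c1 := cmp h0 hγ₁ hp₁ hL₁ hlg₁
    have hg₂α : g₂ ∈ α := by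
      rw [← Multiset.count_pos]
      omega
    obtain ⟨γ₂, hγ₂⟩ := Multiset.exists_cons_of_mem hg₂α
    rcases Nat.lt_or_ge (N γ₂ + 1) (N α) with hg₂ | hg₂
    · obtain ⟨g₃, hp₂, hL₂, -⟩ := del h0 IH hN hγ₂ (by omega)
      obtain ⟨-, hlg₂⟩ := del_lg hN hγ₂ hg₂ hp₂ hnp
      exact (core_false h0 hγ₀ hp₀ hL₀ hγ₁ hp₁ hL₁ hlg₁ hγ₂ hp₂ hL₂ hlg₂).elim
    · exact lemma_S1 h0 hγ₂ hγ₁ hg₂ hz₁ hp₁ (fun h => hnp ⟨g₂, h⟩)
  · exact lemma_S1 h0 hγ₁ hγ₀ hg₁ hb₀ hp₀ (fun h => hnp ⟨g, h⟩)

/-- The flat case is impossible. -/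
theorem flat_false {α : Multiset G} (hα : α ≠ 0) (h0 : ∀ x ∈ α, x ≠ 0)
    (IH : ∀ β : Multiset G, Multiset.card β < Multiset.card α → Tri β)
    (hN : N α + 1 ≤ 2 * Multiset.card α) (hnp : ¬ ∃ g, Perf g α) (hF : Flat α) : False := by
  classical
  have hNeq := hF.N_eq
  have hσ : α.sum ≠ 0 := by
    intro hs
    obtain ⟨x, hx⟩ := Multiset.exists_mem_of_ne_zero hα
    exact h0 x hx (top_of_sum_zero hs (hF x (Zss.mem_cl hx)))
  have hσcl : α.sum ∈ cl α := sum_mem_of (fun x hx => Zss.mem_cl hx)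
  -- deletions of elements different from `-σ` are bad
  have hbad : ∀ y γ, α = y ::ₘ γ → y ≠ - α.sum → N γ + 2 ≤ N α := by
    intro y γ hγ hy
    have h1 : ¬ Reach γ (nu α) (-y) := by
      intro h
      have := h.close.le_nu
      rw [← hγ] at this
      omega
    have h2 : ¬ Reach γ (nu α) α.sum := by
      intro h
      apply h1
      have h3 := h.symm
      have h4 : γ.sum - α.sum = - y := by rw [hγ, Multiset.sum_cons]; abel
      rwa [h4] at h3
    have hycl : -y ∈ cl α := (cl α).neg_mem (Zss.mem_cl (hγ ▸ Multiset.mem_cons_self y γ))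
    have h3 : insert (nu α, -y) (insert (nu α, α.sum) (S γ)) ⊆ S α := by
      intro r hr
      rcases Finset.mem_insert.1 hr with rfl | hr
      · exact mem_S.2 (hF _ hycl)
      rcases Finset.mem_insert.1 hr with rfl | hr
      · exact mem_S.2 (hF _ hσcl)
      · exact S_mono (by rw [hγ]; exact Multiset.le_cons_self γ y) hr
    have h4 := Finset.card_le_card h3
    rw [Finset.card_insert_of_notMem, Finset.card_insert_of_notMem] at h4
    · unfold N
      omega
    · rw [mem_S]
      exact h2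
    · rw [Finset.mem_insert, mem_S]
      push Not
      refine ⟨fun h => hy ?_, h1⟩
      have : -y = α.sum := (Prod.ext_iff.1 h).2
      rw [← this, neg_neg]
  -- choose `b₀`
  obtain ⟨b₀, hb₀, hb₀x⟩ : ∃ b ∈ α, b ≠ - α.sum := by
    by_contra hcon
    push Not at hcon
    exact hnp ⟨- α.sum, perf_of_all_eq (neg_ne_zero.2 hσ) hcon⟩
  obtain ⟨γ₀, hγ₀⟩ := Multiset.exists_cons_of_mem hb₀
  have hg₀ := hbad b₀ γ₀ hγ₀ hb₀x
  obtain ⟨g, hp₀, hL₀, hL₀'⟩ := del h0 IH hN hγ₀ (by omega)
  obtain ⟨hb₀z, hlg₀⟩ := del_lg hN hγ₀ hg₀ hp₀ hnp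
  have hgα : g ∈ α := by
    rw [← Multiset.count_pos]
    have := count_two h0 hγ₀ hp₀ hL₀
    omega
  have hz : ∀ x ∈ α, x ∈ AddSubgroup.zmultiples g := by
    intro x hx
    rw [hγ₀] at hx
    rcases Multiset.mem_cons.1 hx with rfl | hx
    · exact hb₀z
    · exact hp₀.1 x hx
  have hσz : α.sum ∈ AddSubgroup.zmultiples g := sum_mem_of hz
  have hxz : - α.sum ∈ AddSubgroup.zmultiples g := (AddSubgroup.zmultiples g).neg_mem hσz
  -- the length of `x = -σ` is at least 4
  have hx4 : 4 ≤ lg g (- α.sum) := by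
    have hcl : Nat.card (cl α) = addOrderOf g := card_cl_eq hz (Zss.mem_cl hgα)
    rw [hcl] at hNeq
    have h1 : L g α % addOrderOf g = lg g α.sum := L_mod hz
    have h2 : L g α = lg g b₀ + L g γ₀ := by rw [hγ₀, L_cons]
    have h3 := lg_lt hb₀z
    have h4 := lg_lt hσz
    have h5 := lg_lt hxz
    have h6 : N α ≤ L g α := by
      by_contra h
      exact hnp ⟨g, hz, by omega⟩
    have h7 : lg g α.sum + lg g (- α.sum) = addOrderOf g := by
      have e1 : (lg g α.sum + lg g (- α.sum)) • g = 0 := by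
        rw [add_nsmul, lg_spec hσz, lg_spec hxz, add_neg_cancel]
      have e2 := addOrderOf_dvd_of_nsmul_eq_zero e1
      have e3 := lg_ne_zero hσz hσ
      obtain ⟨k, hk⟩ := e2
      have e4 : k = 1 := by
        have : addOrderOf g * k < addOrderOf g * 2 := by omega
        have h8 := Nat.lt_of_mul_lt_mul_left this
        have h9 : k ≠ 0 := by
          rintro rfl
          omega
        omega
      rw [e4, mul_one] at hk
      exact hk
    have h8 : L g α % addOrderOf g = L g α - (nu α + 1) * addOrderOf g := by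
      have e1 : L g α = (L g α - (nu α + 1) * addOrderOf g) + (nu α + 1) * addOrderOf g := by
        omega
      nth_rewrite 1 [e1]
      rw [Nat.add_mul_mod_self_right]
      apply Nat.mod_eq_of_lt
      omega
    omega
  have hg0 := h0 g hgα
  have hgx : g ≠ - α.sum := by
    intro h
    rw [← h, lg_self hg0] at hx4
    omega
  obtain ⟨γ₁, hγ₁⟩ := Multiset.exists_cons_of_mem hgα
  have hg₁ := hbad g γ₁ hγ₁ hgx
  obtain ⟨g₂, hp₁, hL₁, -⟩ := del h0 IH hN hγ₁ (by omega)
  obtain ⟨-, hlg₁⟩ := del_lg hN hγ₁ hg₁ hp₁ hnp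
  have c1 := cmp h0 hγ₁ hp₁ hL₁ hlg₁
  have hg₂α : g₂ ∈ α := by
    rw [← Multiset.count_pos]
    omega
  have hg₂x : g₂ ≠ - α.sum := by
    intro h
    have := core_two h0 hγ₀ hp₀ hL₀ (g₂ := g₂) (by omega)
    rw [← h] at hx4
    omega
  obtain ⟨γ₂, hγ₂⟩ := Multiset.exists_cons_of_mem hg₂α
  have hg₂ := hbad g₂ γ₂ hγ₂ hg₂x
  obtain ⟨g₃, hp₂, hL₂, -⟩ := del h0 IH hN hγ₂ (by omega)
  obtain ⟨-, hlg₂⟩ := del_lg hN hγ₂ hg₂ hp₂ hnp
  exact core_false h0 hγ₀ hp₀ hL₀ hγ₁ hp₁ hL₁ hlg₁ hγ₂ hp₂ hL₂ hlg₂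

/-- The trichotomy. -/
theorem tri (α : Multiset G) : Tri α := by
  induction hn : Multiset.card α using Nat.strong_induction_on generalizing α with
  | _ n IH =>
    have IH' : ∀ β : Multiset G, Multiset.card β < Multiset.card α → Tri β := by
      intro β hβ
      exact IH _ (hn ▸ hβ) β rfl
    intro h0 hN
    by_cases hp : ∃ g, Perf g α
    · exact Or.inl hp
    right
    subst hn
    have hα : α ≠ 0 := by
      rintro rfl
      simp at hN
    by_cases hall : ∀ b γ, α = b ::ₘ γ → N α ≤ N γ + 1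
    · have hN' : N α + 1 = 2 * Multiset.card α := by
        by_contra hne
        obtain ⟨b, hb⟩ := Multiset.exists_mem_of_ne_zero hα
        obtain ⟨γ, hγ⟩ := Multiset.exists_cons_of_mem hb
        have hNγ : N γ + 1 ≤ N α := by rw [hγ]; exact N_cons γ b
        obtain ⟨g, hpγ, hL, -⟩ := del h0 IH' hN hγ (by omega)
        have hbz := del_mem hN hγ hpγ
        have hgα : g ∈ α := by
          classical
          rw [← Multiset.count_pos]
          have := count_two h0 hγ hpγ hL
          omega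
        obtain ⟨γ₁, hγ₁⟩ := Multiset.exists_cons_of_mem hgα
        exact flat_false hα h0 IH' hN hp
          (lemma_S1 h0 hγ₁ hγ (hall g γ₁ hγ₁) hbz hpγ (fun h => hp ⟨g, h⟩))
      rcases step_two h0 hall hN' with h | h | h
      · exact (flat_false hα h0 IH' hN hp h).elim
      · exact (hp h).elim
      · exact h
    · push Not at hall
      obtain ⟨b₀, γ₀, hγ₀, hg₀⟩ := hall
      exact (flat_false hα h0 IH' hN hp (step_one h0 IH' hN hp hγ₀ hg₀)).elim

end Pool.Agent.Helper75.Zss
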