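import Pool.Agent.Helper75.Zss.Deg

/-!
# Twins of zero-sum functions
-/

namespace Pool.Agent.Helper75.Poly

open Finset Pool.Agent.Helper75.Zss

theorem rs_ofFn {m N : ℕ} [NeZero m] (t : ℕ) (a : Fin N → ZMod m) :
    rs m t (List.ofFn (fun i => (a i).val)) = ∑ i, ((t : ZMod m) * a i).val := by
  unfold rs
  rw [List.map_ofFn, List.sum_ofFn]
  apply sum_congr rfl
  intro i _
  rw [Function.comp_apply, ZMod.val_mul, ZMod.val_natCast, Nat.mod_mul_mod]

theorem split_smul {m N ν : ℕ} {b : Fin N → ZMod m} {u : ZMod m}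
    {P : Fin N → Fin (ν + 1)} (h : ∀ k, ∑ i with P i = k, b i = 0) :
    ∀ k, ∑ i with P i = k, u * b i = 0 := by
  intro k
  rw [← mul_sum, h k, mul_zero]

/-- Every zero-sum function with all residue sums at least `(ν + 1) m` has a twin with the same
residue sums that splits into `ν + 1` zero-sum parts. -/
theorem twin {F : List V5} {U : List N5} {m s₂ s₃ s₄ : ℕ} {R : List (List ℕ)}
    (hidp : IDP F (U.map N5.toV))
    (hg : good F U m s₂ s₃ s₄ R = true) [NeZero m] {N ν : ℕ} {a : Fin N → ZMod m}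
    (ha : ∀ i, a i ≠ 0) (hs : ∑ i, a i = 0)
    (hval : ∀ t : ZMod m, IsUnit t → (ν + 1) * m ≤ ∑ i, (t * a i).val) :
    ∃ b : Fin N → ZMod m, (∀ i, b i ≠ 0) ∧ ∑ i, b i = 0 ∧
      (∀ t : ZMod m, IsUnit t → ∑ i, (t * b i).val = ∑ i, (t * a i).val) ∧
      ∃ P : Fin N → Fin (ν + 1), Function.Surjective P ∧ ∀ k, ∑ i with P i = k, b i = 0 := by
  classical
  have hm0 : 0 < m := Nat.pos_of_ne_zero (NeZero.ne m)
  obtain ⟨t₀, -, ht₀⟩ := exists_min_image (univ : Finset (ZMod m)ˣ)
    (fun t => ∑ i, ((t : ZMod m) * a i).val) ⟨1, mem_univ _⟩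
  set a' : Fin N → ZMod m := fun i => (t₀ : ZMod m) * a i with ha'
  have ha'0 : ∀ i, a' i ≠ 0 := fun i h => ha i ((Units.mul_right_eq_zero t₀).1 h)
  have hs' : ∑ i, a' i = 0 := by
    rw [ha', ← mul_sum, hs, mul_zero]
  set L := List.ofFn (fun i => (a' i).val) with hL
  have hL0 : ∀ c ∈ L, 0 < c ∧ c < m := by
    intro c hc
    rw [hL, List.mem_ofFn] at hc
    obtain ⟨i, rfl⟩ := hc
    exact ⟨Nat.pos_of_ne_zero (fun h => ha'0 i ((ZMod.val_eq_zero _).1 h)), ZMod.val_lt _⟩
  have hLs : L.sum = ∑ i, (a' i).val := by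
    rw [hL, List.sum_ofFn]
  have hLd : m ∣ L.sum := by
    rw [hLs, ← ZMod.natCast_eq_zero_iff]
    push_cast
    simp only [ZMod.natCast_val, ZMod.cast_id', id_eq]
    exact hs'
  have hmin : ∀ t : ℕ, t.Coprime m → rs m 1 L ≤ rs m t L := by
    intro t ht
    rw [hL, rs_ofFn, rs_ofFn]
    have h3 := ht₀ (ZMod.unitOfCoprime t ht * t₀) (mem_univ _)
    simp only [Units.val_mul, ZMod.coe_unitOfCoprime] at h3
    simp only [Nat.cast_one, one_mul, ha']
    refine h3.trans (le_of_eq ?_)
    apply sum_congr rfl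
    intro i _
    rw [mul_assoc]
  obtain ⟨P, hP1, hP2, hP3, hP4⟩ := core hidp hg hL0 hLd hmin
  have hlen : P.flatten.length = N := by
    rw [hP3, hL, List.length_ofFn]
  -- the twin of `a'`
  set b' : Fin N → ZMod m := fun i => ((P.flatten.get (i.cast hlen.symm) : ℕ) : ZMod m) with hb'
  have hmem : ∀ i : Fin N, P.flatten.get (i.cast hlen.symm) ∈ P.flatten :=
    fun i => List.get_mem _ _
  have hrange : ∀ i : Fin N, 0 < P.flatten.get (i.cast hlen.symm) ∧
      P.flatten.get (i.cast hlen.symm) < m := by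
    intro i
    obtain ⟨c, hc, hxc⟩ := List.mem_flatten.1 (hmem i)
    exact (hP2 c hc).2 _ hxc
  have hb'val : ∀ i, (b' i).val = P.flatten.get (i.cast hlen.symm) := by
    intro i
    rw [hb', ZMod.val_natCast, Nat.mod_eq_of_lt (hrange i).2]
  have hb'0 : ∀ i, b' i ≠ 0 := by
    intro i h
    have h3 := hb'val i
    rw [h, ZMod.val_zero] at h3
    exact absurd (hrange i).1 (by omega)
  have hofFn : List.ofFn (fun i => (b' i).val) = P.flatten := by
    apply List.ext_get
    · rw [List.length_ofFn, hlen]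
    · intro n h3 h4
      rw [List.get_ofFn, hb'val]
      rfl
  have hmap : (univ : Finset (Fin N)).val.map b' =
      ((P.map (fun c => ((c.map (Nat.cast : ℕ → ZMod m) : List (ZMod m)) :
        Multiset (ZMod m))) : List (Multiset (ZMod m))) : Multiset (Multiset (ZMod m))).sum := by
    have h3 : (univ : Finset (Fin N)).val.map b' =
        ((P.flatten.map (Nat.cast : ℕ → ZMod m) : List (ZMod m)) : Multiset (ZMod m)) := by
      rw [← hofFn, List.map_ofFn]
      have : (Nat.cast ∘ fun i => (b' i).val) = b' := by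
        funext i
        rw [Function.comp_apply, ZMod.natCast_val, ZMod.cast_id]
      rw [this, Fin.univ_val_map]
    rw [h3]
    generalize P = Q
    induction Q with
    | nil => rfl
    | cons c Q ih =>
      rw [List.flatten_cons, List.map_append, List.map_cons, ← Multiset.cons_coe,
        Multiset.sum_cons, ← ih, ← Multiset.coe_add]
  have hb's : ∑ i, b' i = 0 := by
    have h3 : ∑ i, b' i = ((List.ofFn (fun i => (b' i).val)).sum : ZMod m) := by
      rw [List.sum_ofFn]
      push_cast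
      apply sum_congr rfl
      intro i _
      rw [ZMod.natCast_val, ZMod.cast_id]
    rw [h3, hofFn, ZMod.natCast_eq_zero_iff]
    generalize hQ : P = Q at hP2
    clear * - hP2
    induction Q with
    | nil => simp
    | cons c Q ih =>
      rw [List.flatten_cons, List.sum_append]
      exact Nat.dvd_add (by rw [(hP2 c List.mem_cons_self).1])
        (ih (fun d hd => hP2 d (List.mem_cons_of_mem _ hd)))
  have hK : ν + 1 ≤ P.length := by
    have h3 := hval (t₀ : ZMod m) t₀.isUnit
    have h4 : ∑ i, ((t₀ : ZMod m) * a i).val = P.length * m := by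
      rw [hP1, hLs]
    rw [h4] at h3
    exact Nat.le_of_mul_le_mul_right h3 hm0
  have hreach : Reach ((univ : Finset (Fin N)).val.map b') (ν + 1) 0 := by
    apply Reach.antitone hK
    refine ⟨_, 0, ?_, ?_, le_of_eq (by rw [add_zero, hmap]), by simp⟩
    · simp
    · intro z hz
      rw [Multiset.mem_coe] at hz
      obtain ⟨c, hc, rfl⟩ := List.mem_map.1 hz
      have h3 := (hP2 c hc).1
      constructor
      · intro h4
        have h5 : c = [] := by
          have h6 : (c.map (Nat.cast : ℕ → ZMod m)) = [] := by simpa using h4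
          exact List.map_eq_nil_iff.1 h6
        rw [h5] at h3
        simp at h3
        omega
      · rw [Multiset.sum_coe]
        have h4 : (c.map (Nat.cast : ℕ → ZMod m)).sum = ((c.sum : ℕ) : ZMod m) := by
          rw [Nat.cast_list_sum]
        rw [h4, h3, ZMod.natCast_self]
  obtain ⟨Q, hQ1, hQ2⟩ := exists_split hb's hreach
  refine ⟨fun i => ((t₀⁻¹ : (ZMod m)ˣ) : ZMod m) * b' i, ?_, ?_, ?_, Q, hQ1, split_smul hQ2⟩
  · intro i h
    exact hb'0 i ((Units.mul_right_eq_zero t₀⁻¹).1 h)
  · rw [← mul_sum, hb's, mul_zero]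
  · intro t ht
    obtain ⟨u, rfl⟩ := ht
    -- `t t₀⁻¹` as a natural number
    set w : (ZMod m)ˣ := u * t₀⁻¹ with hw
    have hwc : (w : ZMod m).val.Coprime m := ZMod.val_coe_unit_coprime w
    have h3 := hP4 _ hwc
    rw [← hofFn, hL, rs_ofFn, rs_ofFn] at h3
    simp only [ZMod.natCast_val, ZMod.cast_id', id_eq] at h3
    have h4 : ∀ i, (u : ZMod m) * (((t₀⁻¹ : (ZMod m)ˣ) : ZMod m) * b' i) = (w : ZMod m) * b' i := by
      intro i
      rw [hw, Units.val_mul, mul_assoc]
    have h5 : ∀ i, (u : ZMod m) * a i = (w : ZMod m) * a' i := by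
      intro i
      rw [ha', hw, Units.val_mul, mul_assoc, Units.inv_mul_cancel_left]
    simp only [h4, h5]
    exact h3

end Pool.Agent.Helper75.Poly
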